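import Pool.Agent.T6.H4.SG.CNV

/-! # Module ABEL: the linearizing coordinate -/

set_option autoImplicit false

open Set Metric Filter Topology

noncomputable section

namespace Pool.Agent.T6.H4.SG

namespace ABELx

open CNVx

variable {F : ℂ → ℂ} {K : ℕ → Set ℂ} {N : ℕ}

theorem one_mem : (1 : ℂ) ∈ HH := by
  show 0 < (1 : ℂ).re
  simp

/-- the displacement of the orbit of `1` -/
def dl (F : ℂ → ℂ) (j : ℕ) : ℂ := F (F^[j] 1) - F^[j] 1

/-- approximations -/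
def Ph (F : ℂ → ℂ) (m i : ℕ) (w : ℂ) : ℂ := (F^[i + m] w - F^[i + m] 1) / dl F (i + m)

/-- the same in the far coordinate -/
def ps (F : ℂ → ℂ) (m i : ℕ) (v : ℂ) : ℂ := (F^[i] v - F^[i + m] 1) / dl F (i + m)

theorem dl_ne (hs : Sys F K N) (j : ℕ) : dl F j ≠ 0 :=
  sub_ne_zero.2 (ne_fix hs (iter_mem hs j one_mem))

theorem Ph_eq (m i : ℕ) (w : ℂ) : Ph F m i w = ps F m i (F^[m] w) := by
  unfold Ph ps
  rw [Function.iterate_add_apply]

theorem Ph_one (m i : ℕ) : Ph F m i 1 = 0 := by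
  unfold Ph
  rw [sub_self, zero_div]

theorem Ph_diff (hs : Sys F K N) (m i : ℕ) : DifferentiableOn ℂ (Ph F m i) HH := by
  unfold Ph
  exact ((iter_diff hs _).sub_const _).div_const _

theorem ps_diff (hs : Sys F K N) (m i : ℕ) : DifferentiableOn ℂ (ps F m i) HH := by
  unfold ps
  exact ((iter_diff hs _).sub_const _).div_const _

theorem ps_inj (hs : Sys F K N) {na : ℕ} (hi : InjOn F (K na)) (m i : ℕ) :
    InjOn (ps F m i) (K na) := by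
  intro a ha b hb hab
  unfold ps at hab
  rw [div_left_inj' (dl_ne hs _)] at hab
  exact iter_inj hs hi i ha hb (sub_left_injective hab)

theorem Ph_inj (hs : Sys F K N) {na : ℕ} (hi : InjOn F (K na)) (m i : ℕ) :
    InjOn (Ph F m i) (K na) := by
  intro a ha b hb hab
  unfold Ph at hab
  rw [div_left_inj' (dl_ne hs _)] at hab
  exact iter_inj hs hi (i + m) ha hb (sub_left_injective hab)

theorem Ph_F (m i : ℕ) (w : ℂ) : Ph F m i (F w) - Ph F m i w =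
    (F (F^[i + m] w) - F^[i + m] w) / dl F (i + m) := by
  unfold Ph
  rw [← sub_div]
  have h : F^[i + m] (F w) = F (F^[i + m] w) := by
    rw [← Function.iterate_succ_apply, Function.iterate_succ_apply']
  rw [h]
  congr 1
  ring

theorem Ph_F_lim (hC : S_CNV) (hs : Sys F K N) (hsm : Small F K) (m : ℕ) {w : ℂ} (hw : w ∈ HH) :
    Tendsto (fun i => Ph F m i (F w) - Ph F m i w) atTop (𝓝 1) := by
  have h1 := (hC F K N hs hsm).2 w hw 1 one_mem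
  have h2 := h1.comp (tendsto_add_atTop_nat m)
  refine h2.congr fun i => ?_
  rw [Ph_F]
  rfl

/-- the local estimate -/
theorem loc_bound (hC : S_CNV) (hK : S_KG) (hs : Sys F K N) (hsm : Small F K) {na n1 : ℕ}
    (hi : InjOn F (K na)) (hb : ∀ w ∈ K n1, closedBall w (w.re / 2) ⊆ K na)
    (h8 : ∀ w ∈ K n1, ‖F w - w‖ ≤ 1 / 8 * w.re) {w0 : ℂ} (hw0 : w0 ∈ HH) :
    ∃ b : ℝ, ∀ w : ℂ, ‖F^[N + n1] w - F^[N + n1] w0‖ ≤ (F^[N + n1] w0).re / 4 →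
      ∀ i, ‖Ph F (N + n1) i w - Ph F (N + n1) i w0‖ ≤ b := by
  obtain ⟨m, hm⟩ : ∃ m, m = N + n1 := ⟨_, rfl⟩
  obtain ⟨v0, hv0⟩ : ∃ v0, v0 = F^[m] w0 := ⟨_, rfl⟩
  have hvK : v0 ∈ K n1 := by rw [hv0, hm]; exact hs.orb n1 w0 hw0
  have hvH : v0 ∈ HH := hs.sub _ hvK
  have hx : 0 < v0.re := hvH
  obtain ⟨B0, hB0⟩ := (Metric.isBounded_range_of_tendsto _
    (Ph_F_lim hC hs hsm m hw0)).exists_norm_le
  have hh : 0 < ‖F v0 - v0‖ := norm_pos_iff.2 (sub_ne_zero.2 (ne_fix hs hvH))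
  have h8' := h8 v0 hvK
  have hsub : ball v0 (v0.re / 2) ⊆ K na := ball_subset_closedBall.trans (hb v0 hvK)
  refine ⟨60 * (v0.re / 4) * (4 * B0 / ‖F v0 - v0‖), ?_⟩
  intro w hw i
  rw [← hm, ← hv0] at hw
  rw [← hm, Ph_eq, Ph_eq, ← hv0]
  obtain ⟨-, k2, k3, -⟩ := hK (ps F m i) v0 (v0.re / 2) (by linarith)
    ((ps_diff hs m i).mono (hsub.trans (hs.sub na))) ((ps_inj hs hi m i).mono hsub)
  have h1 := k2 (F v0) (by rw [mem_ball, dist_eq_norm]; linarith)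
  have h2 : ‖ps F m i (F v0) - ps F m i v0‖ ≤ B0 := by
    have h3 : ps F m i (F v0) - ps F m i v0 = Ph F m i (F w0) - Ph F m i w0 := by
      rw [Ph_eq, Ph_eq, ← hv0]
      congr 2
      rw [hv0]
      exact (Function.iterate_succ_apply' F m w0).symm.trans (Function.iterate_succ_apply F m w0)
    rw [h3]
    exact hB0 _ ⟨i, rfl⟩
  have h4 : ‖deriv (ps F m i) v0‖ ≤ 4 * B0 / ‖F v0 - v0‖ := by
    rw [le_div_iff₀ hh]
    linarith
  have h5 := k3 (F^[m] w) (by linarith)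
  refine h5.trans ?_
  gcongr

theorem LB_Ph (hC : S_CNV) (hK : S_KG) (hs : Sys F K N) (hsm : Small F K) {na n1 : ℕ}
    (hi : InjOn F (K na)) (hb : ∀ w ∈ K n1, closedBall w (w.re / 2) ⊆ K na)
    (h8 : ∀ w ∈ K n1, ‖F w - w‖ ≤ 1 / 8 * w.re) :
    Pool.Agent.Helper114.Konig.LB HH (Ph F (N + n1)) := by
  obtain ⟨m, hm⟩ : ∃ m, m = N + n1 := ⟨_, rfl⟩
  have hloc : ∀ w0 ∈ HH, ∃ b : ℝ, ∃ U : Set ℂ, IsOpen U ∧ w0 ∈ U ∧ U ⊆ HH ∧ ∀ w ∈ U,
      ∀ i, ‖Ph F m i w - Ph F m i w0‖ ≤ b := by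
    intro w0 hw0
    obtain ⟨b, hb'⟩ := loc_bound hC hK hs hsm hi hb h8 hw0
    rw [← hm] at hb'
    have hp : 0 < (F^[m] w0).re := iter_mem hs m hw0
    have hcont : ContinuousOn (fun w => ‖F^[m] w - F^[m] w0‖) HH :=
      ((iter_diff hs m).continuousOn.sub continuousOn_const).norm
    refine ⟨b, HH ∩ (fun w => ‖F^[m] w - F^[m] w0‖) ⁻¹' (Iio ((F^[m] w0).re / 4)),
      hcont.isOpen_inter_preimage HH_open isOpen_Iio, ⟨hw0, ?_⟩, inter_subset_left, ?_⟩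
    · simp only [mem_preimage, sub_self, norm_zero, mem_Iio]
      linarith
    · intro w hw i
      exact hb' w (le_of_lt hw.2) i
  have hall : HH ⊆ {w | w ∈ HH ∧ ∃ B : ℝ, ∀ i, ‖Ph F m i w‖ ≤ B} := by
    apply HH_convex.isPreconnected.subset_of_closure_inter_subset
    · rw [isOpen_iff_mem_nhds]
      rintro w0 ⟨hw0, B, hB⟩
      obtain ⟨b, U, hUo, hwU, hUH, hU⟩ := hloc w0 hw0
      filter_upwards [hUo.mem_nhds hwU] with w hw
      refine ⟨hUH hw, b + B, fun i => ?_⟩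
      have h1 : Ph F m i w = (Ph F m i w - Ph F m i w0) + Ph F m i w0 := by ring
      rw [h1]
      exact (norm_add_le _ _).trans (add_le_add (hU w hw i) (hB i))
    · refine ⟨1, one_mem, one_mem, 0, fun i => ?_⟩
      rw [Ph_one, norm_zero]
    · rintro w0 ⟨hcl, hw0⟩
      obtain ⟨b, U, hUo, hwU, hUH, hU⟩ := hloc w0 hw0
      obtain ⟨w, hwU', hwH, B, hB⟩ := mem_closure_iff.1 hcl U hUo hwU
      refine ⟨hw0, b + B, fun i => ?_⟩
      have h1 : Ph F m i w0 = Ph F m i w - (Ph F m i w - Ph F m i w0) := by ring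
      rw [h1]
      refine (norm_sub_le _ _).trans ?_
      linarith [hU w hwU' i, hB i]
  rw [← hm]
  intro z hz
  obtain ⟨-, B, hB⟩ := hall hz
  obtain ⟨b, U, hUo, hwU, hUH, hU⟩ := hloc z hz
  refine ⟨U, hUo.mem_nhds hwU, b + B, fun i w hw => ?_⟩
  have h1 : Ph F m i w = (Ph F m i w - Ph F m i z) + Ph F m i z := by ring
  rw [h1]
  exact (norm_add_le _ _).trans (add_le_add (hU w hw i) (hB i))

theorem Nb_open (K : ℕ → Set ℂ) (n : ℕ) : IsOpen (Nb K n) := by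
  have h : Nb K n = ⋃ w ∈ K n, ball w (w.re / 2) := by
    ext v
    simp only [Nb, mem_ofPred_eq, mem_iUnion, mem_ball, dist_eq_norm, exists_prop]
  rw [h]
  exact isOpen_biUnion fun w _ => isOpen_ball

/-- Hurwitz on an open set -/
theorem inj_lim {H : Set ℂ} (hHo : IsOpen H) (hHc : IsPreconnected H) (f : ℕ → ℂ → ℂ)
    (hf : ∀ i, DifferentiableOn ℂ (f i) H) (hLB : Pool.Agent.Helper114.Konig.LB H f)
    (𝒰 : Ultrafilter ℕ) {Φ : ℂ → ℂ} (hΦd : DifferentiableOn ℂ Φ H)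
    (hΦ : ∀ z ∈ H, Tendsto (fun n => f n z) 𝒰 (𝓝 (Φ z)))
    (hnc : ¬ ∃ c, ∀ z ∈ H, Φ z = c) {O : Set ℂ} (hOo : IsOpen O) (hOH : O ⊆ H)
    (hinj : ∀ i, InjOn (f i) O) : InjOn Φ O := by
  intro a ha b hb hab
  by_contra hne
  obtain ⟨A, B, hA, hB, hd⟩ := t2_separation_nhds hne
  obtain ⟨Na, hNa, Ma, hMa⟩ := hLB a (hOH ha)
  obtain ⟨Nb', hNb, Mb, hMb⟩ := hLB b (hOH hb)
  obtain ⟨W, hWdef⟩ : ∃ W, W = (interior Na ∩ O) ∪ (interior Nb' ∩ O) := ⟨_, rfl⟩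
  have hWo : IsOpen W := by
    rw [hWdef]
    exact (isOpen_interior.inter hOo).union (isOpen_interior.inter hOo)
  have haW : a ∈ W := by
    rw [hWdef]
    exact Or.inl ⟨mem_interior_iff_mem_nhds.2 hNa, ha⟩
  have hbW : b ∈ W := by
    rw [hWdef]
    exact Or.inr ⟨mem_interior_iff_mem_nhds.2 hNb, hb⟩
  have hWO : W ⊆ O := by
    rw [hWdef]
    rintro x (hx | hx)
    · exact hx.2
    · exact hx.2
  have hWM : ∀ n, ∀ z ∈ W, ‖f n z‖ ≤ max Ma Mb := by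
    intro n z hz
    rw [hWdef] at hz
    rcases hz with hz | hz
    · exact (hMa n z (interior_subset hz.1)).trans (le_max_left _ _)
    · exact (hMb n z (interior_subset hz.1)).trans (le_max_right _ _)
  obtain ⟨Ψ, hΨd, hΨ⟩ := Pool.Agent.Helper114.Montel.montel hWo f
    (fun n => (hf n).mono (hWO.trans hOH)) (max Ma Mb) hWM 𝒰
  have hΨΦ : ∀ z ∈ W, Ψ z = Φ z := fun z hz =>
    tendsto_nhds_unique (hΨ.tendsto_at hz) (hΦ z (hOH (hWO hz)))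
  have hΦa : AnalyticOnNhd ℂ Φ H := hΦd.analyticOnNhd hHo
  have hloc : ∀ x ∈ W, ¬ ∀ᶠ z in 𝓝 x, Ψ z = Ψ x := by
    intro x hx h
    have h2 : ∀ᶠ z in 𝓝 x, Φ z = Ψ x := by
      filter_upwards [h, hWo.mem_nhds hx] with z hz hzW
      rw [← hΨΦ z hzW, hz]
    have heq := hΦa.eqOn_of_preconnected_of_eventuallyEq (analyticOnNhd_const (v := Ψ x))
      hHc (hOH (hWO hx)) h2
    exact hnc ⟨Ψ x, fun z hz => heq hz⟩
  obtain ⟨V1, hV1, hev1⟩ := Pool.Agent.Helper114.Montel.hurwitz_cover hWo f Ψ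
    (fun n => (hf n).mono (hWO.trans hOH)) hΨ haW (hloc a haW) (inter_mem hA (hWo.mem_nhds haW))
  obtain ⟨V2, hV2, hev2⟩ := Pool.Agent.Helper114.Montel.hurwitz_cover hWo f Ψ
    (fun n => (hf n).mono (hWO.trans hOH)) hΨ hbW (hloc b hbW) (inter_mem hB (hWo.mem_nhds hbW))
  obtain ⟨i, hi1, hi2⟩ := (hev1.and hev2).exists
  obtain ⟨a', ha', hva⟩ := hi1 (mem_of_mem_nhds hV1)
  obtain ⟨b', hb', hvb⟩ := hi2 (mem_of_mem_nhds hV2)
  have hab' : Ψ a = Ψ b := by rw [hΨΦ a haW, hΨΦ b hbW, hab]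
  have h1 : a' = b' := hinj i (hWO ha'.2) (hWO hb'.2) (by rw [hva, hvb, hab'])
  rw [← h1] at hb'
  exact (Set.disjoint_left.1 hd) ha'.1 hb'.1

end ABELx

open CNVx ABELx in
theorem t_ABEL (hC : S_CNV) (hL : S_LOC) (hK : S_KG) : S_ABEL := by
  intro F K N hs hsm
  obtain ⟨⟨na, hna⟩, hball⟩ := hL F K N hs hsm
  obtain ⟨n1', hn1', hb1'⟩ := hball na
  obtain ⟨n2, hn2⟩ := hsm (1 / 8) (by norm_num)
  obtain ⟨n1, hn1⟩ : ∃ n1, n1 = max n1' n2 := ⟨_, rfl⟩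
  have hb1 : ∀ w ∈ K n1, closedBall w (w.re / 2) ⊆ K na := fun w hw =>
    hb1' w (K_anti hs (by rw [hn1]; exact le_max_left _ _) hw)
  have h8 : ∀ w ∈ K n1, ‖F w - w‖ ≤ 1 / 8 * w.re := fun w hw =>
    hn2 w (K_anti hs (by rw [hn1]; exact le_max_right _ _) hw)
  have hLB := LB_Ph hC hK hs hsm hna hb1 h8
  have h𝒰 : ((hyperfilter ℕ : Ultrafilter ℕ) : Filter ℕ) ≤ atTop := Nat.hyperfilter_le_atTop
  obtain ⟨Φ, hΦd, hΦ⟩ := Pool.Agent.Helper114.Konig.locmontel HH_open (Ph F (N + n1))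
    (Ph_diff hs (N + n1)) hLB (hyperfilter ℕ)
  have habel : ∀ w ∈ HH, Φ (F w) = Φ w + 1 := by
    intro w hw
    have h1 := (hΦ _ (F_mem hs hw)).sub (hΦ w hw)
    have h2 := tendsto_nhds_unique h1 ((Ph_F_lim hC hs hsm (N + n1) hw).mono_left h𝒰)
    linear_combination h2
  have hnc : ¬ ∃ c, ∀ z ∈ HH, Φ z = c := by
    rintro ⟨c, hc⟩
    have h1 := habel 1 one_mem
    rw [hc _ (F_mem hs one_mem), hc 1 one_mem] at h1
    simp at h1
  have hNbK : Nb K n1 ⊆ K na := by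
    rintro v ⟨w, hw, hvw⟩
    exact hb1 w hw (by rw [mem_closedBall, dist_eq_norm]; exact hvw.le)
  refine ⟨Φ, hΦd, habel, n1, ?_⟩
  exact inj_lim HH_open HH_convex.isPreconnected (Ph F (N + n1)) (Ph_diff hs (N + n1)) hLB
    (hyperfilter ℕ) hΦd hΦ hnc (Nb_open K n1) (hNbK.trans (hs.sub na))
    (fun i => (Ph_inj hs hna (N + n1) i).mono hNbK)

end Pool.Agent.T6.H4.SG
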