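import Pool.Agent.T6.H4.SG.Stm
import Pool.Agent.H296R2.LE.Basic

/-! # Module ANN (helper71): a two constants lemma in an annulus (MP_ff3f8e_an) -/

set_option autoImplicit false

open Set Metric Filter Topology

noncomputable section

namespace Pool.Agent.T6.H4.SG

namespace ANNx

/-- the Laurent polynomial -/
def S (s : ℤ → ℂ) (J B : ℕ) (μ : ℂ) : ℂ := ∑ j ∈ Finset.Icc (-(J : ℤ)) (B : ℤ), s j * μ ^ (-j)

theorem S_diff (s : ℤ → ℂ) (J B : ℕ) {U : Set ℂ} (hU : ∀ z ∈ U, z ≠ 0) :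
    DifferentiableOn ℂ (S s J B) U := by
  unfold S
  refine DifferentiableOn.fun_sum fun j _ => ?_
  intro z hz
  exact ((differentiableAt_zpow.2 (Or.inl (hU z hz))).const_mul _).differentiableWithinAt

theorem const_coeff (s : ℤ → ℂ) (J B : ℕ) {ρ C : ℝ} (hρ : 0 < ρ)
    (hC : ∀ z ∈ sphere (0 : ℂ) ρ, ‖S s J B z‖ ≤ C) : ‖s 0‖ ≤ C := by
  have hne : ∀ z ∈ sphere (0 : ℂ) ρ, z ≠ 0 := by
    rintro z hz rfl
    rw [mem_sphere, dist_self] at hz
    exact hρ.ne hz
  have h1 : (∮ z in C(0, ρ), z⁻¹ * S s J B z) = 2 * Real.pi * Complex.I * s 0 := by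
    have e : ∀ z ∈ sphere (0 : ℂ) ρ, z⁻¹ * S s J B z =
        ∑ j ∈ Finset.Icc (-(J : ℤ)) (B : ℤ), s j * (z - 0) ^ (-j - 1) := by
      intro z hz
      unfold S
      rw [Finset.mul_sum]
      refine Finset.sum_congr rfl fun j _ => ?_
      rw [sub_zero, zpow_sub_one₀ (hne z hz)]
      ring
    rw [circleIntegral.integral_congr hρ.le e, circleIntegral.integral_fun_sum]
    · rw [Finset.sum_eq_single_of_mem (0 : ℤ)]
      · have e2 : ∀ z : ℂ, s 0 * (z - 0) ^ (-(0 : ℤ) - 1) = s 0 * (z - 0)⁻¹ := by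
          intro z
          rw [neg_zero, zero_sub, zpow_neg_one]
        simp only [e2]
        rw [circleIntegral.integral_const_mul, circleIntegral.integral_sub_center_inv 0 hρ.ne']
        ring
      · rw [Finset.mem_Icc]
        constructor <;> omega
      · intro j _ hj
        rw [circleIntegral.integral_const_mul, circleIntegral.integral_sub_zpow_of_ne (by omega),
          mul_zero]
    · intro j _
      refine ContinuousOn.circleIntegrable hρ.le ?_
      refine ContinuousOn.mul continuousOn_const ?_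
      intro z hz
      refine (ContinuousAt.zpow₀ (by fun_prop) _ (Or.inl ?_)).continuousWithinAt
      rw [sub_zero]
      exact hne z hz
  have h2 : ‖∮ z in C(0, ρ), z⁻¹ * S s J B z‖ ≤ 2 * Real.pi * ρ * (ρ⁻¹ * C) := by
    refine circleIntegral.norm_integral_le_of_norm_le_const hρ.le fun z hz => ?_
    rw [norm_mul, norm_inv]
    have h3 : ‖z‖ = ρ := by
      rw [mem_sphere, dist_zero_right] at hz
      exact hz
    rw [h3]
    exact mul_le_mul_of_nonneg_left (hC z hz) (inv_nonneg.2 hρ.le)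
  rw [h1, norm_mul, norm_mul, norm_mul, Complex.norm_I, Complex.norm_real,
    Real.norm_of_nonneg Real.pi_pos.le, Complex.norm_two, mul_one] at h2
  have h4 : 2 * Real.pi * ρ * (ρ⁻¹ * C) = 2 * Real.pi * C := by
    field_simp
  rw [h4] at h2
  exact le_of_mul_le_mul_left h2 (by positivity)

theorem geom_le {x : ℝ} (h0 : 0 ≤ x) (h1 : x < 1) (n : ℕ) :
    ∑ j ∈ Finset.range n, x ^ j ≤ 1 / (1 - x) := by
  rw [one_div, ← tsum_geometric_of_lt_one h0 h1]
  exact (summable_geometric_of_lt_one h0 h1).sum_le_tsum _ (fun i _ => pow_nonneg h0 i)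

/-- the trivial bound -/
theorem S_bound {l : ℂ} {Cb : ℝ} {B J : ℕ} {s : ℤ → ℂ}
    (h1 : ∀ j : ℕ, j ≤ B → ‖s j‖ ≤ Real.exp Cb * ‖l‖ ^ j)
    (h2 : ∀ j : ℕ, j ≤ J → ‖s (-(j : ℤ))‖ ≤ Real.exp Cb) {μ : ℂ} (hμ0 : 0 < ‖μ‖)
    (hl : ‖l‖ < ‖μ‖) (hμ1 : ‖μ‖ < 1) :
    ‖S s J B μ‖ ≤ Real.exp Cb * (1 / (1 - ‖l‖ / ‖μ‖) + 1 / (1 - ‖μ‖)) := by
  classical
  set g : ℤ → ℝ := fun j => ‖s j * μ ^ (-j)‖ with hg
  have hsub : Finset.Icc (-(J : ℤ)) (B : ℤ) ⊆
      (Finset.range (B + 1)).image (fun j : ℕ => (j : ℤ)) ∪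
      (Finset.range (J + 1)).image (fun j : ℕ => (-(j : ℤ))) := by
    intro j hj
    rw [Finset.mem_Icc] at hj
    rw [Finset.mem_union, Finset.mem_image, Finset.mem_image]
    rcases le_or_gt 0 j with h | h
    · left
      exact ⟨j.toNat, by rw [Finset.mem_range]; omega, by omega⟩
    · right
      exact ⟨(-j).toNat, by rw [Finset.mem_range]; omega, by omega⟩
  have hg0 : ∀ j, 0 ≤ g j := fun j => norm_nonneg _
  calc ‖S s J B μ‖ ≤ ∑ j ∈ Finset.Icc (-(J : ℤ)) (B : ℤ), g j := norm_sum_le _ _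
    _ ≤ ∑ j ∈ (Finset.range (B + 1)).image (fun j : ℕ => (j : ℤ)) ∪
      (Finset.range (J + 1)).image (fun j : ℕ => (-(j : ℤ))), g j :=
        Finset.sum_le_sum_of_subset_of_nonneg hsub (fun _ _ _ => hg0 _)
    _ ≤ ∑ j ∈ (Finset.range (B + 1)).image (fun j : ℕ => (j : ℤ)), g j +
        ∑ j ∈ (Finset.range (J + 1)).image (fun j : ℕ => (-(j : ℤ))), g j := by
        rw [← Finset.sum_union_inter]
        exact le_add_of_nonneg_right (Finset.sum_nonneg fun _ _ => hg0 _)
    _ = ∑ j ∈ Finset.range (B + 1), g j + ∑ j ∈ Finset.range (J + 1), g (-(j : ℤ)) := by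
        rw [Finset.sum_image, Finset.sum_image]
        · intro a _ b _ hab
          simpa using hab
        · intro a _ b _ hab
          simpa using hab
    _ ≤ ∑ j ∈ Finset.range (B + 1), Real.exp Cb * (‖l‖ / ‖μ‖) ^ j +
        ∑ j ∈ Finset.range (J + 1), Real.exp Cb * ‖μ‖ ^ j := by
        refine add_le_add (Finset.sum_le_sum fun j hj => ?_) (Finset.sum_le_sum fun j hj => ?_)
        · have hj' : j ≤ B := by rw [Finset.mem_range] at hj; omega
          rw [hg]
          simp only [norm_mul, norm_zpow]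
          rw [zpow_neg, zpow_natCast, div_pow, ← mul_div_assoc, ← div_eq_mul_inv]
          exact div_le_div_of_nonneg_right (h1 j hj') (pow_nonneg hμ0.le _)
        · have hj' : j ≤ J := by rw [Finset.mem_range] at hj; omega
          rw [hg]
          simp only [norm_mul, neg_neg, zpow_natCast, norm_pow]
          exact mul_le_mul_of_nonneg_right (h2 j hj') (pow_nonneg hμ0.le _)
    _ ≤ Real.exp Cb * (1 / (1 - ‖l‖ / ‖μ‖) + 1 / (1 - ‖μ‖)) := by
        rw [← Finset.mul_sum, ← Finset.mul_sum, ← mul_add]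
        refine mul_le_mul_of_nonneg_left (add_le_add ?_ ?_) (Real.exp_pos _).le
        · exact geom_le (by positivity) (by rwa [div_lt_one hμ0]) _
        · exact geom_le hμ0.le hμ1 _

theorem step_pow {M b θ : ℝ} {B : ℕ} (hM : 0 < M) (hb : 0 < b) :
    (M * b ^ B) ^ (1 - θ) * M ^ θ = M * (b ^ (1 - θ)) ^ B := by
  rw [Real.mul_rpow hM.le (pow_nonneg hb.le _), mul_right_comm, ← Real.rpow_add hM,
    sub_add_cancel, Real.rpow_one, ← Real.rpow_natCast b B, ← Real.rpow_mul hb.le,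
    ← Real.rpow_natCast (b ^ (1 - θ)) B, ← Real.rpow_mul hb.le, mul_comm (B : ℝ) (1 - θ)]

end ANNx

open ANNx in
theorem t_ANN : S_ANN := by
  intro l r0 hl0 hl1 hr0
  obtain ⟨ρ, hρ1, hρ2⟩ := exists_between (lt_min hl1 (lt_add_of_pos_right ‖l‖ hr0))
  have hρ3 : ρ < 1 := lt_of_lt_of_le hρ2 (min_le_left _ _)
  have hρ4 : ρ < ‖l‖ + r0 := lt_of_lt_of_le hρ2 (min_le_right _ _)
  have hρ0 : 0 < ρ := hl0.trans hρ1
  obtain ⟨d, hd0, hd1, hd2, hd3⟩ : ∃ d : ℝ, 0 < d ∧ 3 * d ≤ (ρ - ‖l‖) / 2 ∧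
      3 * d ≤ (1 - ρ) / 2 ∧ d ≤ (r0 - (ρ - ‖l‖)) / 2 := by
    refine ⟨min (min ((ρ - ‖l‖) / 6) ((1 - ρ) / 6)) ((r0 - (ρ - ‖l‖)) / 2), ?_, ?_, ?_, ?_⟩
    · refine lt_min (lt_min ?_ ?_) ?_ <;> linarith
    · have := (min_le_left (min ((ρ - ‖l‖) / 6) ((1 - ρ) / 6)) ((r0 - (ρ - ‖l‖)) / 2)).trans
        (min_le_left _ _)
      linarith
    · have := (min_le_left (min ((ρ - ‖l‖) / 6) ((1 - ρ) / 6)) ((r0 - (ρ - ‖l‖)) / 2)).trans
        (min_le_right _ _)
      linarith
    · exact min_le_right _ _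
  set a1 := (ρ + ‖l‖) / 2 with ha1
  set a2 := (1 + ρ) / 2 with ha2
  have ha10 : 0 < a1 := by rw [ha1]; linarith
  have hla1 : ‖l‖ < a1 := by rw [ha1]; linarith
  have ha21 : a2 < 1 := by rw [ha2]; linarith
  have ha20 : 0 < a2 := by rw [ha2]; linarith
  set β := max (‖l‖ / a1) a2 with hβ
  have hβ0 : 0 < β := lt_max_of_lt_right ha20
  have hβ1 : β < 1 := max_lt (by rwa [div_lt_one ha10]) ha21
  set C1 := 1 / (1 - ‖l‖ / a1) + 1 / (1 - a2) with hC1
  have hq1 : ‖l‖ / a1 < 1 := by rwa [div_lt_one ha10]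
  have hq0 : 0 < ‖l‖ / a1 := div_pos hl0 ha10
  have hC12 : 2 ≤ C1 := by
    have h1 : 1 ≤ 1 / (1 - ‖l‖ / a1) := by
      rw [le_div_iff₀ (by linarith)]; linarith
    have h2 : 1 ≤ 1 / (1 - a2) := by
      rw [le_div_iff₀ (by linarith)]; linarith
    rw [hC1]; linarith
  obtain ⟨θ, hθ0, hθ1, h3c⟩ := Pool.Agent.H296R2.LE.three_circles (r := d) (ρ := 2 * d) (R := 3 * d)
    hd0 (by linarith) (by linarith)
  obtain ⟨n, hn⟩ := exists_nat_gt (Real.pi / d)
  have hn0 : (0 : ℝ) < n := lt_of_le_of_lt (by positivity) hn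
  have hnd : Real.pi / n ≤ d := by
    rw [div_lt_iff₀ hd0] at hn
    rw [div_le_iff₀ hn0]
    linarith
  set ε := β ^ ((1 - θ) ^ n) with hε
  have hε0 : 0 < ε := Real.rpow_pos_of_pos hβ0 _
  have hε1 : ε < 1 := Real.rpow_lt_one hβ0.le hβ1 (pow_pos (by linarith) _)
  have hlog : 0 < -Real.log ε := neg_pos.2 (Real.log_neg hε0 hε1)
  refine ⟨(1 + |Real.log C1|) / (-Real.log ε), by positivity, ?_⟩
  intro Cb B J s hCb hBJ hs0 h1 h2 h3
  set M := C1 * Real.exp Cb with hM
  have hM0 : 0 < M := by positivity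
  -- the trivial bound near the circle
  have hann : ∀ z : ℂ, a1 ≤ ‖z‖ → ‖z‖ ≤ a2 → ‖S s J B z‖ ≤ M := by
    intro z hz1 hz2
    have hz0 : 0 < ‖z‖ := lt_of_lt_of_le ha10 hz1
    refine (S_bound h1 h2 hz0 (lt_of_lt_of_le hla1 hz1) (lt_of_le_of_lt hz2 ha21)).trans ?_
    rw [hM, mul_comm C1]
    refine mul_le_mul_of_nonneg_left ?_ (Real.exp_pos _).le
    rw [hC1]
    refine add_le_add ?_ ?_
    · refine one_div_le_one_div_of_le (by linarith) ?_
      have : ‖l‖ / ‖z‖ ≤ ‖l‖ / a1 := div_le_div_of_nonneg_left hl0.le ha10 hz1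
      linarith
    · exact one_div_le_one_div_of_le (by linarith) (by linarith)
  have hnear : ∀ c z : ℂ, ‖c‖ = ρ → ‖z - c‖ ≤ 3 * d → a1 ≤ ‖z‖ ∧ ‖z‖ ≤ a2 := by
    intro c z hc hz
    have h4 : ‖c‖ ≤ ‖z‖ + ‖z - c‖ := by
      have := norm_sub_norm_le c z
      rw [norm_sub_rev] at this
      linarith
    have h5 : ‖z‖ ≤ ‖c‖ + ‖z - c‖ := by
      have := norm_sub_norm_le z c
      linarith
    rw [hc] at h4 h5
    rw [ha1, ha2]
    constructor <;> linarith
  set μ0 : ℂ := (ρ / ‖l‖ : ℝ) * l with hμ0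
  have hμ0n : ‖μ0‖ = ρ := by
    rw [hμ0, norm_mul, Complex.norm_real, Real.norm_of_nonneg (by positivity)]
    field_simp
  have hμ0l : ‖μ0 - l‖ = ρ - ‖l‖ := by
    have : μ0 - l = ((ρ / ‖l‖ - 1 : ℝ) : ℂ) * l := by
      rw [hμ0]; push_cast; ring
    rw [this, norm_mul, Complex.norm_real, Real.norm_of_nonneg]
    · field_simp
    · rw [sub_nonneg, le_div_iff₀ hl0]; linarith
  have hmain : ∀ z ∈ sphere (0 : ℂ) ρ, ‖S s J B z‖ ≤ M * ε ^ B := by
    intro z hz
    have hzn : ‖z‖ = ρ := by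
      rw [mem_sphere, dist_zero_right] at hz
      exact hz
    set φ := Complex.arg (z / μ0) with hφ
    have hμne : μ0 ≠ 0 := by
      rw [← norm_pos_iff, hμ0n]; exact hρ0
    have hzφ : z = μ0 * Complex.exp (Complex.I * φ) := by
      have h4 := Complex.norm_mul_exp_arg_mul_I (z / μ0)
      rw [norm_div, hzn, hμ0n, div_self hρ0.ne', Complex.ofReal_one, one_mul, ← hφ] at h4
      rw [mul_comm Complex.I, h4]
      field_simp
    set c : ℕ → ℂ := fun k => μ0 * Complex.exp (Complex.I * ((φ * k / n : ℝ) : ℂ)) with hc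
    have hcn : ∀ k, ‖c k‖ = ρ := by
      intro k
      rw [hc]
      simp only [norm_mul]
      rw [hμ0n, mul_comm Complex.I, Complex.norm_exp_ofReal_mul_I, mul_one]
    have hcstep : ∀ k, ‖c (k + 1) - c k‖ ≤ d := by
      intro k
      have e : c (k + 1) - c k = c k * (Complex.exp (Complex.I * ((φ / n : ℝ) : ℂ)) - 1) := by
        have hexp : Complex.exp (Complex.I * ((φ * (k + 1 : ℕ) / n : ℝ) : ℂ)) =
            Complex.exp (Complex.I * ((φ * k / n : ℝ) : ℂ)) *
              Complex.exp (Complex.I * ((φ / n : ℝ) : ℂ)) := by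
          rw [← Complex.exp_add, ← mul_add, ← Complex.ofReal_add]
          congr 3
          push_cast
          ring
        rw [hc]
        simp only
        rw [hexp]
        ring
      rw [e, norm_mul, hcn]
      have h4 := Real.norm_exp_I_mul_ofReal_sub_one_le (x := φ / n)
      have h5 : ‖φ / n‖ ≤ d := by
        rw [norm_div, Real.norm_natCast, Real.norm_eq_abs]
        refine le_trans ?_ hnd
        exact div_le_div_of_nonneg_right (Complex.abs_arg_le_pi _) hn0.le
      calc ρ * ‖Complex.exp (Complex.I * ((φ / n : ℝ) : ℂ)) - 1‖ ≤ 1 * d := by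
            refine mul_le_mul hρ3.le (h4.trans h5) (norm_nonneg _) zero_le_one
        _ = d := one_mul _
    have hind : ∀ k : ℕ, ∀ w ∈ closedBall (c k) d, ‖S s J B w‖ ≤ M * (β ^ ((1 - θ) ^ k)) ^ B := by
      intro k
      induction k with
      | zero =>
        intro w hw
        have hc0 : c 0 = μ0 := by
          rw [hc]
          simp
        rw [hc0, mem_closedBall, dist_eq_norm] at hw
        obtain ⟨h4, h5⟩ := hnear μ0 w hμ0n (by linarith)
        have hw0 : 0 < ‖w‖ := lt_of_lt_of_le ha10 h4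
        have hwl : w ∈ ball l r0 := by
          rw [mem_ball, dist_eq_norm]
          have : w - l = (w - μ0) + (μ0 - l) := by ring
          rw [this]
          have h6 := norm_add_le (w - μ0) (μ0 - l)
          rw [hμ0l] at h6
          linarith
        have h6 := h3 w hwl (lt_of_lt_of_le hla1 h4) (lt_of_le_of_lt h5 ha21)
        rw [pow_zero, Real.rpow_one]
        refine h6.trans ?_
        have h7 : (‖l‖ / ‖w‖) ^ B ≤ β ^ B := by
          refine pow_le_pow_left₀ (by positivity) ?_ B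
          exact (div_le_div_of_nonneg_left hl0.le ha10 h4).trans (le_max_left _ _)
        have h8 : ‖w‖ ^ J ≤ β ^ B := by
          calc ‖w‖ ^ J ≤ ‖w‖ ^ B :=
                pow_le_pow_of_le_one hw0.le (h5.trans ha21.le) hBJ
            _ ≤ β ^ B := pow_le_pow_left₀ hw0.le (h5.trans (le_max_right _ _)) B
        have h9 : 0 ≤ β ^ B := pow_nonneg hβ0.le _
        have h10 : 0 < Real.exp Cb := Real.exp_pos _
        calc Real.exp Cb * ((‖l‖ / ‖w‖) ^ B + ‖w‖ ^ J) ≤ Real.exp Cb * (2 * β ^ B) :=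
              mul_le_mul_of_nonneg_left (by linarith) h10.le
          _ ≤ Real.exp Cb * (C1 * β ^ B) :=
              mul_le_mul_of_nonneg_left (mul_le_mul_of_nonneg_right hC12 h9) h10.le
          _ = M * β ^ B := by rw [hM]; ring
      | succ k ih =>
        intro w hw
        have hb0 : 0 < β ^ ((1 - θ) ^ k) := Real.rpow_pos_of_pos hβ0 _
        have hb1 : β ^ ((1 - θ) ^ k) ≤ 1 :=
          Real.rpow_le_one hβ0.le hβ1.le (pow_nonneg (by linarith) _)
        have h4 := h3c (S s J B) (c k) (M * (β ^ ((1 - θ) ^ k)) ^ B) M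
          (by positivity) (mul_le_of_le_one_right hM0.le (pow_le_one₀ hb0.le hb1))
          (S_diff s J B fun z hz => by
            rw [mem_ball, dist_eq_norm] at hz
            have h5 := (hnear (c k) z (hcn k) hz.le).1
            rw [← norm_pos_iff]
            linarith) ih
          (fun z hz => by
            rw [mem_ball, dist_eq_norm] at hz
            obtain ⟨h5, h6⟩ := hnear (c k) z (hcn k) hz.le
            exact hann z h5 h6) w (by
            rw [mem_closedBall, dist_eq_norm] at hw ⊢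
            have : w - c k = (w - c (k + 1)) + (c (k + 1) - c k) := by ring
            rw [this]
            have h6 := norm_add_le (w - c (k + 1)) (c (k + 1) - c k)
            have h7 := hcstep k
            linarith)
        rw [step_pow hM0 hb0, ← Real.rpow_mul hβ0.le, ← pow_succ] at h4
        exact h4
    have hcnz : c n = z := by
      rw [hc, hzφ]
      simp only
      congr 3
      rw [mul_div_assoc, div_self hn0.ne', mul_one]
    have := hind n z (by rw [hcnz]; exact mem_closedBall_self hd0.le)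
    exact this
  have hfin := const_coeff s J B hρ0 hmain
  rw [hs0] at hfin
  have hlogM : 0 ≤ Real.log C1 + Cb + B * Real.log ε := by
    have h4 := Real.log_le_log one_pos hfin
    rw [Real.log_one, Real.log_mul hM0.ne' (pow_pos hε0 _).ne', Real.log_pow, hM,
      Real.log_mul (by linarith) (Real.exp_pos _).ne', Real.log_exp] at h4
    exact h4
  rw [div_mul_eq_mul_div, le_div_iff₀ hlog]
  have h5 : Real.log C1 ≤ |Real.log C1| := le_abs_self _
  have h6 : 0 ≤ |Real.log C1| * Cb := mul_nonneg (abs_nonneg _) hCb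
  nlinarith

end Pool.Agent.T6.H4.SG
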