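import Pool.Agent.T6.H4.SG.Stm

/-! # Module CHAR (MP_ff3f8e_an): characters of operator semigroups -/

open Set Metric Filter Topology

noncomputable section

namespace Pool.Agent.T6.H4.SG

namespace CHARx

theorem exists_char {A : Type} [NormedRing A] [NormedAlgebra ℂ A] [CompleteSpace A]
    [NormOneClass A] (T : A) (C : Set A) (hT : T ∈ C) (hC : ∀ x ∈ C, ∀ y ∈ C, x * y = y * x)
    (l : ℂ) (hl : l ∈ spectrum ℂ T) :
    ∃ (B : Subalgebra ℂ A) (f : A →L[ℂ] ℂ), C ⊆ B ∧ f T = l ∧ f 1 = 1 ∧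
      (∀ x ∈ B, ∀ y ∈ B, f (x * y) = f x * f y) ∧ ∀ x ∈ B, ‖f x‖ ≤ ‖x‖ := by
  classical
  set B : Subalgebra ℂ A := Subalgebra.centralizer ℂ (C.centralizer) with hB
  have hBC : (B : Set A) = C.centralizer.centralizer := by
    rw [hB, Subalgebra.coe_centralizer]
  have hCB : C ⊆ B := by
    rw [hBC]
    exact Set.subset_centralizer_centralizer
  have hcl : IsClosed (B : Set A) := by
    rw [hBC]
    exact Set.isClosed_centralizer _
  have hcomm : ∀ x y : B, x * y = y * x := by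
    intro x y
    apply Subtype.ext
    refine Set.centralizer_centralizer_comm_of_comm hC x.1 ?_ y.1 ?_
    · rw [← hBC]; exact x.2
    · rw [← hBC]; exact y.2
  let iB : NormedCommRing B := { (inferInstance : NormedRing B) with mul_comm := hcomm }
  let iA : NormedAlgebra ℂ B := Subalgebra.toNormedAlgebra B
  have iC : CompleteSpace B := hcl.completeSpace_coe
  have iN : NormOneClass B := ⟨norm_one (α := A)⟩
  have hlB : l ∈ spectrum ℂ (⟨T, hCB hT⟩ : B) := by
    have := spectrum.subset_subalgebra (⟨T, hCB hT⟩ : B)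
    exact this hl
  obtain ⟨χ, hχ⟩ := WeakDual.CharacterSpace.mem_spectrum_iff_exists.1 hlB
  have hbd : ∀ x : B, ‖χ x‖ ≤ ‖(x : A)‖ := fun x => by
    have h : ‖χ x‖ ≤ ‖x‖ :=
      spectrum.norm_le_norm_of_mem (WeakDual.CharacterSpace.apply_mem_spectrum χ x)
    exact h
  let p : Submodule ℂ A := Subalgebra.toSubmodule B
  let f0 : p →ₗ[ℂ] ℂ :=
    { toFun := fun x => χ (⟨x.1, x.2⟩ : B)
      map_add' := fun x y => map_add χ (⟨x.1, x.2⟩ : B) ⟨y.1, y.2⟩
      map_smul' := fun c x => map_smul χ c (⟨x.1, x.2⟩ : B) }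
  let f1 : p →L[ℂ] ℂ := f0.mkContinuous 1 fun x => by
    rw [one_mul]
    exact hbd ⟨x.1, x.2⟩
  obtain ⟨g, hg, -⟩ := exists_extension_norm_eq p f1
  have hgχ : ∀ x : B, g (x : A) = χ x := fun x => hg ⟨x.1, x.2⟩
  refine ⟨B, g, hCB, ?_, ?_, ?_, ?_⟩
  · rw [← hχ]
    exact hgχ ⟨T, hCB hT⟩
  · have := hgχ 1
    rw [map_one] at this
    exact this
  · intro x hx y hy
    have h1 := hgχ (⟨x, hx⟩ * ⟨y, hy⟩)
    rw [map_mul, ← hgχ, ← hgχ] at h1
    exact h1
  · intro x hx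
    rw [show g x = χ ⟨x, hx⟩ from hgχ ⟨x, hx⟩]
    exact hbd ⟨x, hx⟩

/-- A bounded multiplicative function on a semigroup of complex numbers which contains a disc is an
exponential function. -/
theorem exp_of_semigroup (S : Set ℂ) (e : ℂ → ℂ) (m : ℕ) (l : ℂ) (hl : l ≠ 0)
    (h0 : (0 : ℂ) ∈ S) (h1 : (1 : ℂ) ∈ S) (hadd : ∀ s ∈ S, ∀ t ∈ S, s + t ∈ S)
    (hb : closedBall (m : ℂ) 1 ⊆ S) (he0 : e 0 = 1) (he1 : e 1 = l)
    (hmul : ∀ s ∈ S, ∀ t ∈ S, e s * e t = e (s + t)) (K : ℝ) (hK : ∀ s ∈ S, ‖e s‖ ≤ K)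
    (hd : DifferentiableOn ℂ e (ball (m : ℂ) 1)) :
    ∃ ζ : ℂ, Complex.exp (-ζ) = l ∧ ∀ s ∈ S, 0 ≤ (ζ * s).re := by
  have hks : ∀ (k : ℕ), ∀ s ∈ S, (k : ℂ) * s ∈ S ∧ e ((k : ℂ) * s) = e s ^ k := by
    intro k s hs
    induction k with
    | zero => simp [h0, he0]
    | succ k ih =>
      have h2 : ((k + 1 : ℕ) : ℂ) * s = (k : ℂ) * s + s := by
        push_cast
        ring
      rw [h2]
      refine ⟨hadd _ ih.1 _ hs, ?_⟩
      rw [← hmul _ ih.1 _ hs, ih.2, pow_succ]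
  have hle : ∀ s ∈ S, ‖e s‖ ≤ 1 := by
    intro s hs
    by_contra hcon
    push Not at hcon
    obtain ⟨k, hk⟩ := pow_unbounded_of_one_lt K hcon
    have h2 := hK _ (hks k s hs).1
    rw [(hks k s hs).2, norm_pow] at h2
    linarith
  have hdiv : ∀ (k : ℕ), 1 ≤ k → ∀ u : ℂ, (k : ℂ) * (u / k) = u ∧
      ‖u / (k : ℂ) - m‖ = ‖u - (k : ℂ) * m‖ / k := by
    intro k hk u
    have hk0 : (k : ℂ) ≠ 0 := by
      have : k ≠ 0 := by omega
      exact_mod_cast this
    refine ⟨by field_simp, ?_⟩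
    have h2 : u / (k : ℂ) - m = (u - (k : ℂ) * m) / k := by
      field_simp
    rw [h2, norm_div, Complex.norm_natCast]
  have hball : ∀ (k : ℕ), 1 ≤ k → ∀ u : ℂ, ‖u - (k : ℂ) * m‖ ≤ k → u ∈ S := by
    intro k hk u hu
    obtain ⟨h2, h3⟩ := hdiv k hk u
    have hk0 : (0 : ℝ) < k := by exact_mod_cast hk
    have h4 : u / (k : ℂ) ∈ S := by
      apply hb
      rw [mem_closedBall, dist_eq_norm, h3, div_le_one hk0]
      exact hu
    rw [← h2]
    exact (hks k _ h4).1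
  have hkm : ∀ k : ℕ, ((k : ℂ) * m) ∈ S ∧ e ((k : ℂ) * m) = l ^ (k * m) := by
    intro k
    have h2 := hks (k * m) 1 h1
    rw [he1, mul_one] at h2
    push_cast at h2
    exact h2
  have hne : ∀ s ∈ S, e s ≠ 0 := by
    intro s hs h2
    obtain ⟨k, hk⟩ := exists_nat_ge ‖s‖
    have hk1 : ‖s‖ ≤ ((k + 1 : ℕ) : ℝ) := by
      push_cast
      linarith
    have h3 : ((k + 1 : ℕ) : ℂ) * m - s ∈ S := by
      refine hball (k + 1) (by omega) _ ?_
      have : ((k + 1 : ℕ) : ℂ) * m - s - ((k + 1 : ℕ) : ℂ) * m = - s := by ring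
      rw [this, norm_neg]
      exact hk1
    have h4 := hmul s hs _ h3
    rw [h2, zero_mul, add_sub_cancel, (hkm (k + 1)).2] at h4
    exact pow_ne_zero _ hl h4.symm
  have hBS : ∀ s ∈ ball (m : ℂ) 1, s ∈ S := fun s hs => hb (ball_subset_closedBall hs)
  have hda : ∀ s ∈ ball (m : ℂ) 1, HasDerivAt e (deriv e s) s := fun s hs =>
    ((hd s hs).differentiableAt (isOpen_ball.mem_nhds hs)).hasDerivAt
  have hder : ∀ s ∈ ball (m : ℂ) 1, ∀ t ∈ ball (m : ℂ) 1,
      HasDerivAt e (deriv e s * e t) (s + t) := by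
    intro s hs t ht
    have h2 : HasDerivAt (fun u => e (u - t)) (deriv e s) (s + t) := by
      refine HasDerivAt.comp_sub_const (s + t) t ?_
      rw [add_sub_cancel_right]
      exact hda s hs
    have h3 := h2.mul_const (e t)
    refine h3.congr_of_eventuallyEq ?_
    have h4 : ∀ᶠ u in 𝓝 (s + t), u - t ∈ ball (m : ℂ) 1 := by
      have h5 : Tendsto (fun u : ℂ => u - t) (𝓝 (s + t)) (𝓝 s) := by
        have h6 : Continuous fun u : ℂ => u - t := by fun_prop
        have h7 := h6.tendsto (s + t)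
        rwa [add_sub_cancel_right] at h7
      exact h5.eventually (isOpen_ball.mem_nhds hs)
    filter_upwards [h4] with u hu
    rw [hmul _ (hBS _ hu) _ (hBS _ ht), sub_add_cancel]
  have hm : (m : ℂ) ∈ ball (m : ℂ) 1 := mem_ball_self one_pos
  set ζ : ℂ := - (deriv e m / e m) with hζ
  have hem : e m ≠ 0 := hne _ (hBS _ hm)
  have hode : ∀ s ∈ ball (m : ℂ) 1, deriv e s = - ζ * e s := by
    intro s hs
    have h2 := (hder s hs m hm).unique (by
      rw [add_comm]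
      exact hder m hm s hs)
    rw [hζ]
    field_simp
    exact h2
  obtain ⟨c, hc⟩ : ∃ c : ℂ, ∀ s ∈ ball (m : ℂ) 1, e s = c * Complex.exp (-(ζ * s)) := by
    refine ⟨e m * Complex.exp (ζ * m), fun s hs => ?_⟩
    have h2 : ∀ u ∈ ball (m : ℂ) 1, HasDerivAt (fun u => e u * Complex.exp (ζ * u)) 0 u := by
      intro u hu
      have h3 : HasDerivAt (fun u : ℂ => Complex.exp (ζ * u)) (Complex.exp (ζ * u) * ζ) u := by
        have h4 : HasDerivAt (fun u : ℂ => ζ * u) ζ u := by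
          simpa using (hasDerivAt_id u).const_mul ζ
        exact h4.cexp
      have h4 := (hda u hu).mul h3
      have h5 : deriv e u * Complex.exp (ζ * u) + e u * (Complex.exp (ζ * u) * ζ) = 0 := by
        rw [hode u hu]
        ring
      rw [h5] at h4
      exact h4
    have h3 : e s * Complex.exp (ζ * s) = e m * Complex.exp (ζ * m) := by
      refine isOpen_ball.is_const_of_deriv_eq_zero (convex_ball _ _).isPreconnected
        (f := fun u => e u * Complex.exp (ζ * u)) ?_ ?_ hs hm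
      · exact fun u hu => (h2 u hu).differentiableAt.differentiableWithinAt
      · exact fun u hu => (h2 u hu).deriv
    rw [← h3, mul_assoc, ← Complex.exp_add, add_neg_cancel, Complex.exp_zero, mul_one]
  have hck : ∀ (k : ℕ), 1 ≤ k → ∀ s : ℂ, ‖s - (k : ℂ) * m‖ < k →
      e s = c ^ k * Complex.exp (-(ζ * s)) := by
    intro k hk s hs
    obtain ⟨h2, h3⟩ := hdiv k hk s
    have hk0 : (0 : ℝ) < k := by exact_mod_cast hk
    have h4 : s / (k : ℂ) ∈ ball (m : ℂ) 1 := by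
      rw [mem_ball, dist_eq_norm, h3, div_lt_one hk0]
      exact hs
    have h5 := (hks k _ (hBS _ h4)).2
    rw [h2, hc _ h4, mul_pow, ← Complex.exp_nat_mul] at h5
    rw [h5]
    congr 2
    have : (k : ℂ) * -(ζ * (s / k)) = -(ζ * (k * (s / k))) := by ring
    rw [this, h2]
  have hc1 : c = 1 := by
    have h2 := hck (m + 1) (by omega) (((m + 1 : ℕ) : ℂ) * m) (by
      rw [sub_self, norm_zero]
      positivity)
    have h3 := hck (m + 2) (by omega) (((m + 1 : ℕ) : ℂ) * m) (by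
      have : ((m + 1 : ℕ) : ℂ) * m - ((m + 2 : ℕ) : ℂ) * m = -(m : ℂ) := by
        push_cast
        ring
      rw [this, norm_neg, Complex.norm_natCast]
      push_cast
      linarith)
    rw [h2, pow_succ c (m + 1), mul_assoc] at h3
    have h4 : c ^ (m + 1) ≠ 0 := by
      intro h5
      rw [h5, zero_mul] at h2
      exact hne _ (hkm (m + 1)).1 h2
    have h5 := mul_left_cancel₀ h4 h3
    have h6 := mul_right_cancel₀ (b := Complex.exp (-(ζ * (((m + 1 : ℕ) : ℂ) * m))))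
      (Complex.exp_ne_zero _) (a := (1 : ℂ)) (c := c) (by rw [one_mul]; exact h5)
    exact h6.symm
  have hexp : ∀ s ∈ S, e s = Complex.exp (-(ζ * s)) := by
    intro s hs
    obtain ⟨k, hk⟩ := exists_nat_ge ‖s‖
    have hk1 : ‖s‖ < ((k + 1 : ℕ) : ℝ) := by
      push_cast
      linarith
    have h2 := hck (k + 1) (by omega) (((k + 1 : ℕ) : ℂ) * m) (by
      rw [sub_self, norm_zero]
      positivity)
    have h3 := hck (k + 1) (by omega) (s + ((k + 1 : ℕ) : ℂ) * m) (by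
      rw [add_sub_cancel_right]
      exact hk1)
    rw [hc1, one_pow, one_mul] at h2 h3
    rw [← hmul s hs _ (hkm (k + 1)).1, h2, mul_add, neg_add, Complex.exp_add] at h3
    exact mul_right_cancel₀ (Complex.exp_ne_zero _) h3
  refine ⟨ζ, ?_, fun s hs => ?_⟩
  · rw [← he1, hexp 1 h1, mul_one]
  · have h2 := hle s hs
    rw [hexp s hs, Complex.norm_exp, Real.exp_le_one_iff, Complex.neg_re] at h2
    linarith

end CHARx

open CHARx

theorem t_CHAR : S_CHAR := by
  intro A _ _ _ _ T S TT n m h0 h1 hadd hb hle hmul hT hT0 hd l hl hl0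
  set C : Set A := insert T (TT '' S) with hC
  have hcomm : ∀ x ∈ C, ∀ y ∈ C, x * y = y * x := by
    rintro x (rfl | ⟨s, hs, rfl⟩) y (rfl | ⟨t, ht, rfl⟩)
    · rfl
    · rw [(hT t ht).1, (hT t ht).2]
    · rw [(hT s hs).1, (hT s hs).2]
    · rw [hmul s hs t ht, hmul t ht s hs, add_comm]
  obtain ⟨B, f, hCB, hfT, hf1, hfm, hfn⟩ := exists_char T C (mem_insert _ _) hcomm l hl
  have hTB : T ∈ B := hCB (mem_insert _ _)
  have hSB : ∀ s ∈ S, TT s ∈ B := fun s hs => hCB (mem_insert_of_mem _ ⟨s, hs, rfl⟩)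
  have hfp : ∀ k : ℕ, f (T ^ k) = l ^ k := by
    intro k
    induction k with
    | zero => rw [pow_zero, pow_zero, hf1]
    | succ k ih => rw [pow_succ, hfm _ (pow_mem hTB k) _ hTB, ih, hfT, pow_succ]
  have hln : l ^ n ≠ 0 := pow_ne_zero _ hl0
  refine exp_of_semigroup S (fun s => f (TT s) / l ^ n) m l hl0 h0 h1 hadd hb ?_ ?_ ?_
    (1 / ‖l ^ n‖) ?_ ?_
  · show f (TT 0) / l ^ n = 1
    rw [hT0, hfp, div_self hln]
  · show f (TT 1) / l ^ n = l
    have h2 : TT 1 = TT 0 * T := by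
      rw [(hT 0 h0).1, zero_add]
    rw [h2, hfm _ (hSB 0 h0) _ hTB, hT0, hfp, hfT, mul_div_assoc, mul_comm, div_mul_cancel₀ _ hln]
  · intro s hs t ht
    show f (TT s) / l ^ n * (f (TT t) / l ^ n) = f (TT (s + t)) / l ^ n
    have h2 := hfm _ (hSB s hs) _ (hSB t ht)
    rw [hmul s hs t ht, hfm _ (pow_mem hTB n) _ (hSB _ (hadd s hs t ht)), hfp] at h2
    rw [div_mul_div_comm, ← h2, mul_comm (l ^ n) (f _), mul_div_mul_right _ _ hln]
  · intro s hs
    show ‖f (TT s) / l ^ n‖ ≤ 1 / ‖l ^ n‖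
    rw [norm_div]
    exact div_le_div_of_nonneg_right ((hfn _ (hSB s hs)).trans (hle s hs)) (norm_nonneg _)
  · exact (f.differentiable.comp_differentiableOn hd).div_const _

end Pool.Agent.T6.H4.SG
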