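import Pool.Agent.T6.H4.SG.Stm

/-! # Module FUN (MP_ff3f8e_an): cut off exponentials -/

open Set Metric Filter Topology MeasureTheory

noncomputable section

namespace Pool.Agent.T6.H4.SG.FUNx


/-- Cauchy type integrals are holomorphic off the curve. -/
lemma cauchy_diff (φ γ : ℝ → ℂ) (hφ : Continuous φ) (hγ : Continuous γ) (a b : ℝ) :
    DifferentiableOn ℂ (fun z => ∫ t in a..b, φ t / (γ t - z)) (γ '' (uIcc a b))ᶜ := by
  intro z0 hz0
  have hc : IsCompact (γ '' (uIcc a b)) := isCompact_uIcc.image hγ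
  have hne : (γ '' (uIcc a b)).Nonempty := ⟨γ a, a, left_mem_uIcc, rfl⟩
  have hδ : 0 < infDist z0 (γ '' (uIcc a b)) := (hc.isClosed.notMem_iff_infDist_pos hne).1 hz0
  set δ := infDist z0 (γ '' (uIcc a b)) with hδd
  obtain ⟨M, hM⟩ : ∃ M, ∀ t ∈ uIcc a b, ‖φ t‖ ≤ M :=
    isCompact_uIcc.exists_bound_of_continuousOn hφ.continuousOn
  have hlow : ∀ z ∈ ball z0 (δ/2), ∀ t ∈ uIcc a b, δ/2 ≤ ‖γ t - z‖ := by
    intro z hz t ht
    have h1 : δ ≤ dist z0 (γ t) := infDist_le_dist_of_mem ⟨t, ht, rfl⟩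
    have h2 : dist z0 (γ t) ≤ dist z0 z + dist z (γ t) := dist_triangle _ _ _
    rw [mem_ball, dist_comm] at hz
    rw [← dist_eq_norm, dist_comm]
    linarith
  have hM0 : 0 ≤ M := (norm_nonneg _).trans (hM a left_mem_uIcc)
  have hmeas : ∀ z : ℂ, Measurable (fun t : ℝ => φ t / (γ t - z)) := fun z =>
    hφ.measurable.div (hγ.measurable.sub measurable_const)
  have hne0 : ∀ z ∈ ball z0 (δ/2), ∀ t ∈ uIcc a b, γ t - z ≠ 0 := by
    intro z hz t ht h0
    have := hlow z hz t ht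
    rw [h0, norm_zero] at this
    linarith
  have hz00 : z0 ∈ ball z0 (δ/2) := mem_ball_self (by linarith)
  have key := intervalIntegral.hasDerivAt_integral_of_dominated_loc_of_deriv_le (μ := volume)
    (F := fun z t => φ t / (γ t - z)) (F' := fun z t => φ t / (γ t - z)^2) (x₀ := z0)
    (s := ball z0 (δ/2)) (bound := fun _ => M/(δ/2)^2) (a := a) (b := b)
    (ball_mem_nhds _ (by linarith))
    (Eventually.of_forall fun z => (hmeas z).aestronglyMeasurable)
    (by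
      apply ContinuousOn.intervalIntegrable
      exact hφ.continuousOn.div (hγ.continuousOn.sub continuousOn_const)
        (fun t ht => hne0 z0 hz00 t ht))
    ((hφ.measurable.div ((hγ.measurable.sub measurable_const).pow_const 2)).aestronglyMeasurable)
    (by
      refine Eventually.of_forall fun t ht z hz => ?_
      have ht' := uIoc_subset_uIcc ht
      rw [norm_div, norm_pow]
      have := hlow z hz t ht'
      gcongr
      exact hM t ht')
    (by simp)
    (by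
      refine Eventually.of_forall fun t ht z hz => ?_
      have ht' := uIoc_subset_uIcc ht
      have h0 := hne0 z hz t ht'
      have h1 : HasDerivAt (fun z : ℂ => γ t - z) (-1) z := by
        simpa using (hasDerivAt_id z).const_sub (γ t)
      have h2 := (hasDerivAt_const z (φ t)).div h1 h0
      have h3 : (0 * (γ t - z) - φ t * (-1)) / (γ t - z)^2 = φ t / (γ t - z)^2 := by ring
      rw [h3] at h2
      exact h2)
  exact key.2.differentiableAt.differentiableWithinAt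

/-- Cauchy type integrals vanish at infinity. -/
lemma cauchy_van (φ γ : ℝ → ℂ) (hφ : Continuous φ) (hγ : Continuous γ) (a b : ℝ) (ε : ℝ)
    (hε : 0 < ε) : ∃ R : ℝ, ∀ z : ℂ, R ≤ ‖z‖ → ‖∫ t in a..b, φ t / (γ t - z)‖ ≤ ε := by
  obtain ⟨M, hM⟩ : ∃ M, ∀ t ∈ uIcc a b, ‖φ t‖ ≤ M :=
    isCompact_uIcc.exists_bound_of_continuousOn hφ.continuousOn
  obtain ⟨B, hB⟩ : ∃ B, ∀ t ∈ uIcc a b, ‖γ t‖ ≤ B :=
    isCompact_uIcc.exists_bound_of_continuousOn hγ.continuousOn
  have hM0 : 0 ≤ M := (norm_nonneg _).trans (hM a left_mem_uIcc)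
  refine ⟨B + 1 + M * |b - a| / ε, fun z hz => ?_⟩
  set S := 1 + M * |b - a| / ε with hS
  have hSpos : 0 < S := by positivity
  have hb : ∀ t ∈ uIoc a b, ‖φ t / (γ t - z)‖ ≤ M / S := by
    intro t ht
    have ht' := uIoc_subset_uIcc ht
    rw [norm_div]
    have h1 : S ≤ ‖γ t - z‖ := by
      have h2 := norm_sub_norm_le z (γ t)
      rw [norm_sub_rev] at h2
      have h3 := hB t ht'
      linarith
    gcongr
    exact hM t ht'
  refine (intervalIntegral.norm_integral_le_of_norm_le_const hb).trans ?_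
  rw [div_mul_eq_mul_div, div_le_iff₀ hSpos, hS, mul_add, mul_one, mul_div_cancel₀ _ hε.ne']
  linarith


/-- horizontal integral -/
def Hh (ζ z : ℂ) (y u v : ℝ) : ℂ :=
  ∫ x in u..v, Complex.exp (-(ζ * (x + y * Complex.I))) / (x + y * Complex.I - z)

/-- vertical integral -/
def Vv (ζ z : ℂ) (x y1 y2 : ℝ) : ℂ :=
  ∫ y in y1..y2, Complex.exp (-(ζ * (x + y * Complex.I))) / (x + y * Complex.I - z)

lemma norm_exp (ζ : ℂ) (x y : ℝ) :
    ‖Complex.exp (-(ζ * (x + y * Complex.I)))‖ = Real.exp (-(ζ.re * x - ζ.im * y)) := by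
  rw [Complex.norm_exp]
  congr 1
  simp

lemma Hshift (ζ z : ℂ) (y u v : ℝ) :
    Hh ζ (z + 1) y u v = Complex.exp (-ζ) * Hh ζ z y (u - 1) (v - 1) := by
  have h := intervalIntegral.integral_comp_add_right (a := u - 1) (b := v - 1)
    (fun x : ℝ => Complex.exp (-(ζ * (x + y * Complex.I))) / (x + y * Complex.I - (z + 1))) 1
  rw [sub_add_cancel, sub_add_cancel] at h
  unfold Hh
  rw [← h, ← intervalIntegral.integral_const_mul]
  congr 1
  funext x
  have e1 : (((x + 1 : ℝ) : ℂ) + y * Complex.I - (z + 1)) = x + y * Complex.I - z := by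
    push_cast; ring
  have e2 : -(ζ * (((x + 1 : ℝ) : ℂ) + y * Complex.I)) = -ζ + -(ζ * (x + y * Complex.I)) := by
    push_cast; ring
  rw [e1, e2, Complex.exp_add, mul_div_assoc]

lemma Vshift (ζ z : ℂ) (x y1 y2 : ℝ) :
    Vv ζ (z + 1) x y1 y2 = Complex.exp (-ζ) * Vv ζ z (x - 1) y1 y2 := by
  unfold Vv
  rw [← intervalIntegral.integral_const_mul]
  congr 1
  funext y
  have e1 : ((x : ℂ) + y * Complex.I - (z + 1)) = ((x - 1 : ℝ) : ℂ) + y * Complex.I - z := by
    push_cast; ring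
  have e2 : -(ζ * ((x : ℂ) + y * Complex.I)) =
      -ζ + -(ζ * (((x - 1 : ℝ) : ℂ) + y * Complex.I)) := by
    push_cast; ring
  rw [e1, e2, Complex.exp_add, mul_div_assoc]

lemma ne_of_im {z : ℂ} {x y : ℝ} (h : z.im ≠ y) : (x : ℂ) + y * Complex.I - z ≠ 0 := by
  intro h0
  apply h
  have := congrArg Complex.im h0
  simp at this
  linarith

lemma ne_of_re {z : ℂ} {x y : ℝ} (h : z.re ≠ x) : (x : ℂ) + y * Complex.I - z ≠ 0 := by
  intro h0
  apply h
  have := congrArg Complex.re h0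
  simp at this
  linarith

lemma Hint (ζ z : ℂ) (y u v : ℝ) (h : ∀ x ∈ uIcc u v, (x : ℂ) + y * Complex.I - z ≠ 0) :
    IntervalIntegrable (fun x : ℝ =>
      Complex.exp (-(ζ * (x + y * Complex.I))) / (x + y * Complex.I - z)) volume u v := by
  apply ContinuousOn.intervalIntegrable
  exact ContinuousOn.div (by fun_prop) (by fun_prop) h

lemma Hadd (ζ z : ℂ) (y u v w : ℝ) (h : ∀ x ∈ uIcc u v, (x : ℂ) + y * Complex.I - z ≠ 0)
    (h' : ∀ x ∈ uIcc v w, (x : ℂ) + y * Complex.I - z ≠ 0) :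
    Hh ζ z y u v + Hh ζ z y v w = Hh ζ z y u w :=
  intervalIntegral.integral_add_adjacent_intervals (Hint ζ z y u v h) (Hint ζ z y v w h')

lemma rect0 (ζ z : ℂ) (x1 x2 y1 y2 : ℝ) (hx : x1 ≤ x2) (hy : y1 ≤ y2)
    (h : ∀ x ∈ Icc x1 x2, ∀ y ∈ Icc y1 y2, (x : ℂ) + y * Complex.I - z ≠ 0) :
    Hh ζ z y1 x1 x2 - Hh ζ z y2 x1 x2 + Complex.I * Vv ζ z x2 y1 y2 -
      Complex.I * Vv ζ z x1 y1 y2 = 0 := by
  have key := Complex.integral_boundary_rect_eq_zero_of_differentiableOn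
    (fun ξ : ℂ => Complex.exp (-(ζ * ξ)) / (ξ - z)) ⟨x1, y1⟩ ⟨x2, y2⟩ (by
      apply DifferentiableOn.div
      · fun_prop
      · fun_prop
      · intro ξ hξ
        simp only [uIcc_of_le hx, uIcc_of_le hy] at hξ
        have := h ξ.re hξ.1 ξ.im hξ.2
        rwa [Complex.re_add_im] at this)
  exact key

lemma Hbound (ζ z : ℂ) (y u v C δ : ℝ) (hδ : 0 < δ) (huv : u ≤ v) (hv : v ≤ u + 1)
    (h1 : ∀ x ∈ Icc u v, ‖Complex.exp (-(ζ * (x + y * Complex.I)))‖ ≤ C)
    (h2 : ∀ x ∈ Icc u v, δ ≤ ‖(x : ℂ) + y * Complex.I - z‖) :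
    ‖Hh ζ z y u v‖ ≤ C / δ := by
  have hC : 0 ≤ C := (norm_nonneg _).trans (h1 u ⟨le_rfl, huv⟩)
  have := intervalIntegral.norm_integral_le_of_norm_le_const (a := u) (b := v) (C := C / δ)
    (f := fun x : ℝ => Complex.exp (-(ζ * (x + y * Complex.I))) / (x + y * Complex.I - z)) (by
      intro x hx
      have hx' : x ∈ Icc u v := by
        have := uIoc_subset_uIcc hx
        rwa [uIcc_of_le huv] at this
      rw [norm_div]
      have := h2 x hx'
      gcongr
      exact h1 x hx')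
  refine this.trans ?_
  have h3 : |v - u| ≤ 1 := by rw [abs_of_nonneg (by linarith)]; linarith
  have h4 : 0 ≤ C / δ := by positivity
  nlinarith

lemma Vbound (ζ z : ℂ) (x y1 y2 C δ : ℝ) (hδ : 0 < δ) (hy : y1 ≤ y2)
    (h1 : ∀ y ∈ Icc y1 y2, ‖Complex.exp (-(ζ * (x + y * Complex.I)))‖ ≤ C)
    (h2 : ∀ y ∈ Icc y1 y2, δ ≤ ‖(x : ℂ) + y * Complex.I - z‖) :
    ‖Vv ζ z x y1 y2‖ ≤ C / δ * (y2 - y1) := by
  have := intervalIntegral.norm_integral_le_of_norm_le_const (a := y1) (b := y2) (C := C / δ)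
    (f := fun y : ℝ => Complex.exp (-(ζ * (x + y * Complex.I))) / (x + y * Complex.I - z)) (by
      intro y hy'
      have hx' : y ∈ Icc y1 y2 := by
        have := uIoc_subset_uIcc hy'
        rwa [uIcc_of_le hy] at this
      rw [norm_div]
      have := h2 y hx'
      gcongr
      · exact (norm_nonneg _).trans (h1 y hx')
      · exact h1 y hx')
  rwa [abs_of_nonneg (by linarith)] at this

lemma Hlong (ζ z : ℂ) (y u v : ℝ) (hζ : 0 < ζ.re) (huv : u ≤ v) (hz : 1 ≤ |z.im - y|) :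
    ‖Hh ζ z y u v‖ ≤ Real.exp (-(ζ.re * u - ζ.im * y)) / (ζ.re * |z.im - y|) := by
  have hpos : 0 < |z.im - y| := by linarith
  have hlow : ∀ x : ℝ, |z.im - y| ≤ ‖(x : ℂ) + y * Complex.I - z‖ := by
    intro x
    have := Complex.abs_im_le_norm ((x : ℂ) + y * Complex.I - z)
    simp at this
    rwa [abs_sub_comm] at this
  have h1 : ‖Hh ζ z y u v‖ ≤
      ∫ x in u..v, Real.exp (-(ζ.re * x - ζ.im * y)) / |z.im - y| := by
    apply intervalIntegral.norm_integral_le_of_norm_le huv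
    · refine Eventually.of_forall fun x _ => ?_
      rw [norm_div, norm_exp]
      have := hlow x
      gcongr
    · apply Continuous.intervalIntegrable
      fun_prop
  refine h1.trans ?_
  have h2 : (∫ x in u..v, Real.exp (-(ζ.re * x - ζ.im * y)) / |z.im - y|) =
      (-Real.exp (-(ζ.re * v - ζ.im * y)) / (ζ.re * |z.im - y|)) -
      (-Real.exp (-(ζ.re * u - ζ.im * y)) / (ζ.re * |z.im - y|)) := by
    apply intervalIntegral.integral_eq_sub_of_hasDerivAt
      (f := fun x : ℝ => -Real.exp (-(ζ.re * x - ζ.im * y)) / (ζ.re * |z.im - y|))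
    · intro x _
      have d1 : HasDerivAt (fun x : ℝ => -(ζ.re * x - ζ.im * y)) (-ζ.re) x := by
        have h3 := (((hasDerivAt_id x).const_mul ζ.re).sub_const (ζ.im * y)).neg
        rw [mul_one] at h3
        exact h3
      have d2 := (d1.exp.neg).div_const (ζ.re * |z.im - y|)
      have e : -(Real.exp (-(ζ.re * x - ζ.im * y)) * -ζ.re) / (ζ.re * |z.im - y|) =
          Real.exp (-(ζ.re * x - ζ.im * y)) / |z.im - y| := by
        field_simp
      rw [e] at d2
      exact d2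
    · apply Continuous.intervalIntegrable
      fun_prop
  rw [h2]
  have : 0 ≤ Real.exp (-(ζ.re * v - ζ.im * y)) / (ζ.re * |z.im - y|) := by positivity
  rw [neg_div, neg_div]
  linarith

/-- the cut off exponential -/
def ff (ζ : ℂ) (x0 a1 a2 y1 y2 : ℝ) (z : ℂ) : ℂ :=
  (2 * Real.pi * Complex.I)⁻¹ *
    (Hh ζ z y1 x0 a1 - Hh ζ z y2 x0 a2 - Complex.I * Vv ζ z x0 y1 y2)

lemma ff_shift (ζ : ℂ) (x0 a1 a2 y1 y2 : ℝ) (z : ℂ) (hx1 : x0 ≤ a1 - 1) (hx2 : x0 ≤ a2 - 1)
    (hy : y1 ≤ y2)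
    (h1 : ∀ x : ℝ, x ≤ a1 → (x : ℂ) + y1 * Complex.I - z ≠ 0)
    (h2 : ∀ x : ℝ, x ≤ a2 → (x : ℂ) + y2 * Complex.I - z ≠ 0)
    (h3 : ∀ x : ℝ, x ≤ x0 → ∀ y ∈ Icc y1 y2, (x : ℂ) + y * Complex.I - z ≠ 0) :
    ff ζ x0 a1 a2 y1 y2 (z + 1) - Complex.exp (-ζ) * ff ζ x0 a1 a2 y1 y2 z =
      (2 * Real.pi * Complex.I)⁻¹ * (Complex.exp (-ζ) *
        (Hh ζ z y2 (a2 - 1) a2 - Hh ζ z y1 (a1 - 1) a1)) := by
  unfold ff
  rw [Hshift, Hshift, Vshift]
  have hmem : ∀ {u v x : ℝ}, u ≤ v → x ∈ uIcc u v → x ≤ v := by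
    intro u v x huv hx
    rw [uIcc_of_le huv] at hx
    exact hx.2
  have e1 : Hh ζ z y1 (x0 - 1) x0 + Hh ζ z y1 x0 (a1 - 1) = Hh ζ z y1 (x0 - 1) (a1 - 1) :=
    Hadd ζ z y1 _ _ _ (fun x hx => h1 x (by have := hmem (by linarith) hx; linarith))
      (fun x hx => h1 x (by have := hmem (by linarith) hx; linarith))
  have e2 : Hh ζ z y1 x0 (a1 - 1) + Hh ζ z y1 (a1 - 1) a1 = Hh ζ z y1 x0 a1 :=
    Hadd ζ z y1 _ _ _ (fun x hx => h1 x (by have := hmem (by linarith) hx; linarith))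
      (fun x hx => h1 x (by have := hmem (by linarith) hx; linarith))
  have e3 : Hh ζ z y2 (x0 - 1) x0 + Hh ζ z y2 x0 (a2 - 1) = Hh ζ z y2 (x0 - 1) (a2 - 1) :=
    Hadd ζ z y2 _ _ _ (fun x hx => h2 x (by have := hmem (by linarith) hx; linarith))
      (fun x hx => h2 x (by have := hmem (by linarith) hx; linarith))
  have e4 : Hh ζ z y2 x0 (a2 - 1) + Hh ζ z y2 (a2 - 1) a2 = Hh ζ z y2 x0 a2 :=
    Hadd ζ z y2 _ _ _ (fun x hx => h2 x (by have := hmem (by linarith) hx; linarith))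
      (fun x hx => h2 x (by have := hmem (by linarith) hx; linarith))
  have e5 := rect0 ζ z (x0 - 1) x0 y1 y2 (by linarith) hy
    (fun x hx y hy' => h3 x hx.2 y hy')
  rw [← e1, ← e2, ← e3, ← e4]
  linear_combination (2 * Real.pi * Complex.I)⁻¹ * Complex.exp (-ζ) * e5

lemma ff_value (hR : S_RECT) (ζ : ℂ) (x0 a1 a2 y1 y2 X : ℝ) (z : ℂ) (hx : x0 < z.re)
    (hX : z.re < X) (hy1 : y1 < z.im) (hy2 : z.im < y2) :
    Complex.exp (-(ζ * z)) - ff ζ x0 a1 a2 y1 y2 z =
      (2 * Real.pi * Complex.I)⁻¹ *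
        (Hh ζ z y1 a1 X - Hh ζ z y2 a2 X + Complex.I * Vv ζ z X y1 y2) := by
  have key := hR (fun ξ => Complex.exp (-(ζ * ξ))) z x0 X y1 y2 (by fun_prop) hx hX hy1 hy2
  have key' : Hh ζ z y1 x0 X - Hh ζ z y2 x0 X + Complex.I * Vv ζ z X y1 y2 -
      Complex.I * Vv ζ z x0 y1 y2 = 2 * Real.pi * Complex.I * Complex.exp (-(ζ * z)) := key
  have e1 : Hh ζ z y1 x0 a1 + Hh ζ z y1 a1 X = Hh ζ z y1 x0 X :=
    Hadd ζ z y1 _ _ _ (fun x _ => ne_of_im hy1.ne') (fun x _ => ne_of_im hy1.ne')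
  have e2 : Hh ζ z y2 x0 a2 + Hh ζ z y2 a2 X = Hh ζ z y2 x0 X :=
    Hadd ζ z y2 _ _ _ (fun x _ => ne_of_im hy2.ne) (fun x _ => ne_of_im hy2.ne)
  have hpi : (2 * Real.pi * Complex.I : ℂ) ≠ 0 := by simp [Real.pi_ne_zero]
  have e3 : Complex.exp (-(ζ * z)) = (2 * Real.pi * Complex.I)⁻¹ *
      (2 * Real.pi * Complex.I * Complex.exp (-(ζ * z))) := by
    rw [← mul_assoc, inv_mul_cancel₀ hpi, one_mul]
  rw [e3, ← key', ← e1, ← e2]
  unfold ff
  ring

lemma norm_c : ‖(2 * Real.pi * Complex.I : ℂ)⁻¹‖ ≤ 1 / 2 := by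
  rw [norm_inv, norm_mul, norm_mul, Complex.norm_I, Complex.norm_real, Complex.norm_two,
    Real.norm_eq_abs, abs_of_pos Real.pi_pos, mul_one, one_div]
  apply inv_anti₀ (by norm_num)
  nlinarith [Real.pi_gt_three]

lemma expC (ζ : ℂ) (b : ℝ → ℝ) (A' y : ℝ) :
    Real.exp (-(ζ.re * (b y - A') - ζ.im * y)) = Real.exp (ζ.re * A') * Real.exp (-el b ζ y) := by
  rw [← Real.exp_add]
  congr 1
  unfold el
  ring

end Pool.Agent.T6.H4.SG.FUNx

namespace Pool.Agent.T6.H4.SG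

open FUNx

theorem t_FUN (hR : S_RECT) : S_FUN := by
  intro E b A ζ hL _ hζ
  set A' : ℝ := 2 * A + 1 with hA'
  set G : ℝ := Real.exp (ζ.re * A') with hG
  have hG0 : 0 < G := Real.exp_pos _
  have hA1 := hL.pos
  refine ⟨G * (1 + 1 / ζ.re), by positivity, ?_⟩
  intro y1 y2 hy
  set a1 := b y1 - A' with ha1
  set a2 := b y2 - A' with ha2
  set x0 := min (min a1 a2) (b y1 - A * (1 + (y2 - y1))) - 3 with hx0
  have hx1 : x0 ≤ a1 - 1 := by
    have := (min_le_left (min a1 a2) (b y1 - A * (1 + (y2 - y1)))).trans (min_le_left a1 a2)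
    linarith
  have hx2 : x0 ≤ a2 - 1 := by
    have := (min_le_left (min a1 a2) (b y1 - A * (1 + (y2 - y1)))).trans (min_le_right a1 a2)
    linarith
  have hb : ∀ y ∈ Icc y1 y2, x0 + 3 ≤ b y := by
    intro y hyy
    have h := hL.lip y y1
    have h' : |y - y1| ≤ y2 - y1 := by
      rw [abs_of_nonneg (by linarith [hyy.1])]; linarith [hyy.2]
    have h2 := (abs_le.1 h).1
    have h3 := min_le_right (min a1 a2) (b y1 - A * (1 + (y2 - y1)))
    have h4 : A * (1 + |y - y1|) ≤ A * (1 + (y2 - y1)) := by gcongr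
    linarith
  -- avoidance
  have n1 : ∀ z ∈ E, ∀ x : ℝ, x ≤ a1 → (x : ℂ) + y1 * Complex.I - z ≠ 0 := by
    intro z hz x hx h0
    have e := sub_eq_zero.1 h0
    have := hL.low z hz
    rw [← e] at this
    simp at this
    linarith
  have n2 : ∀ z ∈ E, ∀ x : ℝ, x ≤ a2 → (x : ℂ) + y2 * Complex.I - z ≠ 0 := by
    intro z hz x hx h0
    have e := sub_eq_zero.1 h0
    have := hL.low z hz
    rw [← e] at this
    simp at this
    linarith
  have n3 : ∀ z ∈ E, ∀ x : ℝ, x ≤ x0 → ∀ y ∈ Icc y1 y2, (x : ℂ) + y * Complex.I - z ≠ 0 := by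
    intro z hz x hx y hyy h0
    have e := sub_eq_zero.1 h0
    have h1 := hL.low z hz
    rw [← e] at h1
    simp at h1
    have := hb y hyy
    linarith
  have hγc : ∀ y : ℝ, Continuous (fun x : ℝ => (x : ℂ) + y * Complex.I) := fun y => by fun_prop
  have hγv : ∀ x : ℝ, Continuous (fun y : ℝ => (x : ℂ) + y * Complex.I) := fun x => by fun_prop
  have hφc : ∀ y : ℝ, Continuous (fun x : ℝ => Complex.exp (-(ζ * (x + y * Complex.I)))) :=
    fun y => by fun_prop
  have hφv : ∀ x : ℝ, Continuous (fun y : ℝ => Complex.exp (-(ζ * (x + y * Complex.I)))) :=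
    fun x => by fun_prop
  refine ⟨ff ζ x0 a1 a2 y1 y2, ⟨⟨((fun x : ℝ => (x : ℂ) + y1 * Complex.I) '' uIcc x0 a1)ᶜ ∩
    (((fun x : ℝ => (x : ℂ) + y2 * Complex.I) '' uIcc x0 a2)ᶜ ∩
    ((fun y : ℝ => (x0 : ℂ) + y * Complex.I) '' uIcc y1 y2)ᶜ), ?_, ?_, ?_⟩, ?_⟩, ?_, ?_⟩
  · exact (isCompact_uIcc.image (hγc y1)).isClosed.isOpen_compl.inter
      ((isCompact_uIcc.image (hγc y2)).isClosed.isOpen_compl.inter
        (isCompact_uIcc.image (hγv x0)).isClosed.isOpen_compl)
  · intro z hz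
    refine ⟨?_, ?_, ?_⟩
    · rintro ⟨x, hx, e⟩
      rw [uIcc_of_le (by linarith)] at hx
      exact n1 z hz x hx.2 (sub_eq_zero.2 e)
    · rintro ⟨x, hx, e⟩
      rw [uIcc_of_le (by linarith)] at hx
      exact n2 z hz x hx.2 (sub_eq_zero.2 e)
    · rintro ⟨y, hyy, e⟩
      rw [uIcc_of_le hy.le] at hyy
      exact n3 z hz x0 le_rfl y hyy (sub_eq_zero.2 e)
  · have d1 := cauchy_diff _ _ (hφc y1) (hγc y1) x0 a1
    have d2 := cauchy_diff _ _ (hφc y2) (hγc y2) x0 a2
    have d3 := cauchy_diff _ _ (hφv x0) (hγv x0) y1 y2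
    have d1' := d1.mono (s := ((fun x : ℝ => (x : ℂ) + y1 * Complex.I) '' uIcc x0 a1)ᶜ ∩
      (((fun x : ℝ => (x : ℂ) + y2 * Complex.I) '' uIcc x0 a2)ᶜ ∩
      ((fun y : ℝ => (x0 : ℂ) + y * Complex.I) '' uIcc y1 y2)ᶜ)) inter_subset_left
    have d2' := d2.mono (s := ((fun x : ℝ => (x : ℂ) + y1 * Complex.I) '' uIcc x0 a1)ᶜ ∩
      (((fun x : ℝ => (x : ℂ) + y2 * Complex.I) '' uIcc x0 a2)ᶜ ∩
      ((fun y : ℝ => (x0 : ℂ) + y * Complex.I) '' uIcc y1 y2)ᶜ))
      (inter_subset_right.trans inter_subset_left)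
    have d3' := d3.mono (s := ((fun x : ℝ => (x : ℂ) + y1 * Complex.I) '' uIcc x0 a1)ᶜ ∩
      (((fun x : ℝ => (x : ℂ) + y2 * Complex.I) '' uIcc x0 a2)ᶜ ∩
      ((fun y : ℝ => (x0 : ℂ) + y * Complex.I) '' uIcc y1 y2)ᶜ))
      (inter_subset_right.trans inter_subset_right)
    exact ((d1'.sub d2').sub (d3'.const_mul Complex.I)).const_mul _
  · intro ε hε
    obtain ⟨R1, hR1⟩ := cauchy_van _ _ (hφc y1) (hγc y1) x0 a1 (ε / 3) (by positivity)
    obtain ⟨R2, hR2⟩ := cauchy_van _ _ (hφc y2) (hγc y2) x0 a2 (ε / 3) (by positivity)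
    obtain ⟨R3, hR3⟩ := cauchy_van _ _ (hφv x0) (hγv x0) y1 y2 (ε / 3) (by positivity)
    refine ⟨max R1 (max R2 R3), fun w _ hw => ?_⟩
    have w1 : ‖Hh ζ w y1 x0 a1‖ ≤ ε / 3 := hR1 w ((le_max_left _ _).trans hw)
    have w2 : ‖Hh ζ w y2 x0 a2‖ ≤ ε / 3 :=
      hR2 w (((le_max_left _ _).trans (le_max_right _ _)).trans hw)
    have w3 : ‖Vv ζ w x0 y1 y2‖ ≤ ε / 3 :=
      hR3 w (((le_max_right _ _).trans (le_max_right _ _)).trans hw)
    unfold ff
    rw [norm_mul]
    have h5 : ‖Hh ζ w y1 x0 a1 - Hh ζ w y2 x0 a2 - Complex.I * Vv ζ w x0 y1 y2‖ ≤ ε := by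
      refine (norm_sub_le _ _).trans ?_
      rw [norm_mul, Complex.norm_I, one_mul]
      have := norm_sub_le (Hh ζ w y1 x0 a1) (Hh ζ w y2 x0 a2)
      linarith
    have h6 := norm_c
    have h7 := norm_nonneg (Hh ζ w y1 x0 a1 - Hh ζ w y2 x0 a2 - Complex.I * Vv ζ w x0 y1 y2)
    nlinarith [norm_nonneg ((2 * Real.pi * Complex.I : ℂ)⁻¹)]
  · intro z hz
    rw [ff_shift ζ x0 a1 a2 y1 y2 z hx1 hx2 hy.le (n1 z hz) (n2 z hz) (n3 z hz)]
    have hseg : ∀ y x : ℝ, x ≤ b y - A' →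
        (1 + |z.im - y|) / 2 ≤ ‖(x : ℂ) + y * Complex.I - z‖ := by
      intro y x hx
      rcases le_total 1 |z.im - y| with h | h
      · have h2 := Complex.abs_im_le_norm ((x : ℂ) + y * Complex.I - z)
        simp at h2
        rw [abs_sub_comm] at h2
        linarith
      · have h2 := Complex.abs_re_le_norm ((x : ℂ) + y * Complex.I - z)
        simp at h2
        have h3 := hL.low z hz
        have h4 := (abs_le.1 (hL.lip z.im y)).1
        have h5 : A * (1 + |z.im - y|) ≤ A * (1 + 1) := by gcongr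
        have h6 := neg_abs_le (x - z.re)
        linarith
    have hone : ∀ y : ℝ, ‖Complex.exp (-ζ) * Hh ζ z y (b y - A' - 1) (b y - A')‖ ≤
        2 * G * (Real.exp (-el b ζ y) / (1 + |z.im - y|)) := by
      intro y
      have hp : 0 < 1 + |z.im - y| := by positivity
      have h2 := Hbound ζ z y (b y - A' - 1) (b y - A')
        (Real.exp (-(ζ.re * (b y - A' - 1) - ζ.im * y))) ((1 + |z.im - y|) / 2) (by positivity)
        (by linarith) (by linarith) (by
          intro x hx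
          rw [norm_exp]
          apply Real.exp_le_exp.2
          have := hx.1
          nlinarith) (fun x hx => hseg y x hx.2)
      rw [norm_mul, Complex.norm_exp]
      have h3 : Real.exp (-ζ).re * Real.exp (-(ζ.re * (b y - A' - 1) - ζ.im * y)) =
          G * Real.exp (-el b ζ y) := by
        rw [hG, ← expC, ← Real.exp_add]
        congr 1
        simp only [Complex.neg_re]
        ring
      calc Real.exp (-ζ).re * ‖Hh ζ z y (b y - A' - 1) (b y - A')‖
          ≤ Real.exp (-ζ).re * (Real.exp (-(ζ.re * (b y - A' - 1) - ζ.im * y)) /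
              ((1 + |z.im - y|) / 2)) := by gcongr
        _ = (Real.exp (-ζ).re * Real.exp (-(ζ.re * (b y - A' - 1) - ζ.im * y))) /
              ((1 + |z.im - y|) / 2) := by ring
        _ = 2 * G * (Real.exp (-el b ζ y) / (1 + |z.im - y|)) := by
            rw [h3]; field_simp
    have o1 := hone y1
    have o2 := hone y2
    rw [← ha1] at o1
    rw [← ha2] at o2
    set S1 := Real.exp (-el b ζ y1) / (1 + |z.im - y1|) with hS1
    set S2 := Real.exp (-el b ζ y2) / (1 + |z.im - y2|) with hS2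
    have hS1p : 0 ≤ S1 := by positivity
    have hS2p : 0 ≤ S2 := by positivity
    rw [norm_mul, mul_sub]
    have h5 : ‖Complex.exp (-ζ) * Hh ζ z y2 (a2 - 1) a2 -
        Complex.exp (-ζ) * Hh ζ z y1 (a1 - 1) a1‖ ≤ 2 * G * (S1 + S2) := by
      refine (norm_sub_le _ _).trans ?_
      linarith
    have h6 := norm_c
    calc ‖(2 * Real.pi * Complex.I : ℂ)⁻¹‖ * ‖Complex.exp (-ζ) * Hh ζ z y2 (a2 - 1) a2 -
        Complex.exp (-ζ) * Hh ζ z y1 (a1 - 1) a1‖ ≤ 1 / 2 * (2 * G * (S1 + S2)) := by gcongr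
      _ = G * (S1 + S2) := by ring
      _ ≤ G * (1 + 1 / ζ.re) * (S1 + S2) := by
          have : 0 ≤ 1 / ζ.re := by positivity
          have h8 : 0 ≤ G * (1 / ζ.re) * (S1 + S2) := by positivity
          nlinarith
  · intro z hz hz1 hz2
    set S1 := Real.exp (-el b ζ y1) / (1 + |z.im - y1|) with hS1
    set S2 := Real.exp (-el b ζ y2) / (1 + |z.im - y2|) with hS2
    have hS1p : 0 ≤ S1 := by positivity
    have hS2p : 0 ≤ S2 := by positivity
    have hlow := hL.low z hz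
    have hb' := hb z.im ⟨by linarith, by linarith⟩
    have ab1 : 1 ≤ |z.im - y1| := by rw [abs_of_nonneg (by linarith)]; linarith
    have ab2 : 1 ≤ |z.im - y2| := by rw [abs_of_nonpos (by linarith)]; linarith
    have hlong : ∀ y X : ℝ, 1 ≤ |z.im - y| → b y - A' ≤ X →
        ‖Hh ζ z y (b y - A') X‖ ≤ 2 * G / ζ.re * (Real.exp (-el b ζ y) / (1 + |z.im - y|)) := by
      intro y X h1 h2
      refine (Hlong ζ z y (b y - A') X hζ h2 h1).trans ?_
      rw [expC, ← hG]
      have h3 : (1 + |z.im - y|) / 2 ≤ |z.im - y| := by linarith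
      have hp : 0 < 1 + |z.im - y| := by positivity
      calc G * Real.exp (-el b ζ y) / (ζ.re * |z.im - y|)
          ≤ G * Real.exp (-el b ζ y) / (ζ.re * ((1 + |z.im - y|) / 2)) := by gcongr
        _ = 2 * G / ζ.re * (Real.exp (-el b ζ y) / (1 + |z.im - y|)) := by
            field_simp
    set Y : ℝ := max |y1| |y2| with hY
    have hlim : Tendsto (fun X : ℝ => G / ζ.re * (S1 + S2) +
        1 / 2 * (Real.exp (-(ζ.re * X)) * (Real.exp (|ζ.im| * Y) * (y2 - y1)))) atTop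
        (𝓝 (G / ζ.re * (S1 + S2) + 1 / 2 * (0 * (Real.exp (|ζ.im| * Y) * (y2 - y1))))) := by
      apply Tendsto.const_add
      apply Tendsto.const_mul
      apply Tendsto.mul_const
      apply Real.tendsto_exp_atBot.comp
      apply tendsto_neg_atTop_atBot.comp
      exact tendsto_id.const_mul_atTop hζ
    have hev : ∀ᶠ X : ℝ in atTop, ‖ff ζ x0 a1 a2 y1 y2 z - Complex.exp (-(ζ * z))‖ ≤
        G / ζ.re * (S1 + S2) +
        1 / 2 * (Real.exp (-(ζ.re * X)) * (Real.exp (|ζ.im| * Y) * (y2 - y1))) := by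
      filter_upwards [eventually_ge_atTop (z.re + 1), eventually_ge_atTop a1,
        eventually_ge_atTop a2] with X hX1 hX2 hX3
      rw [norm_sub_rev, ff_value hR ζ x0 a1 a2 y1 y2 X z (by linarith) (by linarith)
        (by linarith) (by linarith), norm_mul]
      have k1 := hlong y1 X ab1 hX2
      have k2 := hlong y2 X ab2 hX3
      have k3 := Vbound ζ z X y1 y2 (Real.exp (-(ζ.re * X)) * Real.exp (|ζ.im| * Y)) 1 one_pos
        hy.le (by
          intro y hyy
          rw [norm_exp, ← Real.exp_add]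
          apply Real.exp_le_exp.2
          have h1 : |y| ≤ Y := by
            rw [abs_le]
            constructor
            · have := hyy.1
              have := neg_abs_le y1
              have := le_max_left |y1| |y2|
              linarith
            · have := hyy.2
              have := le_abs_self y2
              have := le_max_right |y1| |y2|
              linarith
          have h2 : ζ.im * y ≤ |ζ.im| * Y := by
            refine (le_abs_self _).trans ?_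
            rw [abs_mul]
            gcongr
          linarith) (by
          intro y _
          have h2 := Complex.abs_re_le_norm ((X : ℂ) + y * Complex.I - z)
          simp at h2
          have h6 := le_abs_self (X - z.re)
          linarith)
      rw [← ha1] at k1
      rw [← ha2] at k2
      rw [← hS1] at k1
      rw [← hS2] at k2
      have h5 : ‖Hh ζ z y1 a1 X - Hh ζ z y2 a2 X + Complex.I * Vv ζ z X y1 y2‖ ≤
          2 * G / ζ.re * (S1 + S2) +
          Real.exp (-(ζ.re * X)) * (Real.exp (|ζ.im| * Y) * (y2 - y1)) := by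
        refine (norm_add_le _ _).trans ?_
        rw [norm_mul, Complex.norm_I, one_mul]
        have := norm_sub_le (Hh ζ z y1 a1 X) (Hh ζ z y2 a2 X)
        rw [div_one] at k3
        linarith
      have h6 := norm_c
      calc ‖(2 * Real.pi * Complex.I : ℂ)⁻¹‖ *
            ‖Hh ζ z y1 a1 X - Hh ζ z y2 a2 X + Complex.I * Vv ζ z X y1 y2‖
          ≤ 1 / 2 * (2 * G / ζ.re * (S1 + S2) +
            Real.exp (-(ζ.re * X)) * (Real.exp (|ζ.im| * Y) * (y2 - y1))) := by gcongr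
        _ = _ := by ring
    have h7 := ge_of_tendsto hlim hev
    refine h7.trans ?_
    have h8 : 0 ≤ G * (S1 + S2) := by positivity
    have h9 : G * (1 + 1 / ζ.re) * (S1 + S2) = G * (S1 + S2) + G / ζ.re * (S1 + S2) := by
      ring
    rw [h9, zero_mul, mul_zero, add_zero]
    linarith

end Pool.Agent.T6.H4.SG
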