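import Pool.Agent.T6.H4.SG.Stm

/-!
# Module GEO: the left boundary function
-/

open Set Metric Filter Topology

noncomputable section

namespace Pool.Agent.T6.H4.SG

namespace GEOx

variable {E : Set ℂ} {m : ℕ}

/-- translations preserving `E` -/
def St (E : Set ℂ) : Set ℂ := {s | ∀ z ∈ E, z + s ∈ E}

theorem nsmul_mem {s : ℂ} (hs : s ∈ St E) (k : ℕ) : (k : ℂ) * s ∈ St E := by
  induction k with
  | zero => intro z hz; simpa using hz
  | succ k ih =>
    intro z hz
    have h1 := hs _ (ih z hz)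
    have h2 : z + ((k + 1 : ℕ) : ℂ) * s = z + (k : ℂ) * s + s := by push_cast; ring
    rw [h2]
    exact h1

theorem cone (hE : ESet E m) {s : ℂ} (h1 : 2 * (m : ℝ) * |s.im| ≤ s.re)
    (h2 : (m : ℝ) * (2 * m + 4) ≤ s.re) : s ∈ St E := by
  have hm : (1 : ℝ) ≤ m := by exact_mod_cast hE.pos
  have hm0 : (0 : ℝ) < m := by linarith
  have hre : 0 < s.re := lt_of_lt_of_le (by positivity) h2
  set X : ℝ := s.re / m with hX
  have hXm : s.re = m * X := by rw [hX]; field_simp
  have hX2 : 2 * (m : ℝ) + 4 ≤ X := by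
    rw [hX, le_div_iff₀ hm0]; linarith
  set k : ℕ := ⌊X⌋₊ with hk
  have hX0 : 0 ≤ X := by linarith
  have hk1 : (k : ℝ) ≤ X := Nat.floor_le hX0
  have hk2 : X < k + 1 := Nat.lt_floor_add_one X
  have hkpos : (0 : ℝ) < k := by linarith
  have hk0 : (k : ℂ) ≠ 0 := by
    have : (k : ℝ) ≠ 0 := hkpos.ne'
    exact_mod_cast this
  have hball : s / (k : ℂ) ∈ closedBall (m : ℂ) 1 := by
    rw [mem_closedBall, dist_eq_norm]
    have e1 : s / (k : ℂ) - m = (s - (k : ℂ) * m) / k := by field_simp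
    rw [e1, norm_div, Complex.norm_natCast, div_le_one hkpos]
    have h3 : ‖s - (k : ℂ) * m‖ ^ 2 ≤ (k : ℝ) ^ 2 := by
      rw [Complex.sq_norm, Complex.normSq_apply]
      have er : (s - (k : ℂ) * m).re = m * (X - k) := by
        simp only [Complex.sub_re, Complex.mul_re, Complex.natCast_re, Complex.natCast_im,
          mul_zero, sub_zero]
        rw [hXm]; ring
      have ei : (s - (k : ℂ) * m).im = s.im := by
        simp
      rw [er, ei]
      have h4 : m * (X - k) * (m * (X - k)) ≤ (m : ℝ) ^ 2 := by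
        have h5 : 0 ≤ X - k := by linarith
        have h6 : X - k ≤ 1 := by linarith
        have h7 : (X - k) * (X - k) ≤ 1 := by nlinarith
        nlinarith [mul_le_mul_of_nonneg_left h7 (sq_nonneg (m : ℝ))]
      have h5 : s.im * s.im ≤ X ^ 2 / 4 := by
        have h6 : 2 * |s.im| ≤ X := by
          rw [hX, le_div_iff₀ hm0]; linarith
        have h7 : |s.im| * |s.im| = s.im * s.im := abs_mul_abs_self _
        nlinarith [abs_nonneg s.im]
      have h6 : (m : ℝ) ^ 2 + X ^ 2 / 4 ≤ (X - 1) ^ 2 := by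
        nlinarith
      have h7 : (X - 1) ^ 2 ≤ (k : ℝ) ^ 2 := by
        refine pow_le_pow_left₀ (by linarith) (by linarith) 2
      linarith
    exact (pow_le_pow_iff_left₀ (norm_nonneg _) hkpos.le (by norm_num)).1 h3
  have h8 := nsmul_mem (E := E) (fun z hz => hE.fat z hz _ hball) k
  rwa [mul_div_cancel₀ _ hk0] at h8

/-- the horizontal slice -/
def Sl (E : Set ℂ) (y : ℝ) : Set ℝ := {x | (x : ℂ) + y * Complex.I ∈ E}

theorem mem_shift (hE : ESet E m) {x y x' y' : ℝ} (h : x ∈ Sl E y)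
    (h1 : 2 * (m : ℝ) * |y' - y| ≤ x' - x) (h2 : (m : ℝ) * (2 * m + 4) ≤ x' - x) :
    x' ∈ Sl E y' := by
  have h3 : ((x' - x : ℝ) : ℂ) + ((y' - y : ℝ) : ℂ) * Complex.I ∈ St E := by
    refine cone hE ?_ ?_
    · simpa using h1
    · simpa using h2
  have h4 := h3 _ h
  have h5 : (x : ℂ) + y * Complex.I + (((x' - x : ℝ) : ℂ) + ((y' - y : ℝ) : ℂ) * Complex.I) =
      (x' : ℂ) + y' * Complex.I := by push_cast; ring
  rw [h5] at h4
  exact h4

theorem mem_Sl_self {z : ℂ} (hz : z ∈ E) : z.re ∈ Sl E z.im := by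
  show (z.re : ℂ) + z.im * Complex.I ∈ E
  rwa [Complex.re_add_im]

theorem Sl_nonempty (hE : ESet E m) (y : ℝ) : (Sl E y).Nonempty := by
  obtain ⟨z, hz⟩ := hE.ne
  refine ⟨z.re + max ((m : ℝ) * (2 * m + 4)) (2 * m * |y - z.im|), ?_⟩
  refine mem_shift hE (mem_Sl_self hz) ?_ ?_
  · rw [add_sub_cancel_left]; exact le_max_right _ _
  · rw [add_sub_cancel_left]; exact le_max_left _ _

theorem Sl_bdd (hE : ESet E m) (y : ℝ) : BddBelow (Sl E y) := by
  by_contra h
  apply hE.nuniv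
  rw [eq_univ_iff_forall]
  intro z
  rw [not_bddBelow_iff] at h
  obtain ⟨x, hx, hlt⟩ := h (z.re - max ((m : ℝ) * (2 * m + 4)) (2 * m * |z.im - y|))
  have h1 := mem_shift hE hx (x' := z.re) (y' := z.im)
    (by have := le_max_right ((m : ℝ) * (2 * m + 4)) (2 * m * |z.im - y|); linarith)
    (by have := le_max_left ((m : ℝ) * (2 * m + 4)) (2 * m * |z.im - y|); linarith)
  have h2 : (z.re : ℂ) + z.im * Complex.I ∈ E := h1
  rwa [Complex.re_add_im] at h2

theorem Sl_closed (hE : ESet E m) (y : ℝ) : IsClosed (Sl E y) :=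
  hE.closed.preimage (by fun_prop : Continuous fun x : ℝ => (x : ℂ) + y * Complex.I)

end GEOx

open GEOx in
theorem t_GEO : S_GEO := by
  intro E m hE
  have hm : (1 : ℝ) ≤ m := by exact_mod_cast hE.pos
  set r0 : ℝ := (m : ℝ) * (2 * m + 4) with hr0
  have hr0p : 0 ≤ r0 := by positivity
  have hmem : ∀ y, sInf (Sl E y) ∈ Sl E y := fun y =>
    (Sl_closed hE y).csInf_mem (Sl_nonempty hE y) (Sl_bdd hE y)
  have hlip : ∀ y y', sInf (Sl E y') ≤ sInf (Sl E y) + max r0 (2 * m * |y' - y|) := by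
    intro y y'
    refine csInf_le (Sl_bdd hE y') (mem_shift hE (hmem y) ?_ ?_)
    · rw [add_sub_cancel_left]; exact le_max_right _ _
    · rw [add_sub_cancel_left]; exact le_max_left _ _
  have hmax : ∀ d : ℝ, 0 ≤ d → max r0 (2 * m * d) ≤ (max r0 (2 * m) + 1) * (1 + d) := by
    intro d hd
    have h1 := le_max_left r0 (2 * (m : ℝ))
    have h2 := le_max_right r0 (2 * (m : ℝ))
    refine max_le ?_ ?_
    · nlinarith
    · nlinarith
  refine ⟨fun y => sInf (Sl E y), max r0 (2 * m) + 1, ?_, ?_, ?_, ?_⟩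
  · have := le_max_left r0 (2 * (m : ℝ))
    linarith
  · intro z hz
    exact csInf_le (Sl_bdd hE _) (mem_Sl_self hz)
  · intro z hz
    have h1 := le_max_left r0 (2 * (m : ℝ))
    have h2 : z.re ∈ Sl E z.im := by
      refine mem_shift hE (hmem z.im) ?_ ?_
      · rw [sub_self, abs_zero, mul_zero]
        have : 0 ≤ max r0 (2 * (m : ℝ)) := hr0p.trans h1
        linarith
      · linarith
    have h3 : (z.re : ℂ) + z.im * Complex.I ∈ E := h2
    rwa [Complex.re_add_im] at h3
  · intro y y'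
    rw [abs_le]
    have h1 := hlip y y'
    have h2 := hlip y' y
    have h3 := hmax |y - y'| (abs_nonneg _)
    rw [abs_sub_comm y' y] at h1
    constructor
    · linarith
    · linarith

end Pool.Agent.T6.H4.SG
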