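import Pool.Agent.T6.H4.SG.CNV

/-! # Module ONE: one sided test functions -/

set_option autoImplicit false

open Set Metric Filter Topology

noncomputable section

namespace Pool.Agent.T6.H4.SG

namespace ONEx

open CNVx

variable {F : ℂ → ℂ} {K : ℕ → Set ℂ} {N : ℕ}

theorem img_iter (hs : Sys F K N) (n : ℕ) : ∀ w ∈ K n, ∃ u ∈ K 0, F^[n] u = w := by
  induction n with
  | zero => exact fun w hw => ⟨w, hw, rfl⟩
  | succ n ih =>
    intro w hw
    rw [← hs.img n] at hw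
    obtain ⟨v, hv, rfl⟩ := hw
    obtain ⟨u, hu, rfl⟩ := ih v hv
    exact ⟨u, hu, by rw [Function.iterate_succ_apply']⟩

theorem K_add (hs : Sys F K N) {m : ℕ} (t : ℕ) {v : ℂ} (hv : v ∈ K m) : F^[t] v ∈ K (m + t) := by
  induction t with
  | zero => exact hv
  | succ t ih =>
    rw [Function.iterate_succ_apply', ← add_assoc, ← hs.img (m + t)]
    exact mem_image_of_mem F ih

theorem inf_iter (hs : Sys F K N) (t : ℕ) : ∀ R : ℝ, ∃ R' : ℝ, ∀ w ∈ HH, R' ≤ ‖w‖ →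
    R ≤ ‖F^[t] w‖ := by
  induction t with
  | zero => exact fun R => ⟨R, fun w _ h => h⟩
  | succ t ih =>
    intro R
    obtain ⟨R1, h1⟩ := hs.inf R
    obtain ⟨R2, h2⟩ := ih R1
    refine ⟨R2, fun w hw h => ?_⟩
    rw [Function.iterate_succ_apply']
    exact h1 _ (iter_mem hs t hw) (h2 w hw h)

theorem adm_comp (hs : Sys F K N) {q : ℂ → ℂ} (hq : Adm (K 0) q) (t : ℕ) :
    Adm (K 0) (fun v => q (F^[t] v)) := by
  constructor
  · obtain ⟨U, hUo, hKU, hd⟩ := hq.hol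
    refine ⟨HH ∩ F^[t] ⁻¹' U, (iter_diff hs t).continuousOn.isOpen_inter_preimage HH_open hUo,
      ?_, ?_⟩
    · intro v hv
      exact ⟨hs.sub 0 hv, hKU (K_iter hs t hv)⟩
    · exact hd.comp ((iter_diff hs t).mono inter_subset_left) (fun v hv => hv.2)
  · intro ε hε
    obtain ⟨R, hR⟩ := hq.van ε hε
    obtain ⟨R', hR'⟩ := inf_iter hs t R
    exact ⟨R', fun w hw h => hR _ (K_iter hs t hw) (hR' w (hs.sub 0 hw) h)⟩

theorem adm_smul {E : Set ℂ} {q : ℂ → ℂ} (hq : Adm E q) (c : ℂ) : Adm E (fun v => c * q v) := by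
  constructor
  · obtain ⟨U, hUo, hKU, hd⟩ := hq.hol
    exact ⟨U, hUo, hKU, hd.const_mul c⟩
  · intro ε hε
    obtain ⟨R, hR⟩ := hq.van (ε / (‖c‖ + 1)) (by positivity)
    refine ⟨R, fun w hw h => ?_⟩
    have h1 := hR w hw h
    rw [le_div_iff₀ (by positivity)] at h1
    rw [norm_mul]
    nlinarith [norm_nonneg (q w), norm_nonneg c]

theorem adm_add {E : Set ℂ} {p q : ℂ → ℂ} (hp : Adm E p) (hq : Adm E q) :
    Adm E (fun v => p v + q v) := by
  constructor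
  · obtain ⟨U, hUo, hKU, hd⟩ := hp.hol
    obtain ⟨V, hVo, hKV, hd'⟩ := hq.hol
    exact ⟨U ∩ V, hUo.inter hVo, subset_inter hKU hKV,
      (hd.mono inter_subset_left).add (hd'.mono inter_subset_right)⟩
  · intro ε hε
    obtain ⟨R, hR⟩ := hp.van (ε / 2) (by positivity)
    obtain ⟨R', hR'⟩ := hq.van (ε / 2) (by positivity)
    refine ⟨max R R', fun w hw h => ?_⟩
    have h1 := hR w hw ((le_max_left _ _).trans h)
    have h2 := hR' w hw ((le_max_right _ _).trans h)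
    refine (norm_add_le _ _).trans ?_
    linarith

theorem adm_zero {E : Set ℂ} : Adm E (fun _ => 0) := by
  constructor
  · exact ⟨univ, isOpen_univ, subset_univ _, differentiableOn_const _⟩
  · intro ε hε
    exact ⟨0, fun w _ _ => by rw [norm_zero]; exact hε.le⟩

theorem adm_sum {E : Set ℂ} {f : ℕ → ℂ → ℂ} (s : Finset ℕ) (h : ∀ i ∈ s, Adm E (f i)) :
    Adm E (fun v => ∑ i ∈ s, f i v) := by
  classical
  induction s using Finset.induction_on with
  | empty => simpa using adm_zero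
  | insert a s ha ih =>
    simp only [Finset.sum_insert ha]
    exact adm_add (h a (Finset.mem_insert_self _ _))
      (ih fun i hi => h i (Finset.mem_insert_of_mem hi))

/-- the test function -/
def fm (F q : ℂ → ℂ) (N1 B : ℕ) (μ : ℂ) (v : ℂ) : ℂ :=
  ∑ t ∈ Finset.range (N1 + B + 1), μ ^ ((N1 : ℤ) - t) * q (F^[t] v)

theorem adm_fm (hs : Sys F K N) {q : ℂ → ℂ} (hq : Adm (K 0) q) (N1 B : ℕ) (μ : ℂ) :
    Adm (K 0) (fm F q N1 B μ) := by
  unfold fm
  exact adm_sum (f := fun t v => μ ^ ((N1 : ℤ) - t) * q (F^[t] v)) _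
    (fun t _ => adm_smul (adm_comp hs hq t) _)

theorem tele {q : ℂ → ℂ} {N1 B : ℕ} {μ : ℂ} (hμ : μ ≠ 0) (v : ℂ) :
    fm F q N1 B μ (F v) - μ * fm F q N1 B μ v =
      μ ^ (-(B : ℤ)) * q (F^[N1 + B + 1] v) - μ ^ ((N1 : ℤ) + 1) * q v := by
  unfold fm
  rw [Finset.mul_sum, ← Finset.sum_sub_distrib]
  have h1 : ∀ t ∈ Finset.range (N1 + B + 1),
      μ ^ ((N1 : ℤ) - t) * q (F^[t] (F v)) - μ * (μ ^ ((N1 : ℤ) - t) * q (F^[t] v)) =
      (fun t : ℕ => μ ^ ((N1 : ℤ) - t + 1) * q (F^[t] v)) (t + 1) -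
        (fun t : ℕ => μ ^ ((N1 : ℤ) - t + 1) * q (F^[t] v)) t := by
    intro t _
    have h2 : (N1 : ℤ) - ((t + 1 : ℕ) : ℤ) + 1 = (N1 : ℤ) - t := by push_cast; ring
    have h3 : F^[t] (F v) = F^[t + 1] v := (Function.iterate_succ_apply F t v).symm
    simp only [h2, h3]
    rw [zpow_add₀ hμ _ 1, zpow_one]
    ring
  rw [Finset.sum_congr rfl h1, Finset.sum_range_sub (fun t : ℕ => μ ^ ((N1 : ℤ) - t + 1) *
    q (F^[t] v))]
  have h3 : (N1 : ℤ) - ((N1 + B + 1 : ℕ) : ℤ) + 1 = -(B : ℤ) := by push_cast; ring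
  rw [h3]
  simp

theorem fm_eq (q : ℂ → ℂ) (N1 B : ℕ) (μ u : ℂ) :
    fm F q N1 B μ u = ∑ j ∈ Finset.Icc (-(N1 : ℤ)) (B : ℤ),
      q (F^[((N1 : ℤ) + j).toNat] u) * μ ^ (-j) := by
  unfold fm
  refine Finset.sum_nbij' (fun t => (t : ℤ) - N1) (fun j => ((N1 : ℤ) + j).toNat) ?_ ?_ ?_ ?_ ?_
  · intro t ht
    rw [Finset.mem_range] at ht
    rw [Finset.mem_Icc]
    constructor <;> omega
  · intro j hj
    rw [Finset.mem_Icc] at hj
    rw [Finset.mem_range]
    omega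
  · intro t _
    omega
  · intro j hj
    rw [Finset.mem_Icc] at hj
    omega
  · intro t _
    have h1 : ((N1 : ℤ) + ((t : ℤ) - N1)).toNat = t := by omega
    rw [h1, neg_sub, mul_comm]

end ONEx

open CNVx ONEx in
theorem t_ONE (hA : S_ANN) : S_ONE := by
  intro F K N hs l r0 C0 hl0 hl1 hr0 hU
  obtain ⟨K1', hK1, hann⟩ := hA l r0 hl0 hl1 hr0
  obtain ⟨C1, hC1⟩ : ∃ C1, C1 = max C0 1 := ⟨_, rfl⟩
  have hC11 : 1 ≤ C1 := by rw [hC1]; exact le_max_right _ _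
  have hC01 : C0 ≤ C1 := by rw [hC1]; exact le_max_left _ _
  have hlog : 0 ≤ Real.log C1 := Real.log_nonneg hC11
  refine ⟨K1' * (1 + Real.log C1), by positivity, ?_⟩
  intro Cb B N1 q w hCb hB hq hq0 hw hqw hqj
  obtain ⟨u, hu, hFu⟩ := img_iter hs N1 w hw
  have hexp : Real.exp Cb ≤ Real.exp (Cb + Real.log C1) := Real.exp_le_exp.2 (by linarith)
  have hexp2 : Real.exp (Cb + Real.log C1) = C1 * Real.exp Cb := by
    rw [Real.exp_add, Real.exp_log (by linarith)]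
    ring
  have hfin := hann (Cb + Real.log C1) B N1 (fun j => q (F^[((N1 : ℤ) + j).toNat] u))
    (by linarith) hB (by
      have h1 : ((N1 : ℤ) + 0).toNat = N1 := by omega
      rw [h1, hFu, hqw]) (by
      intro j hj
      have h1 : ((N1 : ℤ) + (j : ℤ)).toNat = N1 + j := by omega
      rw [h1]
      have h2 := K_add hs (N1 + j) hu
      rw [zero_add] at h2
      refine (hqj j hj _ h2).trans ?_
      gcongr) (by
      intro j hj
      exact (hq0 _ (K_iter hs _ hu)).trans hexp) (by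
      intro μ hμ hμ1 hμ2
      have hμ0 : 0 < ‖μ‖ := hl0.trans hμ1
      have hμne : μ ≠ 0 := norm_pos_iff.1 hμ0
      rw [← fm_eq (F := F) q N1 B μ u]
      have h1 := hU μ hμ 0 (fm F q N1 B μ)
        (Real.exp Cb * ((‖l‖ / ‖μ‖) ^ B + ‖μ‖ ^ N1)) (adm_fm hs hq N1 B μ) (by
          intro v hv
          rw [tele hμne]
          refine (norm_sub_le _ _).trans ?_
          rw [mul_add]
          apply add_le_add
          · rw [norm_mul, norm_zpow, zpow_neg, zpow_natCast, div_pow]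
            have h2 := K_add hs (N1 + B + 1) hv
            rw [zero_add] at h2
            have h3 := hqj B le_rfl _ (hs.anti _ h2)
            calc (‖μ‖ ^ B)⁻¹ * ‖q (F^[N1 + B + 1] v)‖
                ≤ (‖μ‖ ^ B)⁻¹ * (Real.exp Cb * ‖l‖ ^ B) := by gcongr
              _ = Real.exp Cb * (‖l‖ ^ B / ‖μ‖ ^ B) := by ring
          · rw [norm_mul, norm_zpow]
            have h2 : ‖μ‖ ^ ((N1 : ℤ) + 1) ≤ ‖μ‖ ^ N1 := by
              have h3 : (N1 : ℤ) + 1 = ((N1 + 1 : ℕ) : ℤ) := by push_cast; ring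
              rw [h3, zpow_natCast, pow_succ]
              have := pow_nonneg hμ0.le N1
              nlinarith
            have h4 := hq0 v hv
            calc ‖μ‖ ^ ((N1 : ℤ) + 1) * ‖q v‖ ≤ ‖μ‖ ^ N1 * Real.exp Cb := by
                  gcongr
              _ = Real.exp Cb * ‖μ‖ ^ N1 := by ring) u hu
      refine h1.trans ?_
      rw [hexp2]
      have h5 : 0 ≤ Real.exp Cb * ((‖l‖ / ‖μ‖) ^ B + ‖μ‖ ^ N1) := by positivity
      calc C0 * (Real.exp Cb * ((‖l‖ / ‖μ‖) ^ B + ‖μ‖ ^ N1))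
          ≤ C1 * (Real.exp Cb * ((‖l‖ / ‖μ‖) ^ B + ‖μ‖ ^ N1)) :=
            mul_le_mul_of_nonneg_right hC01 h5
        _ = C1 * Real.exp Cb * ((‖l‖ / ‖μ‖) ^ B + ‖μ‖ ^ N1) := by ring)
  refine hfin.trans ?_
  rw [mul_assoc]
  apply mul_le_mul_of_nonneg_left _ hK1.le
  nlinarith

end Pool.Agent.T6.H4.SG
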