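import Pool.Agent.T6.H4.SG.Stm
import Pool.Agent.H370R2.Rect

/-! # Module RECT (MP_ff3f8e_an): Cauchy formula for a rectangle -/

open Set Metric Filter Topology

noncomputable section

namespace Pool.Agent.T6.H4.SG

theorem t_RECT : S_RECT := by
  intro f z x1 x2 y1 y2 hf h1 h2 h3 h4
  have h := H370.RI_cauchy (h1.trans h2) (h3.trans h4) hf (p := z)
    ⟨⟨h1, h2⟩, ⟨h3, h4⟩⟩
  unfold H370.RI at h
  simp only [H370.mk_eq] at h
  rw [← h]
  simp only [div_eq_mul_inv]

end Pool.Agent.T6.H4.SG
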