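import Pool.Agent.T6.H4.SG.Stm

/-! # Module SEQ (helper71): choice of a good scale for a monotone sequence (MP_ff3f8e_an) -/

set_option autoImplicit false

open Set Metric Filter Topology

noncomputable section

namespace Pool.Agent.T6.H4.SG

namespace SEQx

/-- the condition at the index `N` with the constant `k` -/
def Ok (L C : ℝ) (B : ℕ) (r : ℕ → ℝ) (k : ℝ) (N : ℕ) : Prop :=
  ∀ t : ℕ, N ≤ t + B → t ≤ N + B → ((t : ℝ) - N) * L - C ≤ k * (r t - r N)

/-- good indices -/
def Good (L C : ℝ) (B : ℕ) (r : ℕ → ℝ) (N : ℕ) : Prop := ∃ k : ℝ, 0 < k ∧ Ok L C B r k N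

theorem exit {L C k : ℝ} {B : ℕ} {r : ℕ → ℝ} {lo hi : ℕ} (hC : 0 < C) (hB : 1 ≤ B)
    (hng : ∀ N, lo ≤ N → N ≤ hi → ¬ Ok L C B r k N) :
    ∀ x, lo ≤ x → x ≤ hi → ∃ e : ℕ, ((e < lo ∧ lo ≤ e + B) ∨ (hi < e ∧ e ≤ hi + B)) ∧
      (x : ℝ) * L - k * r x + C * |(e : ℝ) - x| / B ≤ e * L - k * r e := by
  classical
  by_contra hcon
  push Not at hcon
  set S : Finset ℕ := (Finset.Icc lo hi).filter (fun x => ∀ e : ℕ,
    ((e < lo ∧ lo ≤ e + B) ∨ (hi < e ∧ e ≤ hi + B)) →
      (e : ℝ) * L - k * r e < (x : ℝ) * L - k * r x + C * |(e : ℝ) - x| / B) with hS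
  have hne : S.Nonempty := by
    obtain ⟨x, h1, h2, h3⟩ := hcon
    exact ⟨x, by rw [hS, Finset.mem_filter, Finset.mem_Icc]; exact ⟨⟨h1, h2⟩, h3⟩⟩
  obtain ⟨x, hx, hmax⟩ := Finset.exists_max_image S (fun x : ℕ => (x : ℝ) * L - k * r x) hne
  rw [hS, Finset.mem_filter, Finset.mem_Icc] at hx
  obtain ⟨⟨hx1, hx2⟩, hx3⟩ := hx
  have hn := hng x hx1 hx2
  unfold Ok at hn
  push Not at hn
  obtain ⟨t, ht1, ht2, ht3⟩ := hn
  have hBpos : (0 : ℝ) < B := by exact_mod_cast hB
  have hdist : |(t : ℝ) - x| ≤ B := by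
    rw [abs_le]
    have h1 : (x : ℝ) ≤ t + B := by exact_mod_cast ht1
    have h2 : (t : ℝ) ≤ x + B := by exact_mod_cast ht2
    constructor <;> linarith
  have hgain : (x : ℝ) * L - k * r x + C < t * L - k * r t := by nlinarith
  have hCd : C * |(t : ℝ) - x| / B ≤ C := by
    rw [div_le_iff₀ hBpos]
    exact mul_le_mul_of_nonneg_left hdist hC.le
  by_cases htI : lo ≤ t ∧ t ≤ hi
  · -- `t` is in the interval
    have htS : t ∉ S := by
      intro h
      have := hmax t h
      linarith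
    rw [hS, Finset.mem_filter, Finset.mem_Icc] at htS
    push Not at htS
    obtain ⟨e, he1, he2⟩ := htS htI
    have h4 := hx3 e he1
    have h5 : |(e : ℝ) - x| ≤ |(e : ℝ) - t| + |(t : ℝ) - x| := by
      have := abs_add_le ((e : ℝ) - t) ((t : ℝ) - x)
      have e1 : (e : ℝ) - t + ((t : ℝ) - x) = (e : ℝ) - x := by ring
      rwa [e1] at this
    have h6 : C * |(e : ℝ) - x| / B ≤ C * |(e : ℝ) - t| / B + C * |(t : ℝ) - x| / B := by
      rw [← add_div, ← mul_add]
      exact div_le_div_of_nonneg_right (mul_le_mul_of_nonneg_left h5 hC.le) hBpos.le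
    linarith
  · have h4 := hx3 t (by omega)
    linarith

theorem key {L C : ℝ} {B : ℕ} {r : ℕ → ℝ} (hL : 0 < L) (hC : 0 < C) (hB : 1 ≤ B)
    (hr : Monotone r) {p a b : ℕ} (ha : 1 ≤ a) (hp : B + a ≤ p + 1)
    (hng : ∀ N, p + 1 ≤ N + a → N ≤ p + b → ¬ Good L C B r N) :
    r (p + b + 1) - r p ≤ ((b : ℝ) + B) / a * (max 0 (L - C / B) / (L + C / B)) *
      (r p - r (p + 1 - a - B)) := by
  have hBpos : (0 : ℝ) < B := by exact_mod_cast hB
  have hapos : (0 : ℝ) < a := by exact_mod_cast ha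
  have hCB : 0 < C / B := div_pos hC hBpos
  set X := r (p + b + 1) - r p with hX
  set d := r p - r (p + 1 - a - B) with hd
  set a' := (a : ℝ) * (L + C / B) with ha'
  set m' := ((b : ℝ) + B) * max 0 (L - C / B) with hm'
  have hX0 : 0 ≤ X := sub_nonneg.2 (hr (by omega))
  have hd0 : 0 ≤ d := sub_nonneg.2 (hr (by omega))
  have ha0 : 0 < a' := by positivity
  have hm0 : 0 ≤ m' := by positivity
  have main : ∀ k : ℝ, 0 < k → k * d < a' → k * X ≤ m' := by
    intro k hk hkd
    obtain ⟨e, he, hψ⟩ := exit (L := L) (C := C) (k := k) (B := B) (r := r) (lo := p + 1 - a)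
      (hi := p + b) hC hB (fun N h1 h2 hok => hng N (by omega) h2 ⟨k, hk, hok⟩) p (by omega)
      (by omega)
    rcases he with ⟨he1, he2⟩ | ⟨he1, he2⟩
    · -- left exit
      exfalso
      have h1 : (e : ℝ) + a ≤ p := by
        have : e + a ≤ p := by omega
        exact_mod_cast this
      have h2 : |(e : ℝ) - p| = p - e := by
        rw [abs_of_nonpos (by linarith)]
        ring
      rw [h2] at hψ
      have h3 : r (p + 1 - a - B) ≤ r e := hr (by omega)
      have h4 : ((p : ℝ) - e) * (L + C / B) ≤ k * (r p - r e) := by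
        have : C * ((p : ℝ) - e) / B = ((p : ℝ) - e) * (C / B) := by ring
        rw [this] at hψ
        nlinarith
      have h5 : a' ≤ ((p : ℝ) - e) * (L + C / B) := by
        rw [ha']
        exact mul_le_mul_of_nonneg_right (by linarith) (by positivity)
      have h6 : k * (r p - r e) ≤ k * d := mul_le_mul_of_nonneg_left (by rw [hd]; linarith) hk.le
      linarith
    · have h1 : (p : ℝ) + b + 1 ≤ e := by
        have : p + b + 1 ≤ e := by omega
        exact_mod_cast this
      have h1' : (e : ℝ) ≤ p + b + B := by exact_mod_cast he2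
      have hb0 : (0 : ℝ) ≤ b := Nat.cast_nonneg b
      have h2 : |(e : ℝ) - p| = e - p := abs_of_nonneg (by linarith)
      rw [h2] at hψ
      have h3 : r (p + b + 1) ≤ r e := hr (by omega)
      have h4 : k * (r e - r p) ≤ ((e : ℝ) - p) * (L - C / B) := by
        have : C * ((e : ℝ) - p) / B = ((e : ℝ) - p) * (C / B) := by ring
        rw [this] at hψ
        nlinarith
      have h5 : ((e : ℝ) - p) * (L - C / B) ≤ m' := by
        rw [hm']
        calc ((e : ℝ) - p) * (L - C / B) ≤ ((e : ℝ) - p) * max 0 (L - C / B) :=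
              mul_le_mul_of_nonneg_left (le_max_right _ _) (by linarith)
          _ ≤ ((b : ℝ) + B) * max 0 (L - C / B) :=
              mul_le_mul_of_nonneg_right (by linarith) (le_max_left _ _)
      have h6 : k * X ≤ k * (r e - r p) := mul_le_mul_of_nonneg_left (by rw [hX]; linarith) hk.le
      linarith
  have hgoal : X ≤ m' / a' * d := by
    by_contra hcon
    push Not at hcon
    have h1 : m' * d < X * a' := by
      rw [div_mul_eq_mul_div, div_lt_iff₀ ha0] at hcon
      exact hcon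
    have hXpos : 0 < X := by
      by_contra h0
      have : X = 0 := le_antisymm (not_lt.1 h0) hX0
      rw [this, zero_mul] at h1
      exact absurd (mul_nonneg hm0 hd0) (not_le.2 h1)
    rcases hd0.eq_or_lt with hd1 | hd1
    · have h2 := main ((m' + 1) / X) (by positivity) (by rw [← hd1, mul_zero]; exact ha0)
      rw [div_mul_cancel₀ _ hXpos.ne'] at h2
      linarith
    · have h3 : m' / X < a' / d := by
        rw [div_lt_div_iff₀ hXpos hd1]
        linarith
      obtain ⟨k, hk1, hk2⟩ := exists_between h3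
      have hk0 : 0 < k := lt_of_le_of_lt (by positivity) hk1
      have h4 := main k hk0 (by rwa [lt_div_iff₀ hd1] at hk2)
      rw [div_lt_iff₀ hXpos] at hk1
      linarith
  have e : m' / a' = ((b : ℝ) + B) / a * (max 0 (L - C / B) / (L + C / B)) := by
    rw [hm', ha']
    exact mul_div_mul_comm _ _ _ _
  rw [← e]
  exact hgoal

/-- one step of the progression `p - l, p, p + l` -/
theorem step {L C : ℝ} {B : ℕ} {r : ℕ → ℝ} (hL : 0 < L) (hC : 0 < C) (hB : 1 ≤ B)
    (hr : Monotone r) {l p : ℕ} (hl : B ≤ l) (hp : l ≤ p)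
    (hng : ∀ N, B ≤ N → N < p + l → ¬ Good L C B r N) :
    r (p + l) - r p ≤ (((l : ℝ) + B - 1) / (l - B + 1) * (max 0 (L - C / B) / (L + C / B))) *
      (r p - r (p - l)) := by
  have h := key (p := p) (a := l - B + 1) (b := l - 1) hL hC hB hr (by omega) (by omega)
    (fun N h1 h2 => hng N (by omega) (by omega))
  have e1 : p + (l - 1) + 1 = p + l := by omega
  have e2 : p + 1 - (l - B + 1) - B = p - l := by omega
  rw [e1, e2] at h
  have e3 : (((l - 1 : ℕ) : ℝ) + B) = (l : ℝ) + B - 1 := by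
    rw [Nat.cast_sub (by omega)]
    push_cast
    ring
  have e4 : ((l - B + 1 : ℕ) : ℝ) = (l : ℝ) - B + 1 := by
    rw [Nat.cast_add, Nat.cast_sub hl]
    push_cast
    ring
  rw [e3, e4] at h
  exact h

theorem geo {L C : ℝ} {B : ℕ} {r : ℕ → ℝ} (hL : 0 < L) (hC : 0 < C) (hB : 1 ≤ B)
    (hr : Monotone r) {l : ℕ} (hl : B ≤ l) {θ : ℝ} (hθ0 : 0 ≤ θ) (hθ1 : θ < 1)
    (hθ : ((l : ℝ) + B - 1) / (l - B + 1) * (max 0 (L - C / B) / (L + C / B)) = θ)
    {rem M : ℕ} (hng : ∀ N, B ≤ N → N < rem + M * l → ¬ Good L C B r N) :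
    (∀ i, i < M → r (rem + (i + 1) * l) - r (rem + i * l) ≤ θ ^ i * (r (rem + l) - r rem)) ∧
    ∀ i0 j, i0 ≤ j → j ≤ M → r (rem + j * l) - r (rem + i0 * l) ≤
      (θ ^ i0 - θ ^ j) / (1 - θ) * (r (rem + l) - r rem) := by
  have h1 : ∀ i, i < M →
      r (rem + (i + 1) * l) - r (rem + i * l) ≤ θ ^ i * (r (rem + l) - r rem) := by
    intro i
    induction i with
    | zero =>
      intro _
      rw [pow_zero, one_mul, zero_add, one_mul, zero_mul, add_zero]
    | succ i ih =>
      intro hi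
      have h2 := ih (by omega)
      have h3 := step (p := rem + (i + 1) * l) hL hC hB hr hl
        (by nlinarith [Nat.zero_le (rem + i * l)]) (fun N hN1 hN2 => hng N hN1 (by
          have : rem + (i + 1) * l + l ≤ rem + M * l := by
            have : (i + 2) * l ≤ M * l := Nat.mul_le_mul_right l (by omega)
            nlinarith
          omega))
      rw [hθ] at h3
      have e1 : rem + (i + 1) * l + l = rem + (i + 1 + 1) * l := by ring
      have e2 : rem + (i + 1) * l - l = rem + i * l := by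
        have : (i + 1) * l = i * l + l := by ring
        omega
      rw [e1, e2] at h3
      calc r (rem + (i + 1 + 1) * l) - r (rem + (i + 1) * l)
          ≤ θ * (r (rem + (i + 1) * l) - r (rem + i * l)) := h3
        _ ≤ θ * (θ ^ i * (r (rem + l) - r rem)) := mul_le_mul_of_nonneg_left h2 hθ0
        _ = θ ^ (i + 1) * (r (rem + l) - r rem) := by ring
  refine ⟨h1, fun i0 j hij => ?_⟩
  induction j, hij using Nat.le_induction with
  | base => intro _; simp
  | succ j hj ih =>
    intro hjM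
    have h2 := ih (by omega)
    have h3 := h1 j (by omega)
    have h4 : (1 - θ) ≠ 0 := by linarith
    have e : (θ ^ i0 - θ ^ (j + 1)) / (1 - θ) * (r (rem + l) - r rem) =
        (θ ^ i0 - θ ^ j) / (1 - θ) * (r (rem + l) - r rem) + θ ^ j * (r (rem + l) - r rem) := by
      field_simp
      ring
    rw [e]
    linarith

end SEQx

open SEQx in
theorem t_SEQ : S_SEQ := by
  classical
  intro L C B hL hC
  rcases Nat.eq_zero_or_pos B with hB0 | hB
  · subst hB0
    refine ⟨0, fun r hr _ n _ => ⟨n, Nat.zero_le _, 1, one_pos, ?_, fun t h1 h2 => ?_⟩⟩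
    · have := hr (Nat.zero_le n)
      linarith
    · have : t = n := by omega
      subst this
      rw [sub_self, sub_self, zero_mul, mul_zero]
      linarith
  have hB1 : 1 ≤ B := hB
  have hBpos : (0 : ℝ) < B := by exact_mod_cast hB
  have hCB : 0 < C / B := div_pos hC hBpos
  set ρ := max 0 (L - C / B) / (L + C / B) with hρ
  have hρ0 : 0 ≤ ρ := by positivity
  have hρ1 : ρ < 1 := by
    rw [hρ, div_lt_one (by positivity)]
    exact max_lt (by positivity) (by linarith)
  obtain ⟨l, hl⟩ := exists_nat_gt (2 * (B : ℝ) / (1 - ρ))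
  rw [div_lt_iff₀ (by linarith)] at hl
  have hBl : B ≤ l := by
    have h1 : (l : ℝ) * (1 - ρ) ≤ l := by
      have : (0 : ℝ) ≤ l := Nat.cast_nonneg l
      nlinarith
    have h2 : (B : ℝ) ≤ l := by linarith
    exact_mod_cast h2
  have hBlR : (B : ℝ) ≤ l := by exact_mod_cast hBl
  have hl1 : 1 ≤ l := le_trans hB1 hBl
  have hB1R : (1 : ℝ) ≤ B := by exact_mod_cast hB1
  set θ := ((l : ℝ) + B - 1) / (l - B + 1) * ρ with hθ
  have hden : (0 : ℝ) < l - B + 1 := by linarith
  have hθ0 : 0 ≤ θ := by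
    rw [hθ]
    refine mul_nonneg (div_nonneg (by linarith) hden.le) hρ0
  have hθ1 : θ < 1 := by
    rw [hθ, div_mul_eq_mul_div, div_lt_one hden]
    nlinarith
  obtain ⟨q, hq⟩ := exists_pow_lt_of_lt_one (sub_pos.2 hθ1) hθ1
  refine ⟨(q + 3) * l, fun r hr hlim n hn => ?_⟩
  -- a good index exists
  have hex : ∃ N, B ≤ N ∧ Good L C B r N := by
    by_contra hcon
    push Not at hcon
    obtain ⟨T, hT⟩ := (tendsto_atTop.1 hlim (r 0 + 1 / (1 - θ) * (r (0 + l) - r 0) + 1)).exists_forall_of_atTop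
    have h1 := (geo (rem := 0) (M := T) hL hC hB1 hr hBl hθ0 hθ1 rfl
      (fun N hN _ => hcon N hN)).2 0 T (Nat.zero_le _) le_rfl
    have h2 := hT (0 + T * l) (by nlinarith)
    have h3 : (θ ^ 0 - θ ^ T) / (1 - θ) * (r (0 + l) - r 0) ≤ 1 / (1 - θ) * (r (0 + l) - r 0) := by
      refine mul_le_mul_of_nonneg_right ?_ (sub_nonneg.2 (hr (by omega)))
      refine div_le_div_of_nonneg_right ?_ (by linarith)
      have := pow_nonneg hθ0 T
      rw [pow_zero]
      linarith
    rw [zero_mul, add_zero] at h1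
    linarith
  set N := Nat.find hex with hN
  obtain ⟨hNB, k, hk, hok⟩ := Nat.find_spec hex
  have hmin : ∀ N', B ≤ N' → N' < N → ¬ Good L C B r N' := fun N' h1 h2 h3 =>
    Nat.find_min hex h2 ⟨h1, h3⟩
  refine ⟨N, hNB, k, hk, ?_, hok⟩
  have hrn : r 0 ≤ r n := hr (Nat.zero_le n)
  rcases le_or_gt N n with hNn | hNn
  · have := hr hNn
    linarith
  -- the last case
  set rem := N % l with hrem
  set M := N / l with hM
  have hNe : rem + M * l = N := by
    rw [hrem, hM, mul_comm]
    exact Nat.mod_add_div N l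
  have hreml : rem < l := Nat.mod_lt _ (by omega)
  have hg := geo (rem := rem) (M := M) hL hC hB1 hr hBl hθ0 hθ1 rfl
    (fun N' h1 h2 => hmin N' h1 (by rw [hNe] at h2; exact h2))
  set i0 := (n - rem) / l with hi0
  have hln : (q + 3) * l ≤ n := hn
  have hremn : rem ≤ n := by nlinarith
  have hi0n : rem + i0 * l ≤ n := by
    have := Nat.div_mul_le_self (n - rem) l
    rw [← hi0] at this
    omega
  have hi0q : q ≤ i0 := by
    rw [hi0, Nat.le_div_iff_mul_le (by omega)]
    have h9 : (q + 3) * l = q * l + 3 * l := by ring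
    omega
  have hi0M : i0 ≤ M := by
    by_contra hcon
    push Not at hcon
    have : (M + 1) * l ≤ i0 * l := Nat.mul_le_mul_right l hcon
    have h9 : (M + 1) * l = M * l + l := by ring
    omega
  have h2 := hg.2 i0 M hi0M le_rfl
  rw [hNe] at h2
  have h3 : r (rem + i0 * l) ≤ r n := hr hi0n
  have h4 : r (rem + l) - r rem ≤ r n - r 0 := by
    have h5 : r (rem + l) ≤ r n := hr (by nlinarith)
    have h6 : r 0 ≤ r rem := hr (Nat.zero_le _)
    linarith
  have h5 : (θ ^ i0 - θ ^ M) / (1 - θ) ≤ 1 := by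
    rw [div_le_one (by linarith)]
    have h6 : θ ^ i0 ≤ θ ^ q := pow_le_pow_of_le_one hθ0 hθ1.le hi0q
    have h7 := pow_nonneg hθ0 M
    linarith
  have h0 : 0 ≤ r (rem + l) - r rem := sub_nonneg.2 (hr (by omega))
  have h6 : (θ ^ i0 - θ ^ M) / (1 - θ) * (r (rem + l) - r rem) ≤ 1 * (r (rem + l) - r rem) :=
    mul_le_mul_of_nonneg_right h5 h0
  linarith

end Pool.Agent.T6.H4.SG
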