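import Pool.Agent.T6.H4.SG.Stm2
import Pool.Agent.Helper203.DS.Base

/-! # Module SIT: from the shrinking hypothesis to the situation (MP_ff3f8e_an) -/

open Set Metric Filter Topology Pool.Agent.Helper203.DS

noncomputable section

namespace Pool.Agent.T6.H4.SG

theorem t_SIT : S_SIT := by
  intro T P a hC hSh
  obtain ⟨ha, hTZ, hlim, N, hN⟩ := hSh
  have hpe : ∀ (n : ℕ) (z : Pt), ((T ^ n) Z).1 z = ((P^[n] z : Pt) : ℂ) := fun n z => by
    rw [hC.pow, Z_apply]
  have hconv : ∀ ε : ℝ, 0 < ε → ∃ n0 : ℕ, ∀ n : ℕ, n0 ≤ n → ∀ z : Pt,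
      ‖((P^[n] z : Pt) : ℂ) - a‖ < ε := by
    intro ε hε
    rw [Metric.tendsto_atTop] at hlim
    obtain ⟨n0, hn0⟩ := hlim ε hε
    refine ⟨n0, fun n hn z => ?_⟩
    have h1 := hn0 n hn
    rw [dist_eq_norm] at h1
    have h2 := norm_apply_le ((T ^ n) Z - algebraMap ℂ DA a) z
    rw [sub_apply, algMap_apply, hpe] at h2
    linarith
  have hfix : ∀ z : Pt, (z : ℂ) = a → ((P z : Pt) : ℂ) = a := by
    intro z hz
    have h0 : Tendsto (fun n : ℕ => P^[n] z) atTop (𝓝 z) := by
      rw [tendsto_subtype_rng, Metric.tendsto_atTop]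
      intro ε hε
      obtain ⟨n0, hn0⟩ := hconv ε hε
      refine ⟨n0, fun n hn => ?_⟩
      rw [dist_eq_norm]
      have := hn0 n hn z
      rwa [← hz] at this
    have h1 : Tendsto (fun n : ℕ => P (P^[n] z)) atTop (𝓝 (P z)) :=
      (hC.cont.tendsto z).comp h0
    have h2 : Tendsto (fun n : ℕ => P (P^[n] z)) atTop (𝓝 z) := by
      have := h0.comp (tendsto_add_atTop_nat 1)
      refine this.congr fun n => ?_
      exact Function.iterate_succ_apply' P n z
    have h3 := tendsto_nhds_unique h1 h2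
    rw [h3, hz]
  refine ⟨N, ⟨hC, ha, ?_, ?_, hfix, hconv⟩⟩
  · intro z
    have := hN z
    rwa [hpe] at this
  · intro z hz
    have hle : ‖((P z : Pt) : ℂ)‖ ≤ 1 := by
      have := (P z).2
      rwa [mem_closedBall, dist_zero_right] at this
    rcases hle.lt_or_eq with h | h
    · exact h
    exfalso
    have he : ∀ y : Pt, (T Z).1 y = ((P y : Pt) : ℂ) := fun y => by rw [hC.eq, Z_apply]
    have hzb : (z : ℂ) ∈ ball (0 : ℂ) 1 := by simpa using hz
    have hmax : IsMaxOn (norm ∘ ext (T Z).1) (ball (0 : ℂ) 1) (z : ℂ) := by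
      intro y hy
      show ‖ext (T Z).1 y‖ ≤ ‖ext (T Z).1 (z : ℂ)‖
      rw [ext_of_mem _ (ball_subset_closedBall hy), ext_apply, he, he, h]
      have := (P ⟨y, ball_subset_closedBall hy⟩).2
      rwa [mem_closedBall, dist_zero_right] at this
    have hconst := Complex.eqOn_of_isPreconnected_of_isMaxOn_norm
      (convex_ball (0 : ℂ) 1).isPreconnected isOpen_ball (differentiableOn_da (T Z)) hzb hmax
    set c : ℂ := ext (T Z).1 (z : ℂ) with hc
    have hall : ∀ y ∈ closedBall (0 : ℂ) 1, ext (T Z).1 y = c := by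
      have hcl : closure (ball (0 : ℂ) 1) = closedBall (0 : ℂ) 1 :=
        closure_ball (0 : ℂ) one_ne_zero
      have h1 : EqOn (ext (T Z).1) (fun _ => c) (closure (ball (0 : ℂ) 1)) := by
        refine EqOn.of_subset_closure (s := ball (0 : ℂ) 1) hconst ?_ continuousOn_const
          subset_closure subset_rfl
        rw [hcl]
        exact continuousOn_da (T Z)
      intro y hy
      rw [← hcl] at hy
      exact h1 hy
    have hP : ∀ y : Pt, ((P y : Pt) : ℂ) = c := fun y => by
      rw [← he, ← ext_apply (T Z).1 y]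
      exact hall _ y.2
    have hca : c = a := by
      by_contra hne
      obtain ⟨n0, hn0⟩ := hconv ‖c - a‖ (norm_pos_iff.2 (sub_ne_zero.2 hne))
      have h2 := hn0 (n0 + 1) (Nat.le_succ _) z
      rw [Function.iterate_succ_apply', hP] at h2
      exact lt_irrefl _ h2
    apply hTZ
    apply da_ext
    intro y
    rw [he, hP, hca, algMap_apply]

end Pool.Agent.T6.H4.SG
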