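import Pool.Agent.T6.H4.SG.Stm2

/-! # Module SYS (MP_ff3f8e_an): from the situation to the abstract system -/

open Set Metric Filter Topology Pool.Agent.Helper203.DS

noncomputable section

namespace Pool.Agent.T6.H4.SG

namespace SYSx

theorem ne_of_lt {a z : ℂ} (ha : ‖a‖ = 1) (hz : ‖z‖ < 1) : z ≠ a := by
  rintro rfl
  exact absurd ha hz.ne

theorem add_one_ne {w : ℂ} (hw : 0 ≤ w.re) : w + 1 ≠ 0 := by
  intro h
  have := congrArg Complex.re h
  simp at this
  linarith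

theorem cay_pos {a z : ℂ} (ha : ‖a‖ = 1) (hz : ‖z‖ < 1) : 0 < (Cay a z).re := by
  have hne := ne_of_lt ha hz
  rw [cay_re a z ha hne]
  have h1 : 0 < ‖a - z‖ := norm_pos_iff.2 (sub_ne_zero.2 hne.symm)
  have h2 : ‖z‖ ^ 2 < 1 := by
    have := norm_nonneg z
    nlinarith
  have h3 : 0 < 1 - ‖z‖ ^ 2 := by linarith
  positivity

theorem cay_nonneg {a z : ℂ} (ha : ‖a‖ = 1) (hz : ‖z‖ ≤ 1) (hne : z ≠ a) : 0 ≤ (Cay a z).re := by
  rw [cay_re a z ha hne]
  have h2 : ‖z‖ ^ 2 ≤ 1 := by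
    have := norm_nonneg z
    nlinarith
  have h3 : 0 ≤ 1 - ‖z‖ ^ 2 := by linarith
  positivity

theorem cay_norm {a z : ℂ} (ha : ‖a‖ = 1) (hne : z ≠ a) : 2 / ‖z - a‖ - 1 ≤ ‖Cay a z‖ := by
  have h1 : 0 < ‖z - a‖ := norm_pos_iff.2 (sub_ne_zero.2 hne)
  have h2 : 2 - ‖z - a‖ ≤ ‖a + z‖ := by
    have h3 : ‖(2 : ℂ) * a‖ ≤ ‖a + z‖ + ‖z - a‖ := by
      have : (2 : ℂ) * a = (a + z) - (z - a) := by ring
      rw [this]
      exact norm_sub_le _ _
    rw [norm_mul, ha] at h3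
    norm_num at h3
    linarith
  unfold Cay
  rw [norm_div, norm_sub_rev a z, div_sub_one h1.ne']
  exact div_le_div_of_nonneg_right h2 h1.le

variable {T : Op} {P : Pt → Pt} {a : ℂ} {N : ℕ}

theorem ff_eq (z : Pt) (ha : ‖a‖ = 1) (hz : (z : ℂ) ≠ a) :
    FF a P (Cay a z) = Cay a ((P z : Pt) : ℂ) := by
  unfold FF
  rw [ic_cay a z ha hz, ext_apply]

theorem exists_pt (ha : ‖a‖ = 1) {w : ℂ} (hw : w ∈ HH) :
    ∃ z : Pt, (z : ℂ) = ic a w ∧ ‖(z : ℂ)‖ < 1 ∧ Cay a (z : ℂ) = w := by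
  have h1 := ic_norm a w ha hw
  refine ⟨⟨ic a w, ?_⟩, rfl, h1, ?_⟩
  · rw [mem_closedBall_zero_iff]
    exact h1.le
  · exact cay_ic a w ha (add_one_ne (le_of_lt hw))

theorem ext_P (h : IsComp T P) :
    ext (fun z : Pt => ((P z : Pt) : ℂ)) = ext (T Z).1 := by
  congr 1
  funext z
  rw [h.eq, Z_apply]

theorem iter_lt (hs : Sit T P a N) (n : ℕ) (z : Pt) (hz : ‖(z : ℂ)‖ < 1) :
    ‖((P^[n] z : Pt) : ℂ)‖ < 1 := by
  induction n with
  | zero => exact hz
  | succ n ih =>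
    rw [Function.iterate_succ_apply']
    exact hs.inn _ ih

theorem iter_ff (hs : Sit T P a N) (n : ℕ) (z : Pt) (hz : ‖(z : ℂ)‖ < 1) :
    (FF a P)^[n] (Cay a (z : ℂ)) = Cay a ((P^[n] z : Pt) : ℂ) := by
  induction n with
  | zero => rfl
  | succ n ih =>
    rw [Function.iterate_succ_apply', ih, Function.iterate_succ_apply',
      ff_eq _ hs.norm (ne_of_lt hs.norm (iter_lt hs n z hz))]

theorem disc' (hs : Sit T P a N) (n : ℕ) (z : Pt) (hz : ((P^[N + n] z : Pt) : ℂ) ≠ a) :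
    ‖((P^[N + n] z : Pt) : ℂ)‖ < 1 := by
  rw [Function.iterate_add_apply] at hz ⊢
  exact (hs.disc _).resolve_left hz

theorem fix_only (hs : Sit T P a N) (z : Pt) (hz : P z = z) : (z : ℂ) = a := by
  have h1 : ∀ n, P^[n] z = z := fun n => Function.iterate_fixed hz n
  by_contra hne
  have h2 : 0 < ‖(z : ℂ) - a‖ := norm_pos_iff.2 (sub_ne_zero.2 hne)
  obtain ⟨n0, h3⟩ := hs.conv _ h2
  have h4 := h3 n0 le_rfl z
  rw [h1] at h4
  exact lt_irrefl _ h4

end SYSx

open SYSx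

theorem t_SYS (hW : S_WOLFF) : S_SYS := by
  intro T P a N hs
  have ha := hs.norm
  have hcP := hs.comp.cont
  refine ⟨?_, ?_, ?_, ?_, ?_, ?_, ?_, ?_, ?_⟩
  · -- hol
    have h1 : DifferentiableOn ℂ (ic a) HH := by
      intro w hw
      have h2 := add_one_ne (le_of_lt (show 0 < w.re from hw))
      unfold ic
      refine DifferentiableAt.differentiableWithinAt ?_
      fun_prop (disch := exact h2)
    have h2 : MapsTo (ic a) HH (ball (0 : ℂ) 1) := fun w hw => by
      rw [mem_ball_zero_iff]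
      exact ic_norm a w ha hw
    have h3 := (differentiableOn_da (T Z)).comp h1 h2
    have h4 : ∀ w ∈ HH, (ext (T Z).1 ∘ ic a) w ≠ a := by
      intro w hw
      obtain ⟨z, hz1, hz2, -⟩ := exists_pt ha hw
      show ext (T Z).1 (ic a w) ≠ a
      rw [← hz1, ext_apply, hs.comp.eq, Z_apply]
      exact SYSx.ne_of_lt ha (hs.inn z hz2)
    intro w hw
    unfold FF
    rw [ext_P hs.comp]
    unfold Cay
    have h5 := h3 w hw
    have h6 : a - (ext (T Z).1 ∘ ic a) w ≠ 0 := sub_ne_zero.2 (h4 w hw).symm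
    exact ((differentiableWithinAt_const a).add h5).div
      ((differentiableWithinAt_const a).sub h5) h6
  · -- mono
    intro w hw
    obtain ⟨z, hz1, hz2, hz3⟩ := exists_pt ha hw
    have h1 := hW (ext (T Z).1) a (continuousOn_da _) (differentiableOn_da _) (by
      intro u hu
      have h2 := ext_apply (T Z).1 ⟨u, hu⟩
      have h3 : ext (T Z).1 u = ((P ⟨u, hu⟩ : Pt) : ℂ) := by
        rw [show ext (T Z).1 u = (T Z).1 ⟨u, hu⟩ from h2, hs.comp.eq, Z_apply]
      rw [h3]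
      exact (P ⟨u, hu⟩).2) ha (by
      intro u hu h2
      have h3 : ext (T Z).1 u = ((P ⟨u, hu⟩ : Pt) : ℂ) := by
        rw [show ext (T Z).1 u = (T Z).1 ⟨u, hu⟩ from ext_apply (T Z).1 ⟨u, hu⟩, hs.comp.eq,
          Z_apply]
      rw [h3] at h2
      exact fix_only hs ⟨u, hu⟩ (Subtype.ext h2)) z (by
      rw [mem_ball_zero_iff]
      exact hz2)
    have h2 : ext (T Z).1 (z : ℂ) = ((P z : Pt) : ℂ) := by
      rw [ext_apply, hs.comp.eq, Z_apply]
    rw [h2] at h1
    have hzne := SYSx.ne_of_lt ha hz2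
    have hPne := SYSx.ne_of_lt ha (hs.inn z hz2)
    rw [← hz3, ff_eq z ha hzne, cay_re a z ha hzne, cay_re a _ ha hPne]
    have h4 : 0 < ‖a - (z : ℂ)‖ := norm_pos_iff.2 (sub_ne_zero.2 hzne.symm)
    have h5 : 0 < ‖a - ((P z : Pt) : ℂ)‖ := norm_pos_iff.2 (sub_ne_zero.2 hPne.symm)
    rw [div_le_div_iff₀ (by positivity) (by positivity)]
    exact h1
  · -- anti
    rintro n w ⟨z, h1, h2⟩
    have h3 : P^[N + (n + 1)] z = P^[N + n] (P z) := by
      rw [← add_assoc, Function.iterate_succ_apply]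
    rw [h3] at h1 h2
    exact ⟨P z, h1, h2⟩
  · -- closed
    intro n
    have hf : Continuous fun z : Pt => ((P^[N + n] z : Pt) : ℂ) :=
      continuous_subtype_val.comp (hcP.iterate _)
    have hr : IsClosed (range fun z : Pt => ((P^[N + n] z : Pt) : ℂ)) :=
      (isCompact_range hf).isClosed
    have h1 : KS a P N n = {w : ℂ | 0 ≤ w.re} ∩
        ic a ⁻¹' (range fun z : Pt => ((P^[N + n] z : Pt) : ℂ)) := by
      ext w
      constructor
      · rintro ⟨z, hz1, hz2⟩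
        refine ⟨?_, z, ?_⟩
        · show 0 ≤ w.re
          rw [hz2]
          refine cay_nonneg ha ?_ hz1
          have := (P^[N + n] z).2
          rwa [mem_closedBall_zero_iff] at this
        · show ((P^[N + n] z : Pt) : ℂ) = ic a w
          rw [hz2, ic_cay a _ ha hz1]
      · rintro ⟨hw, z, hz⟩
        have hz' : ((P^[N + n] z : Pt) : ℂ) = ic a w := hz
        have h2 : w + 1 ≠ 0 := add_one_ne hw
        refine ⟨z, ?_, ?_⟩
        · rw [hz']
          intro h3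
          have h4 := ic_sub a w ha h2
          rw [h3, sub_self, norm_zero] at h4
          have h5 : 0 < ‖w + 1‖ := norm_pos_iff.2 h2
          have h6 : 0 < 2 / ‖w + 1‖ := by positivity
          linarith
        · rw [hz', cay_ic a w ha h2]
    rw [h1]
    refine ContinuousOn.preimage_isClosed_of_isClosed ?_ ?_ hr
    · intro w hw
      have h2 : w + 1 ≠ 0 := add_one_ne hw
      unfold ic
      refine ContinuousAt.continuousWithinAt ?_
      fun_prop (disch := exact h2)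
    · exact isClosed_le continuous_const Complex.continuous_re
  · -- sub
    rintro n w ⟨z, h1, h2⟩
    rw [h2]
    exact cay_pos ha (disc' hs n z h1)
  · -- img
    intro n
    ext w
    constructor
    · rintro ⟨v, ⟨z, h1, h2⟩, rfl⟩
      have h3 : P^[N + (n + 1)] z = P (P^[N + n] z) := by
        rw [← add_assoc, Function.iterate_succ_apply']
      refine ⟨z, ?_, ?_⟩
      · rw [h3]
        exact SYSx.ne_of_lt ha (hs.inn _ (disc' hs n z h1))
      · rw [h2, ff_eq _ ha h1, h3]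
    · rintro ⟨z, h1, h2⟩
      have h3 : P^[N + (n + 1)] z = P (P^[N + n] z) := by
        rw [← add_assoc, Function.iterate_succ_apply']
      have h4 : ((P^[N + n] z : Pt) : ℂ) ≠ a := by
        intro h5
        apply h1
        rw [h3]
        exact hs.fix _ h5
      refine ⟨_, ⟨z, h4, rfl⟩, ?_⟩
      rw [ff_eq _ ha h4, h2, h3]
  · -- orb
    intro n w hw
    obtain ⟨z, hz1, hz2, hz3⟩ := exists_pt ha hw
    refine ⟨z, SYSx.ne_of_lt ha (iter_lt hs _ z hz2), ?_⟩
    rw [← hz3, iter_ff hs _ z hz2]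
  · -- far
    intro R
    have hε : 0 < 1 / (|R| + 1) := by positivity
    obtain ⟨n0, h1⟩ := hs.conv _ hε
    refine ⟨n0, ?_⟩
    rintro w ⟨z, h2, h3⟩
    have h4 := h1 (N + n0) (by omega) z
    have h5 := cay_norm ha h2
    have h6 : 0 < ‖((P^[N + n0] z : Pt) : ℂ) - a‖ := norm_pos_iff.2 (sub_ne_zero.2 h2)
    rw [h3]
    refine le_trans ?_ h5
    have h7 : 2 * (|R| + 1) ≤ 2 / ‖((P^[N + n0] z : Pt) : ℂ) - a‖ := by
      rw [le_div_iff₀ h6]
      have h8 : 0 < |R| + 1 := by positivity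
      have h9 : (|R| + 1) * ‖((P^[N + n0] z : Pt) : ℂ) - a‖ ≤ 1 := by
        rw [lt_div_iff₀ h8] at h4
        linarith
      linarith
    have h8 := le_abs_self R
    have h9 := abs_nonneg R
    linarith
  · -- inf
    intro R
    have hε : 0 < 1 / (|R| + 1) := by positivity
    have hamem : a ∈ closedBall (0 : ℂ) 1 := by
      rw [mem_closedBall_zero_iff]
      exact ha.le
    have h1 := Metric.continuous_iff.1 hcP ⟨a, hamem⟩ _ hε
    obtain ⟨δ, hδ, h2⟩ := h1
    refine ⟨2 / δ + 2, fun w hw hR => ?_⟩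
    obtain ⟨z, hz1, hz2, hz3⟩ := exists_pt ha hw
    have hw1 := add_one_ne (le_of_lt (show 0 < w.re from hw))
    have h3 : ‖w‖ - 1 ≤ ‖w + 1‖ := by
      have h4 : ‖w‖ ≤ ‖w + 1‖ + ‖(1 : ℂ)‖ := by
        have h5 := norm_sub_le (w + 1) 1
        rwa [add_sub_cancel_right] at h5
      rw [norm_one] at h4
      linarith
    have h4 : ‖(z : ℂ) - a‖ < δ := by
      rw [hz1, ic_sub a w ha hw1, div_lt_comm₀ (norm_pos_iff.2 hw1) hδ]
      linarith
    have h5 : dist (P z) (P ⟨a, hamem⟩) < 1 / (|R| + 1) := by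
      refine h2 z ?_
      rw [Subtype.dist_eq, dist_eq_norm]
      exact h4
    rw [Subtype.dist_eq, dist_eq_norm, hs.fix ⟨a, hamem⟩ rfl] at h5
    have hPne := SYSx.ne_of_lt ha (hs.inn z hz2)
    have h6 : 0 < ‖((P z : Pt) : ℂ) - a‖ := norm_pos_iff.2 (sub_ne_zero.2 hPne)
    rw [← hz3, ff_eq z ha (SYSx.ne_of_lt ha hz2)]
    refine le_trans ?_ (cay_norm ha hPne)
    have h7 : 2 * (|R| + 1) ≤ 2 / ‖((P z : Pt) : ℂ) - a‖ := by
      rw [le_div_iff₀ h6]
      have h8 : 0 < |R| + 1 := by positivity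
      have h9 : (|R| + 1) * ‖((P z : Pt) : ℂ) - a‖ ≤ 1 := by
        rw [lt_div_iff₀ h8] at h5
        linarith
      linarith
    have h8 := le_abs_self R
    have h9 := abs_nonneg R
    linarith

end Pool.Agent.T6.H4.SG
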