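import Pool.Agent.T6.H4.SG.Stm

/-!
# Module TRA: transfer of the two resolvent properties
-/

open Set Metric Filter Topology

noncomputable section

namespace Pool.Agent.T6.H4.SG

namespace TRAx

variable {F Φ Ψ : ℂ → ℂ} {K : ℕ → Set ℂ} {N n m : ℕ} {V : Set ℂ}

theorem isOpen_HH : IsOpen HH := isOpen_lt continuous_const Complex.continuous_re

theorem F_mem (hS : Sys F K N) {w : ℂ} (hw : w ∈ HH) : F w ∈ HH :=
  lt_of_lt_of_le (show 0 < w.re from hw) (hS.mono w hw)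

theorem iter_mem (hS : Sys F K N) {w : ℂ} (hw : w ∈ HH) (j : ℕ) : F^[j] w ∈ HH := by
  induction j with
  | zero => exact hw
  | succ j ih => rw [Function.iterate_succ_apply']; exact F_mem hS ih

theorem abel_iter (hS : Sys F K N) (hab : ∀ w ∈ HH, Φ (F w) = Φ w + 1) {w : ℂ} (hw : w ∈ HH)
    (j : ℕ) : Φ (F^[j] w) = Φ w + j := by
  induction j with
  | zero => simp
  | succ j ih =>
    rw [Function.iterate_succ_apply', hab _ (iter_mem hS hw j), ih]
    push_cast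
    ring

theorem F_memK (hS : Sys F K N) {w : ℂ} (hw : w ∈ K n) : F w ∈ K n :=
  hS.anti n (by rw [← hS.img n]; exact mem_image_of_mem F hw)

theorem adm (hS : Sys F K N) (hF : Fat F K n m Φ Ψ V) {q : ℂ → ℂ} (hq : Adm (Φ '' K n) q) :
    Adm (K n) (fun w => q (Φ w)) := by
  obtain ⟨⟨U, hU, hKU, hqd⟩, hvan⟩ := hq
  refine ⟨⟨HH ∩ Φ ⁻¹' U, hF.hol.continuousOn.isOpen_inter_preimage isOpen_HH hU, ?_, ?_⟩, ?_⟩
  · intro w hw
    exact ⟨hS.sub n hw, hKU (mem_image_of_mem Φ hw)⟩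
  · exact hqd.comp (hF.hol.mono inter_subset_left) fun w hw => hw.2
  · intro ε hε
    obtain ⟨R, hR⟩ := hvan ε hε
    obtain ⟨R', hR'⟩ := hF.prop R
    exact ⟨R', fun w hw h => hR _ (mem_image_of_mem Φ hw) (hR' w hw h)⟩

end TRAx

open TRAx in
theorem t_TRA : S_TRA := by
  intro F K N hS n m Φ Ψ V hF l C0
  constructor
  · rintro h1 q M hq hM z ⟨w, hw, rfl⟩
    refine h1 n (fun w => q (Φ w)) M (adm hS hF hq) (fun v hv => ?_) w hw
    rw [hF.abel v (hS.sub n hv)]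
    exact hM _ (mem_image_of_mem Φ hv)
  · intro h2 g M hg hM
    obtain ⟨f, hfd, hfb, hfe⟩ := h2 n (fun w => g (Φ w)) M (adm hS hF hg)
      (fun w hw => hM _ (mem_image_of_mem Φ hw))
    refine ⟨fun z => f (Ψ z), ⟨V, hF.opn, hF.sub, ?_⟩, ?_, ?_⟩
    · exact hfd.comp hF.holi fun z hz => (hF.mem z hz).1
    · intro z hz
      exact hfb _ (hF.mem z (hF.sub hz)).1
    · rintro z ⟨w, hw, rfl⟩
      have hwH := hS.sub n hw
      have e1 : Ψ (Φ w) = w := hF.inv w hw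
      have e2 : Ψ (Φ w + 1) = F w := by
        rw [← hF.abel w hwH]; exact hF.inv _ (F_memK hS hw)
      have e3 := hfe w hwH
      simp only
      rw [e1, e2, e3, abel_iter hS hF.abel hwH]

end Pool.Agent.T6.H4.SG
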