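import Pool.Agent.T6.H4.SG.Stm

/-! # No dips, no long flat stretches (helper94, module TY1) -/

set_option autoImplicit false

open Set Metric Filter Topology

noncomputable section

namespace Pool.Agent.T6.H4.SG

namespace TY1x

theorem adm_zero (E : Set ℂ) : Adm E (fun _ => 0) :=
  ⟨⟨univ, isOpen_univ, subset_univ _, differentiableOn_const 0⟩, fun ε hε =>
    ⟨0, fun w _ _ => by rw [norm_zero]; exact hε.le⟩⟩

theorem adm_add {E : Set ℂ} {f g : ℂ → ℂ} (hf : Adm E f) (hg : Adm E g) :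
    Adm E (fun z => f z + g z) := by
  obtain ⟨U, hU, hEU, hfU⟩ := hf.hol
  obtain ⟨V, hV, hEV, hgV⟩ := hg.hol
  refine ⟨⟨U ∩ V, hU.inter hV, subset_inter hEU hEV,
    (hfU.mono inter_subset_left).add (hgV.mono inter_subset_right)⟩, fun ε hε => ?_⟩
  obtain ⟨R, hR⟩ := hf.van (ε / 2) (by positivity)
  obtain ⟨R', hR'⟩ := hg.van (ε / 2) (by positivity)
  refine ⟨max R R', fun w hw h => ?_⟩
  have h1 := hR w hw ((le_max_left _ _).trans h)
  have h2 := hR' w hw ((le_max_right _ _).trans h)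
  exact (norm_add_le _ _).trans (by linarith)

theorem adm_mul {E : Set ℂ} {f : ℂ → ℂ} (c : ℂ) (hf : Adm E f) : Adm E (fun z => c * f z) := by
  obtain ⟨U, hU, hEU, hfU⟩ := hf.hol
  refine ⟨⟨U, hU, hEU, hfU.const_mul c⟩, fun ε hε => ?_⟩
  obtain ⟨R, hR⟩ := hf.van (ε / (‖c‖ + 1)) (by positivity)
  refine ⟨R, fun w hw h => ?_⟩
  rw [norm_mul]
  have h1 := hR w hw h
  have h2 : 0 < ‖c‖ + 1 := by positivity
  calc ‖c‖ * ‖f w‖ ≤ (‖c‖ + 1) * (ε / (‖c‖ + 1)) :=
        mul_le_mul (by linarith) h1 (norm_nonneg _) h2.le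
    _ = ε := by field_simp

theorem adm_sum {E : Set ℂ} (s : Finset ℕ) (f : ℕ → ℂ → ℂ) (h : ∀ i ∈ s, Adm E (f i)) :
    Adm E (fun z => ∑ i ∈ s, f i z) := by
  classical
  induction s using Finset.induction_on with
  | empty => simpa using adm_zero E
  | insert a s ha ih =>
    have h1 := adm_add (h a (Finset.mem_insert_self a s))
      (ih fun i hi => h i (Finset.mem_insert_of_mem hi))
    simpa [Finset.sum_insert ha] using h1

theorem avg (η : ℝ) (hη : 0 < η) : ∃ k₀ : ℕ, ∀ k, k₀ ≤ k → ∀ t : ℝ,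
    ∑ i ∈ Finset.range k, 1 / (1 + |t - i|) ≤ η * k := by
  classical
  obtain ⟨p, hp⟩ := exists_nat_gt (2 / η)
  obtain ⟨k₀, hk₀⟩ := exists_nat_gt ((2 * (p : ℝ) + 1) / (η / 2))
  refine ⟨k₀, fun k hk t => ?_⟩
  have hη2 : 0 < η / 2 := by positivity
  rw [div_lt_iff₀ hη] at hp
  rw [div_lt_iff₀ hη2] at hk₀
  have hkk : (k₀ : ℝ) ≤ k := by exact_mod_cast hk
  have hp0 : (0 : ℝ) ≤ p := Nat.cast_nonneg p
  have h1 : ∀ i ∈ Finset.range k, 1 / (1 + |t - i|) ≤
      (if |t - i| ≤ p then 1 else 0) + η / 2 := by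
    intro i _
    have ha : 0 ≤ |t - i| := abs_nonneg _
    by_cases h : |t - i| ≤ p
    · rw [if_pos h]
      have : 1 / (1 + |t - i|) ≤ 1 := by
        rw [div_le_one (by linarith)]
        linarith
      linarith
    · rw [if_neg h, zero_add, div_le_iff₀ (by linarith)]
      push Not at h
      nlinarith
  refine (Finset.sum_le_sum h1).trans ?_
  rw [Finset.sum_add_distrib, Finset.sum_const, Finset.card_range, nsmul_eq_mul,
    Finset.sum_ite, Finset.sum_const_zero, add_zero, Finset.sum_const, nsmul_eq_mul, mul_one]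
  have hcard : ((Finset.range k).filter fun i : ℕ => |t - i| ≤ p).card ≤ 2 * p + 1 := by
    have hsub : ((Finset.range k).filter fun i : ℕ => |t - i| ≤ p).image (fun i : ℕ => (i : ℤ)) ⊆
        Finset.Icc ⌈t - p⌉ ⌊t + p⌋ := by
      intro j hj
      rw [Finset.mem_image] at hj
      obtain ⟨i, hi, rfl⟩ := hj
      rw [Finset.mem_filter, abs_le] at hi
      rw [Finset.mem_Icc]
      refine ⟨Int.ceil_le.2 ?_, Int.le_floor.2 ?_⟩
      · push_cast; linarith [hi.2.2]
      · push_cast; linarith [hi.2.1]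
    have h2 := Finset.card_le_card hsub
    rw [Finset.card_image_of_injective _ Nat.cast_injective, Int.card_Icc] at h2
    refine h2.trans ?_
    have h3 : (⌊t + p⌋ : ℝ) ≤ t + p := Int.floor_le _
    have h4 : t - p ≤ (⌈t - p⌉ : ℝ) := Int.le_ceil _
    have h5 : ((⌊t + p⌋ - ⌈t - p⌉ : ℤ) : ℝ) ≤ ((2 * p : ℤ) : ℝ) := by push_cast; linarith
    have h6 : ⌊t + p⌋ - ⌈t - p⌉ ≤ 2 * p := by exact_mod_cast h5
    omega
  have hcR : (((Finset.range k).filter fun i : ℕ => |t - i| ≤ p).card : ℝ) ≤ 2 * p + 1 := by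
    exact_mod_cast hcard
  have : η / 2 * (k₀ : ℝ) ≤ η / 2 * k := mul_le_mul_of_nonneg_left hkk hη2.le
  linarith

theorem el_lip {E : Set ℂ} {b : ℝ → ℝ} {A : ℝ} (hL : Lft E b A) {ζ : ℂ} (hζ : 0 < ζ.re)
    (y y' : ℝ) : |el b ζ y - el b ζ y'| ≤ ζ.re * A * (1 + |y - y'|) + |ζ.im| * |y - y'| := by
  have h1 := hL.lip y y'
  have h2 : el b ζ y - el b ζ y' = ζ.re * (b y - b y') + -(ζ.im * (y - y')) := by
    unfold el; ring
  rw [h2]
  refine (abs_add_le _ _).trans ?_
  rw [abs_neg, abs_mul, abs_mul, abs_of_pos hζ]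
  have h3 := mul_le_mul_of_nonneg_left h1 hζ.le
  linarith

theorem norm_exp_pt (b : ℝ → ℝ) (A : ℝ) (ζ : ℂ) (y : ℝ) :
    ‖Complex.exp (-(ζ * (⟨b y + A, y⟩ : ℂ)))‖ = Real.exp (-el b ζ y - ζ.re * A) := by
  rw [Complex.norm_exp]
  congr 1
  rw [Complex.neg_re, Complex.mul_re]
  unfold el
  ring

theorem nonneg {E : Set ℂ} {b : ℝ → ℝ} {A : ℝ} (hL : Lft E b A) {l : ℂ} {C0 : ℝ}
    (hU : U1E E l C0) : 0 ≤ C0 := by
  have hz : (⟨b 0 + A, 0⟩ : ℂ) ∈ E := hL.mem _ le_rfl
  have := hU (fun _ => 0) 1 (adm_zero E) (fun z _ => by simp) _ hz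
  rw [norm_zero, mul_one] at this
  exact this

end TY1x

open TY1x in
theorem t_TY1 (hF : S_FUN) : S_TY1 := by
  classical
  intro E b A ζ C0 hL hE1 hζ hU
  have hC0 := nonneg hL hU
  obtain ⟨C1, hC1, hfun⟩ := hF E b A ζ hL hE1 hζ
  have hA : 1 ≤ A := hL.pos
  refine ⟨?_, ?_⟩
  · refine ⟨max (2 * (ζ.re * A) + |ζ.im|) (Real.log (2 * (C0 + 1) * C1) + ζ.re * A), ?_⟩
    intro y1 y0 y2 h01 h02
    set B0 := max (2 * (ζ.re * A) + |ζ.im|) (Real.log (2 * (C0 + 1) * C1) + ζ.re * A) with hB0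
    have hB1 : 2 * (ζ.re * A) + |ζ.im| ≤ B0 := le_max_left _ _
    have hB2 : Real.log (2 * (C0 + 1) * C1) + ζ.re * A ≤ B0 := le_max_right _ _
    have hnear : ∀ y : ℝ, |y0 - y| ≤ 1 → el b ζ y - B0 ≤ el b ζ y0 := by
      intro y hy
      have h := el_lip hL hζ y0 y
      have hζA : 0 ≤ ζ.re * A := by positivity
      have h3 : ζ.re * A * (1 + |y0 - y|) ≤ ζ.re * A * 2 :=
        mul_le_mul_of_nonneg_left (by linarith) hζA
      have h4 : |ζ.im| * |y0 - y| ≤ |ζ.im| * 1 := mul_le_mul_of_nonneg_left hy (abs_nonneg _)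
      have h5 := (abs_le.1 h).1
      linarith
    rcases lt_or_ge (y0 - y1) 1 with c1 | c1
    · have := hnear y1 (by rw [abs_of_nonneg (by linarith)]; exact c1.le)
      linarith [min_le_left (el b ζ y1) (el b ζ y2)]
    rcases lt_or_ge (y2 - y0) 1 with c2 | c2
    · have := hnear y2 (by rw [abs_of_nonpos (by linarith)]; linarith)
      linarith [min_le_right (el b ζ y1) (el b ζ y2)]
    obtain ⟨f, hfA, hf1, hf2⟩ := hfun y1 y2 (by linarith)
    set μ := min (el b ζ y1) (el b ζ y2) with hμ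
    have hM : ∀ z : ℂ, C1 * (Real.exp (-el b ζ y1) / (1 + |z.im - y1|) +
        Real.exp (-el b ζ y2) / (1 + |z.im - y2|)) ≤ C1 * (2 * Real.exp (-μ)) := by
      intro z
      apply mul_le_mul_of_nonneg_left _ hC1.le
      have e1 : Real.exp (-el b ζ y1) / (1 + |z.im - y1|) ≤ Real.exp (-μ) := by
        refine (div_le_self (Real.exp_pos _).le (by linarith [abs_nonneg (z.im - y1)])).trans ?_
        exact Real.exp_le_exp.2 (by linarith [min_le_left (el b ζ y1) (el b ζ y2)])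
      have e2 : Real.exp (-el b ζ y2) / (1 + |z.im - y2|) ≤ Real.exp (-μ) := by
        refine (div_le_self (Real.exp_pos _).le (by linarith [abs_nonneg (z.im - y2)])).trans ?_
        exact Real.exp_le_exp.2 (by linarith [min_le_right (el b ζ y1) (el b ζ y2)])
      linarith
    have hfb := hU f (C1 * (2 * Real.exp (-μ))) hfA (fun z hz => (hf1 z hz).trans (hM z))
    have hz : (⟨b y0 + A, y0⟩ : ℂ) ∈ E := hL.mem _ le_rfl
    have h1 := hfb _ hz
    have h2 := (hf2 _ hz (by change y1 + 1 ≤ y0; linarith) (by change y0 ≤ y2 - 1; linarith)).trans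
      (hM _)
    have h3 : Real.exp (-el b ζ y0 - ζ.re * A) ≤ 2 * (C0 + 1) * C1 * Real.exp (-μ) := by
      rw [← norm_exp_pt]
      have h4 := norm_sub_norm_le (Complex.exp (-(ζ * (⟨b y0 + A, y0⟩ : ℂ)))) (f ⟨b y0 + A, y0⟩)
      rw [norm_sub_rev] at h2
      linarith
    have hpos : 0 < 2 * (C0 + 1) * C1 := by positivity
    have h5 := Real.log_le_log (Real.exp_pos _) h3
    rw [Real.log_exp, Real.log_mul hpos.ne' (Real.exp_pos _).ne', Real.log_exp] at h5
    linarith
  · intro B2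
    obtain ⟨δ, hδ⟩ : ∃ δ, δ = Real.exp (-B2 - ζ.re * A) / (C1 * Real.exp B2) := ⟨_, rfl⟩
    have hδ0 : 0 < δ := by rw [hδ]; positivity
    have hη : 0 < δ / (4 * (C0 + 1)) := by positivity
    obtain ⟨k₀, hk₀⟩ := avg _ hη
    obtain ⟨k₁, hk₁⟩ := exists_nat_gt (4 / δ)
    obtain ⟨k, hkk₀, hkk₁, hk1⟩ : ∃ k : ℕ, k₀ ≤ k ∧ k₁ ≤ k ∧ 1 ≤ k :=
      ⟨max (max k₀ k₁) 1, (le_max_left _ _).trans (le_max_left _ _),
        (le_max_right _ _).trans (le_max_left _ _), le_max_right _ _⟩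
    have hkR : (0 : ℝ) < k := by exact_mod_cast hk1
    refine ⟨4 * k + 2, ?_⟩
    intro α β hαβ hflat
    by_contra hcon
    push Not at hcon
    set e0 := Real.exp (-el b ζ α) with he0
    have hexp : ∀ y ∈ Icc α β, Real.exp (-el b ζ y) ≤ Real.exp B2 * e0 := by
      intro y hy
      rw [he0, ← Real.exp_add]
      apply Real.exp_le_exp.2
      have := (abs_le.1 (hflat y hy)).1
      linarith
    have hchoose : ∀ i : ℕ, ∃ f : ℂ → ℂ, i < k → Adm E f ∧
        (∀ z ∈ E, ‖f (z + 1) - Complex.exp (-ζ) * f z‖ ≤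
          C1 * (Real.exp (-el b ζ (α + i)) / (1 + |z.im - (α + i)|) +
            Real.exp (-el b ζ (β - i)) / (1 + |z.im - (β - i)|))) ∧
        (∀ z ∈ E, (α + i) + 1 ≤ z.im → z.im ≤ (β - i) - 1 → ‖f z - Complex.exp (-(ζ * z))‖ ≤
          C1 * (Real.exp (-el b ζ (α + i)) / (1 + |z.im - (α + i)|) +
            Real.exp (-el b ζ (β - i)) / (1 + |z.im - (β - i)|))) := by
      intro i
      by_cases hi : i < k
      · have hiR : (i : ℝ) < k := by exact_mod_cast hi
        obtain ⟨f, hf⟩ := hfun (α + i) (β - i) (by linarith)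
        exact ⟨f, fun _ => hf⟩
      · exact ⟨0, fun h => absurd h hi⟩
    choose f hf using hchoose
    have hik : ∀ i ∈ Finset.range k, i < k := fun i hi => Finset.mem_range.1 hi
    have hE1' : ∀ i : ℕ, i < k → Real.exp (-el b ζ (α + i)) ≤ Real.exp B2 * e0 ∧
        Real.exp (-el b ζ (β - i)) ≤ Real.exp B2 * e0 := by
      intro i hi
      have hiR : (i : ℝ) < k := by exact_mod_cast hi
      have hi0 : (0 : ℝ) ≤ i := Nat.cast_nonneg i
      exact ⟨hexp _ ⟨by linarith, by linarith⟩, hexp _ ⟨by linarith, by linarith⟩⟩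
    have hW : 0 < Real.exp B2 * e0 := mul_pos (Real.exp_pos _) (Real.exp_pos _)
    let F : ℂ → ℂ := fun z => (1 / (k : ℂ)) * ∑ i ∈ Finset.range k, f i z
    have hFA : Adm E F := adm_mul _ (adm_sum _ _ fun i hi => (hf i (hik i hi)).1)
    have hknorm : ‖(1 / (k : ℂ))‖ = 1 / k := by
      rw [norm_div, norm_one, Complex.norm_natCast]
    have hbd : ∀ z ∈ E, ‖F (z + 1) - Complex.exp (-ζ) * F z‖ ≤
        C1 * (Real.exp B2 * e0) * (2 * (δ / (4 * (C0 + 1)))) := by
      intro z hz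
      have e1 : F (z + 1) - Complex.exp (-ζ) * F z =
          (1 / (k : ℂ)) * ∑ i ∈ Finset.range k, (f i (z + 1) - Complex.exp (-ζ) * f i z) := by
        simp only [F, Finset.sum_sub_distrib, ← Finset.mul_sum]
        ring
      rw [e1, norm_mul, hknorm]
      have e2 : ‖∑ i ∈ Finset.range k, (f i (z + 1) - Complex.exp (-ζ) * f i z)‖ ≤
          C1 * (Real.exp B2 * e0) * (∑ i ∈ Finset.range k, 1 / (1 + |(z.im - α) - i|) +
            ∑ i ∈ Finset.range k, 1 / (1 + |(β - z.im) - i|)) := by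
        refine (norm_sum_le _ _).trans ?_
        rw [← Finset.sum_add_distrib, Finset.mul_sum]
        refine Finset.sum_le_sum fun i hi => ?_
        refine ((hf i (hik i hi)).2.1 z hz).trans ?_
        rw [mul_assoc]
        apply mul_le_mul_of_nonneg_left _ hC1.le
        obtain ⟨g1, g2⟩ := hE1' i (hik i hi)
        have a1 : |z.im - (α + i)| = |(z.im - α) - i| := by congr 1; ring
        have a2 : |z.im - (β - i)| = |(β - z.im) - i| := by rw [abs_sub_comm]; congr 1; ring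
        rw [a1, a2, mul_add]
        have b1 : 0 < 1 + |(z.im - α) - i| := by positivity
        have b2 : 0 < 1 + |(β - z.im) - i| := by positivity
        refine add_le_add ?_ ?_
        · rw [mul_one_div]
          exact div_le_div_of_nonneg_right g1 b1.le
        · rw [mul_one_div]
          exact div_le_div_of_nonneg_right g2 b2.le
      have e3 := hk₀ k hkk₀ (z.im - α)
      have e4 := hk₀ k hkk₀ (β - z.im)
      calc 1 / (k : ℝ) * ‖∑ i ∈ Finset.range k, (f i (z + 1) - Complex.exp (-ζ) * f i z)‖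
          ≤ 1 / (k : ℝ) * (C1 * (Real.exp B2 * e0) * (δ / (4 * (C0 + 1)) * k +
            δ / (4 * (C0 + 1)) * k)) := by
            apply mul_le_mul_of_nonneg_left _ (by positivity)
            refine e2.trans ?_
            apply mul_le_mul_of_nonneg_left _ (by positivity)
            exact add_le_add e3 e4
        _ = C1 * (Real.exp B2 * e0) * (2 * (δ / (4 * (C0 + 1)))) := by
            field_simp
            ring
    have hFb := hU F _ hFA hbd
    obtain ⟨y0, hy0⟩ : ∃ y0, y0 = (α + β) / 2 := ⟨_, rfl⟩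
    have hy0m : y0 ∈ Icc α β := ⟨by rw [hy0]; linarith, by rw [hy0]; linarith⟩
    have hz : (⟨b y0 + A, y0⟩ : ℂ) ∈ E := hL.mem _ le_rfl
    have h1 := hFb _ hz
    have h2 : ‖F ⟨b y0 + A, y0⟩ - Complex.exp (-(ζ * (⟨b y0 + A, y0⟩ : ℂ)))‖ ≤
        C1 * (Real.exp B2 * e0) * (2 / k) := by
      set z : ℂ := ⟨b y0 + A, y0⟩ with hzdef
      have hzim : z.im = y0 := rfl
      have e1 : F z - Complex.exp (-(ζ * z)) =
          (1 / (k : ℂ)) * ∑ i ∈ Finset.range k, (f i z - Complex.exp (-(ζ * z))) := by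
        have hkC : (k : ℂ) ≠ 0 := by exact_mod_cast hkR.ne'
        simp only [F, Finset.sum_sub_distrib, Finset.sum_const, Finset.card_range, nsmul_eq_mul]
        field_simp
      rw [e1, norm_mul, hknorm]
      have e2 : ‖∑ i ∈ Finset.range k, (f i z - Complex.exp (-(ζ * z)))‖ ≤
          ∑ _i ∈ Finset.range k, C1 * (Real.exp B2 * e0) * (2 / k) := by
        refine (norm_sum_le _ _).trans (Finset.sum_le_sum fun i hi => ?_)
        have hi' := hik i hi
        have hiR : (i : ℝ) + 1 ≤ k := by exact_mod_cast hi'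
        have hi0 : (0 : ℝ) ≤ i := Nat.cast_nonneg i
        refine ((hf i hi').2.2 z hz (by rw [hzim, hy0]; linarith)
          (by rw [hzim, hy0]; linarith)).trans ?_
        rw [mul_assoc]
        apply mul_le_mul_of_nonneg_left _ hC1.le
        obtain ⟨g1, g2⟩ := hE1' i hi'
        rw [hzim]
        have a1 : (k : ℝ) ≤ 1 + |y0 - (α + i)| := by
          rw [abs_of_nonneg (by rw [hy0]; linarith), hy0]
          linarith
        have a2 : (k : ℝ) ≤ 1 + |y0 - (β - i)| := by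
          rw [abs_of_nonpos (by rw [hy0]; linarith), hy0]
          linarith
        have b1 : Real.exp (-el b ζ (α + i)) / (1 + |y0 - (α + i)|) ≤ Real.exp B2 * e0 / k :=
          div_le_div₀ hW.le g1 hkR a1
        have b2 : Real.exp (-el b ζ (β - i)) / (1 + |y0 - (β - i)|) ≤ Real.exp B2 * e0 / k :=
          div_le_div₀ hW.le g2 hkR a2
        calc _ ≤ Real.exp B2 * e0 / k + Real.exp B2 * e0 / k := add_le_add b1 b2
          _ = Real.exp B2 * e0 * (2 / k) := by ring
      rw [Finset.sum_const, Finset.card_range, nsmul_eq_mul] at e2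
      calc 1 / (k : ℝ) * ‖∑ i ∈ Finset.range k, (f i z - Complex.exp (-(ζ * z)))‖
          ≤ 1 / (k : ℝ) * (k * (C1 * (Real.exp B2 * e0) * (2 / k))) :=
            mul_le_mul_of_nonneg_left e2 (by positivity)
        _ = C1 * (Real.exp B2 * e0) * (2 / k) := by field_simp
    have h3 : Real.exp (-el b ζ y0 - ζ.re * A) ≤
        C1 * (Real.exp B2 * e0) * (2 / k) +
          C0 * (C1 * (Real.exp B2 * e0) * (2 * (δ / (4 * (C0 + 1))))) := by
      rw [← norm_exp_pt]
      have h4 := norm_sub_norm_le (Complex.exp (-(ζ * (⟨b y0 + A, y0⟩ : ℂ)))) (F ⟨b y0 + A, y0⟩)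
      rw [norm_sub_rev] at h2
      linarith
    have h5 : Real.exp (-B2 - ζ.re * A) * e0 ≤ Real.exp (-el b ζ y0 - ζ.re * A) := by
      rw [he0, ← Real.exp_add]
      apply Real.exp_le_exp.2
      have := (abs_le.1 (hflat y0 hy0m)).2
      linarith
    have he0' : 0 < e0 := Real.exp_pos _
    have h6 : Real.exp (-B2 - ζ.re * A) = δ * (C1 * Real.exp B2) := by
      rw [hδ]
      field_simp
    have h7 : δ ≤ 2 / k + C0 * (2 * (δ / (4 * (C0 + 1)))) := by
      have h8 := h5.trans h3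
      rw [h6] at h8
      have h9 : 0 < C1 * Real.exp B2 * e0 := by positivity
      have h10 : (C1 * Real.exp B2 * e0) * δ ≤
          (C1 * Real.exp B2 * e0) * (2 / k + C0 * (2 * (δ / (4 * (C0 + 1))))) := by
        linarith
      exact le_of_mul_le_mul_left h10 h9
    have h8 : C0 * (2 * (δ / (4 * (C0 + 1)))) ≤ δ / 2 := by
      have : C0 * (2 * (δ / (4 * (C0 + 1)))) = δ / 2 * (C0 / (C0 + 1)) := by
        field_simp
        ring
      rw [this]
      have h9 : C0 / (C0 + 1) ≤ 1 := by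
        rw [div_le_one (by positivity)]
        linarith
      have h10 : 0 ≤ C0 / (C0 + 1) := by positivity
      nlinarith
    have h9 : 2 / (k : ℝ) < δ / 2 := by
      have h10 : 4 / δ < k := lt_of_lt_of_le hk₁ (by exact_mod_cast hkk₁)
      rw [div_lt_iff₀ hδ0] at h10
      rw [div_lt_iff₀ hkR]
      linarith
    linarith

end Pool.Agent.T6.H4.SG
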