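import Pool.Agent.T6.H4.SG.TY1

/-! # No bumps (helper94, module TY2) -/

set_option autoImplicit false

open Set Metric Filter Topology

noncomputable section

namespace Pool.Agent.T6.H4.SG

namespace TY2x

open Complex in
theorem shift_id {G : ℂ → ℂ} {a X y : ℝ} (haX : a ≤ X)
    (hc : ContinuousOn (fun x : ℝ => G (x + y * I)) (Icc a (X + 1))) :
    (∫ x in a..X, G (x + y * I + 1)) - ∫ x in a..X, G (x + y * I) =
      (∫ x in X..(X + 1), G (x + y * I)) - ∫ x in a..(a + 1), G (x + y * I) := by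
  have hint : ∀ c d : ℝ, a ≤ c → c ≤ X + 1 → a ≤ d → d ≤ X + 1 →
      IntervalIntegrable (fun x : ℝ => G (x + y * I)) MeasureTheory.volume c d := by
    intro c d h1 h2 h3 h4
    apply ContinuousOn.intervalIntegrable
    refine hc.mono ?_
    intro t ht
    rw [mem_uIcc] at ht
    rcases ht with ht | ht
    · exact ⟨h1.trans ht.1, ht.2.trans h4⟩
    · exact ⟨h3.trans ht.1, ht.2.trans h2⟩
  have e1 : (∫ x in a..X, G (x + y * I + 1)) = ∫ x in (a + 1)..(X + 1), G (x + y * I) := by
    have := intervalIntegral.integral_comp_add_right (a := a) (b := X)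
      (fun x : ℝ => G (x + y * I)) 1
    rw [← this]
    apply intervalIntegral.integral_congr
    intro x _
    change G (x + y * I + 1) = G ((x + 1 : ℝ) + y * I)
    congr 1
    push_cast
    ring
  rw [e1]
  have e2 := intervalIntegral.integral_add_adjacent_intervals
    (hint a (a + 1) le_rfl (by linarith) (by linarith) (by linarith))
    (hint (a + 1) (X + 1) (by linarith) (by linarith) (by linarith) le_rfl)
  have e3 := intervalIntegral.integral_add_adjacent_intervals
    (hint a X le_rfl (by linarith) haX (by linarith))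
    (hint X (X + 1) haX (by linarith) (by linarith) le_rfl)
  linear_combination e2 - e3

theorem exp_int {r : ℝ} (hr : 0 < r) (c x a : ℝ) :
    ∫ t in x..a, Real.exp (r * t + c) ≤ Real.exp (r * a + c) / r := by
  have h : ∀ t ∈ uIcc x a, HasDerivAt (fun t => Real.exp (r * t + c) / r)
      (Real.exp (r * t + c)) t := by
    intro t _
    have h1 : HasDerivAt (fun t : ℝ => r * t + c) r t := by
      simpa using ((hasDerivAt_id t).const_mul r).add_const c
    refine (h1.exp.div_const r).congr_deriv ?_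
    field_simp
  rw [intervalIntegral.integral_eq_sub_of_hasDerivAt h
    (Continuous.intervalIntegrable (by fun_prop) _ _)]
  have : 0 < Real.exp (r * x + c) / r := by positivity
  linarith

open Complex in
theorem norm_exp_mul (ζ : ℂ) (x y : ℝ) :
    ‖Complex.exp (ζ * (x + y * I))‖ = Real.exp (ζ.re * x + -(ζ.im * y)) := by
  rw [Complex.norm_exp]
  congr 1
  simp [Complex.mul_re]
  ring

open Complex in
/-- the part of the horizontal line to the left of `a` -/
theorem left_bound {ζ p : ℂ} (hζ : 0 < ζ.re) {x a y : ℝ} (hxa : x ≤ a) (hy : 1 ≤ |y - p.im|) :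
    ‖∫ t in x..a, Complex.exp (ζ * (t + y * I)) / (t + y * I - p)‖ ≤
      Real.exp (ζ.re * a + -(ζ.im * y)) / ζ.re := by
  refine (intervalIntegral.norm_integral_le_integral_norm hxa).trans ?_
  refine le_trans ?_ (exp_int hζ (-(ζ.im * y)) x a)
  have hne : ∀ t : ℝ, (1 : ℝ) ≤ ‖(t : ℂ) + y * I - p‖ := by
    intro t
    refine hy.trans ?_
    have h := Complex.abs_im_le_norm ((t : ℂ) + y * I - p)
    simpa using h
  apply intervalIntegral.integral_mono_on hxa
  · apply ContinuousOn.intervalIntegrable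
    apply ContinuousOn.norm
    apply ContinuousOn.div
    · fun_prop
    · fun_prop
    · intro t _ h0
      have := hne t
      rw [h0, norm_zero] at this
      linarith
  · exact Continuous.intervalIntegrable (by fun_prop) _ _
  · intro t _
    rw [norm_div, norm_exp_mul]
    exact div_le_self (Real.exp_pos _).le (hne t)

end TY2x

open TY1x TY2x Complex in
theorem t_TY2 (hR : S_RECT) : S_TY2 := by
  intro E b A ζ C0 N hL hE1 hζ hU
  have hA : 1 ≤ A := hL.pos
  have hC0 : 0 ≤ C0 := by
    obtain ⟨f, -, hf, -⟩ := hU (fun _ => 0) 1 (adm_zero E) (fun z _ => by simp)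
    have hz : (⟨b 0 + A, 0⟩ : ℂ) ∈ E := hL.mem _ le_rfl
    have := (norm_nonneg _).trans (hf _ hz)
    linarith
  obtain ⟨A', hA'⟩ : ∃ A' : ℝ, A' = 2 * A + 1 := ⟨_, rfl⟩
  obtain ⟨C, hC⟩ : ∃ C : ℝ, C = Real.exp (ζ.re * (A' + N)) * (C0 * Real.exp (ζ.re * (A + 1)) +
    Real.exp (ζ.re * A) / ζ.re + 1) := ⟨_, rfl⟩
  have hCpos : 0 < C := by rw [hC]; positivity
  refine ⟨max (2 * (ζ.re * A) + |ζ.im|) (Real.log (2 * C)), ?_⟩
  intro y1 y0 y2 h01 h02
  set B0 := max (2 * (ζ.re * A) + |ζ.im|) (Real.log (2 * C)) with hB0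
  have hB1 : 2 * (ζ.re * A) + |ζ.im| ≤ B0 := le_max_left _ _
  have hB2 : Real.log (2 * C) ≤ B0 := le_max_right _ _
  have hnear : ∀ y : ℝ, |y0 - y| ≤ 1 → el b ζ y0 ≤ el b ζ y + B0 := by
    intro y hy
    have h := el_lip hL hζ y0 y
    have hζA : 0 ≤ ζ.re * A := by positivity
    have h3 : ζ.re * A * (1 + |y0 - y|) ≤ ζ.re * A * 2 :=
      mul_le_mul_of_nonneg_left (by linarith) hζA
    have h4 : |ζ.im| * |y0 - y| ≤ |ζ.im| * 1 := mul_le_mul_of_nonneg_left hy (abs_nonneg _)
    have h5 := (abs_le.1 h).2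
    linarith
  rcases lt_or_ge (y0 - y1) 1 with c1 | c1
  · have := hnear y1 (by rw [abs_of_nonneg (by linarith)]; exact c1.le)
    linarith [le_max_left (el b ζ y1) (el b ζ y2)]
  rcases lt_or_ge (y2 - y0) 1 with c2 | c2
  · have := hnear y2 (by rw [abs_of_nonpos (by linarith)]; linarith)
    linarith [le_max_right (el b ζ y1) (el b ζ y2)]
  -- the pole
  let a : ℂ := ⟨b y0 - A', y0⟩
  have hzE : ∀ z ∈ E, 1 ≤ ‖z - a‖ := by
    intro z hz
    rcases le_or_gt 1 |z.im - y0| with h | h
    · exact h.trans (Complex.abs_im_le_norm (z - a))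
    · have h1 := hL.low z hz
      have h2 := (abs_le.1 (hL.lip z.im y0)).1
      have h3 : A * (1 + |z.im - y0|) ≤ A * 2 :=
        mul_le_mul_of_nonneg_left (by linarith) (by linarith)
      have h4 : 1 ≤ (z - a).re := by
        change 1 ≤ z.re - (b y0 - A')
        rw [hA']
        linarith
      exact h4.trans ((le_abs_self _).trans (Complex.abs_re_le_norm _))
  have hgA : Adm E (fun z => 1 / (z - a)) := by
    refine ⟨⟨{z | z ≠ a}, isOpen_ne, fun z hz h => ?_, fun z hz => ?_⟩, fun ε hε => ?_⟩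
    · have := hzE z hz
      rw [h, sub_self, norm_zero] at this
      linarith
    · have h0 : z - a ≠ 0 := sub_ne_zero.2 hz
      exact ((differentiableAt_const 1).div (differentiableAt_id.sub_const a) h0).differentiableWithinAt
    · refine ⟨1 / ε + ‖a‖, fun z hz hzR => ?_⟩
      have h1 : 1 / ε ≤ ‖z - a‖ := by
        have := norm_sub_norm_le z a
        linarith
      rw [norm_div, norm_one]
      rw [div_le_iff₀ (by linarith [hzE z hz])]
      rw [div_le_iff₀ hε] at h1
      linarith
  obtain ⟨f, ⟨V, hV, hEV, hfV⟩, hfb, hfe⟩ := hU _ 1 hgA (fun z hz => by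
    rw [norm_div, norm_one]
    exact div_le_one_of_le₀ (hzE z hz) (norm_nonneg _))
  rw [mul_one] at hfb
  let p : ℂ := a - N
  have hpre : p.re = b y0 - A' - N := by simp [p, a]
  have hpim : p.im = y0 := by simp [p, a]
  let G : ℂ → ℂ := fun z => Complex.exp (ζ * z) * f z
  have hGV : DifferentiableOn ℂ G V :=
    (Complex.differentiable_exp.comp (differentiable_id.const_mul ζ)).differentiableOn.mul hfV
  let h : ℂ → ℂ := fun z => Complex.exp (ζ * z) / (z - p)
  have hhG : ∀ z ∈ E, h z = Complex.exp (-ζ) * (G (z + 1) - G z) := by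
    intro z hz
    have h1 := hfe z hz
    have h2 : h z = Complex.exp (ζ * z) * (1 / (z + N - a)) := by
      change Complex.exp (ζ * z) / (z - (a - N)) = _
      rw [mul_one_div]
      congr 1
      ring
    rw [h2, ← h1]
    have h3 : Complex.exp (ζ * (z + 1)) = Complex.exp (ζ * z) * Complex.exp ζ := by
      rw [← Complex.exp_add]; congr 1; ring
    have h4 : Complex.exp (-ζ) * Complex.exp ζ = 1 := by
      rw [← Complex.exp_add]; simp
    change _ = Complex.exp (-ζ) * (Complex.exp (ζ * (z + 1)) * f (z + 1) -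
      Complex.exp (ζ * z) * f z)
    rw [h3]
    linear_combination (-(Complex.exp (ζ * z) * f (z + 1))) * h4
  -- the right side of the rectangle
  obtain ⟨X, hXdef⟩ : ∃ X : ℝ, X = |b y1| + |b y2| + A * (1 + (y2 - y1)) + A + 1 := ⟨_, rfl⟩
  have hXy : ∀ y, y1 ≤ y → y ≤ y2 → b y + A + 1 ≤ X := by
    intro y h1 h2
    have h3 := (abs_le.1 (hL.lip y y1)).2
    rw [abs_of_nonneg (by linarith)] at h3
    have h4 : A * (1 + (y - y1)) ≤ A * (1 + (y2 - y1)) :=
      mul_le_mul_of_nonneg_left (by linarith) (by linarith)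
    have h5 := le_abs_self (b y1)
    have h6 := abs_nonneg (b y2)
    rw [hXdef]
    linarith
  have h12 : y1 ≤ y2 := h01.trans h02
  have hX1 := hXy y1 le_rfl h12
  have hX2 := hXy y2 h12 le_rfl
  have hX0 := hXy y0 h01 h02
  set a1 := b y1 + A with ha1
  set a2 := b y2 + A with ha2
  have hE_hor : ∀ (y : ℝ) (t : ℝ), b y + A ≤ t → (t : ℂ) + y * I ∈ E := by
    intro y t ht
    apply hL.mem
    simpa using ht
  have hGc : ∀ (y c d : ℝ), b y + A ≤ c → ContinuousOn (fun x : ℝ => G (x + y * I)) (Icc c d) := by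
    intro y c d hc
    refine hGV.continuousOn.comp (t := V) (by fun_prop) ?_
    intro t ht
    exact hEV (hE_hor y t (hc.trans ht.1))
  have hhor : ∀ (y : ℝ) (aa : ℝ), aa = b y + A → aa ≤ X → (∫ x in aa..X, h (x + y * I)) =
      Complex.exp (-ζ) * ((∫ x in X..(X + 1), G (x + y * I)) -
        ∫ x in aa..(aa + 1), G (x + y * I)) := by
    intro y aa haa hX'
    rw [← shift_id hX' (hGc y aa (X + 1) haa.ge)]
    rw [← intervalIntegral.integral_sub, ← intervalIntegral.integral_const_mul]
    · apply intervalIntegral.integral_congr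
      intro x hx
      rw [uIcc_of_le hX'] at hx
      exact hhG _ (hE_hor y x (haa.ge.trans hx.1))
    · apply ContinuousOn.intervalIntegrable
      rw [uIcc_of_le hX']
      refine hGV.continuousOn.comp (t := V) (by fun_prop) ?_
      intro t ht
      apply hEV
      exact hE1 _ (hE_hor y t (haa.ge.trans ht.1))
    · apply ContinuousOn.intervalIntegrable
      rw [uIcc_of_le hX']
      exact hGc y aa X haa.ge
  have hver : (∫ y in y1..y2, h (X + y * I)) = Complex.exp (-ζ) *
      ((∫ y in y1..y2, G ((X + 1 : ℝ) + y * I)) - ∫ y in y1..y2, G (X + y * I)) := by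
    have hvm : ∀ t ∈ Icc y1 y2, ∀ x : ℝ, X ≤ x → (x : ℂ) + t * I ∈ E := fun t ht x hx =>
      hE_hor t x (by linarith [hXy t ht.1 ht.2])
    rw [← intervalIntegral.integral_sub, ← intervalIntegral.integral_const_mul]
    · apply intervalIntegral.integral_congr
      intro y hy
      rw [uIcc_of_le h12] at hy
      have := hhG _ (hvm y hy X le_rfl)
      change h (X + y * I) = _
      rw [this]
      congr 3
      push_cast
      ring
    · apply ContinuousOn.intervalIntegrable
      rw [uIcc_of_le h12]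
      refine hGV.continuousOn.comp (t := V) (by fun_prop) ?_
      intro t ht
      exact hEV (hvm t ht (X + 1) (by linarith))
    · apply ContinuousOn.intervalIntegrable
      rw [uIcc_of_le h12]
      refine hGV.continuousOn.comp (t := V) (by fun_prop) ?_
      intro t ht
      exact hEV (hvm t ht X le_rfl)
  have hrect : (∫ x in X..(X + 1), G (x + y1 * I)) - (∫ x in X..(X + 1), G (x + y2 * I)) +
      I * (∫ y in y1..y2, G ((X + 1 : ℝ) + y * I)) - I * ∫ y in y1..y2, G (X + y * I) = 0 := by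
    have := Complex.integral_boundary_rect_eq_zero_of_differentiableOn G (⟨X, y1⟩ : ℂ)
      (⟨X + 1, y2⟩ : ℂ) (by
        refine hGV.mono ?_
        intro z hz
        rw [Complex.mem_reProdIm] at hz
        obtain ⟨hz1, hz2⟩ := hz
        change z.re ∈ uIcc X (X + 1) at hz1
        change z.im ∈ uIcc y1 y2 at hz2
        rw [uIcc_of_le (by linarith)] at hz1
        rw [uIcc_of_le h12] at hz2
        apply hEV
        apply hL.mem
        linarith [hXy z.im hz2.1 hz2.2, hz1.1])
    simpa using this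
  have hI : (∫ x in a1..X, h (x + y1 * I)) + I * (∫ y in y1..y2, h (X + y * I)) -
      (∫ x in a2..X, h (x + y2 * I)) =
      Complex.exp (-ζ) * ((∫ x in a2..(a2 + 1), G (x + y2 * I)) -
        ∫ x in a1..(a1 + 1), G (x + y1 * I)) := by
    rw [hhor y1 a1 rfl (by linarith), hhor y2 a2 rfl (by linarith), hver]
    linear_combination (Complex.exp (-ζ)) * hrect
  have hGbound : ∀ (y aa : ℝ), aa = b y + A → ‖∫ x in aa..(aa + 1), G (x + y * I)‖ ≤
      C0 * (Real.exp (ζ.re * (A + 1)) * Real.exp (el b ζ y)) := by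
    intro y aa haa
    have := intervalIntegral.norm_integral_le_of_norm_le_const (a := aa) (b := aa + 1)
      (f := fun x : ℝ => G (x + y * I))
      (C := C0 * (Real.exp (ζ.re * (A + 1)) * Real.exp (el b ζ y))) (by
        intro x hx
        rw [uIoc_of_le (by linarith)] at hx
        change ‖Complex.exp (ζ * (x + y * I)) * f (x + y * I)‖ ≤ _
        rw [norm_mul, norm_exp_mul, mul_comm]
        have h1 := hfb _ (hE_hor y x (haa.ge.trans hx.1.le))
        refine mul_le_mul h1 ?_ (Real.exp_pos _).le hC0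
        rw [← Real.exp_add]
        apply Real.exp_le_exp.2
        unfold el
        have h2 : ζ.re * x ≤ ζ.re * (aa + 1) := mul_le_mul_of_nonneg_left hx.2 hζ.le
        rw [haa] at h2
        nlinarith)
    simpa using this
  have hIb : ‖(∫ x in a1..X, h (x + y1 * I)) + I * (∫ y in y1..y2, h (X + y * I)) -
      (∫ x in a2..X, h (x + y2 * I))‖ ≤
      C0 * Real.exp (ζ.re * (A + 1)) * (Real.exp (el b ζ y1) + Real.exp (el b ζ y2)) := by
    rw [hI, norm_mul]
    have h1 : ‖Complex.exp (-ζ)‖ ≤ 1 := by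
      rw [Complex.norm_exp, Complex.neg_re]
      exact Real.exp_le_one_iff.2 (by linarith)
    have h2 := hGbound y1 a1 rfl
    have h3 := hGbound y2 a2 rfl
    have h4 := norm_sub_le (∫ x in a2..(a2 + 1), G (x + y2 * I)) (∫ x in a1..(a1 + 1), G (x + y1 * I))
    have h5 : ‖Complex.exp (-ζ)‖ * ‖(∫ x in a2..(a2 + 1), G (x + y2 * I)) -
        ∫ x in a1..(a1 + 1), G (x + y1 * I)‖ ≤ 1 * (‖∫ x in a2..(a2 + 1), G (x + y2 * I)‖ +
        ‖∫ x in a1..(a1 + 1), G (x + y1 * I)‖) :=
      mul_le_mul h1 h4 (norm_nonneg _) zero_le_one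
    nlinarith
  -- the left side of the large rectangle
  have hlen : 0 < y2 - y1 := by linarith
  obtain ⟨x1, hx1, hx2, hx3, hx4⟩ : ∃ x1 : ℝ, x1 ≤ a1 ∧ x1 ≤ a2 ∧ x1 ≤ p.re - 1 ∧
      ζ.re * x1 ≤ el b ζ y1 - |ζ.im| * (|y1| + |y2|) - Real.log (y2 - y1) := by
    refine ⟨min (min a1 a2) (min (p.re - 1)
      ((el b ζ y1 - |ζ.im| * (|y1| + |y2|) - Real.log (y2 - y1)) / ζ.re)),
      (min_le_left _ _).trans (min_le_left _ _), (min_le_left _ _).trans (min_le_right _ _),
      (min_le_right _ _).trans (min_le_left _ _), ?_⟩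
    have := (min_le_right (min a1 a2) (min (p.re - 1)
      ((el b ζ y1 - |ζ.im| * (|y1| + |y2|) - Real.log (y2 - y1)) / ζ.re))).trans
      (min_le_right _ _)
    rw [le_div_iff₀ hζ] at this
    linarith
  have hR' := hR (fun z => Complex.exp (ζ * z)) p x1 X y1 y2
    (Complex.differentiable_exp.comp (differentiable_id.const_mul ζ)) (by linarith)
    (by rw [hpre]; have : (0 : ℝ) ≤ N := Nat.cast_nonneg N; linarith) (by rw [hpim]; linarith)
    (by rw [hpim]; linarith)
  have hhc : ∀ (y c d : ℝ), 1 ≤ |y - p.im| →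
      IntervalIntegrable (fun x : ℝ => h (x + y * I)) MeasureTheory.volume c d := by
    intro y c d hy
    apply ContinuousOn.intervalIntegrable
    apply ContinuousOn.div
    · fun_prop
    · fun_prop
    · intro t _ h0
      have h1 := congrArg Complex.im h0
      simp at h1
      have : y - p.im = 0 := by linarith
      rw [this, abs_zero] at hy
      linarith
  have hy1 : 1 ≤ |y1 - p.im| := by
    rw [hpim, abs_of_nonpos (by linarith)]
    linarith
  have hy2 : 1 ≤ |y2 - p.im| := by
    rw [hpim, abs_of_nonneg (by linarith)]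
    linarith
  have s1 : (∫ x in x1..a1, h (x + y1 * I)) + (∫ x in a1..X, h (x + y1 * I)) =
      ∫ x in x1..X, h (x + y1 * I) :=
    intervalIntegral.integral_add_adjacent_intervals (hhc y1 _ _ hy1) (hhc y1 _ _ hy1)
  have s2 : (∫ x in x1..a2, h (x + y2 * I)) + (∫ x in a2..X, h (x + y2 * I)) =
      ∫ x in x1..X, h (x + y2 * I) :=
    intervalIntegral.integral_add_adjacent_intervals (hhc y2 _ _ hy2) (hhc y2 _ _ hy2)
  have hR2 : (∫ x in x1..X, h (x + y1 * I)) - (∫ x in x1..X, h (x + y2 * I)) +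
      I * (∫ y in y1..y2, h (X + y * I)) - I * (∫ y in y1..y2, h (x1 + y * I)) =
      2 * Real.pi * I * Complex.exp (ζ * p) := hR'
  have l1 := left_bound (p := p) hζ hx1 hy1
  have l2 := left_bound (p := p) hζ hx2 hy2
  change ‖∫ x in x1..a1, h (x + y1 * I)‖ ≤ _ at l1
  change ‖∫ x in x1..a2, h (x + y2 * I)‖ ≤ _ at l2
  have l3 : ‖∫ y in y1..y2, h (x1 + y * I)‖ ≤ Real.exp (el b ζ y1) := by
    have h1 := intervalIntegral.norm_integral_le_of_norm_le_const (a := y1) (b := y2)
      (f := fun y : ℝ => h (x1 + y * I))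
      (C := Real.exp (ζ.re * x1 + |ζ.im| * (|y1| + |y2|))) (by
        intro y hy
        rw [uIoc_of_le h12] at hy
        change ‖Complex.exp (ζ * (x1 + y * I)) / (x1 + y * I - p)‖ ≤ _
        rw [norm_div, norm_exp_mul]
        have h2 : 1 ≤ ‖(x1 : ℂ) + y * I - p‖ := by
          have h3 := Complex.abs_re_le_norm ((x1 : ℂ) + y * I - p)
          have h4 : ((x1 : ℂ) + y * I - p).re = x1 - p.re := by simp
          rw [h4, abs_of_nonpos (by linarith)] at h3
          linarith
        refine (div_le_self (Real.exp_pos _).le h2).trans ?_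
        apply Real.exp_le_exp.2
        have h5 : -(ζ.im * y) ≤ |ζ.im| * |y| := by
          rw [← abs_mul]
          exact neg_le_abs _
        have h6 : |y| ≤ |y1| + |y2| := by
          rw [abs_le]
          have := neg_abs_le y1
          have := le_abs_self y2
          have := abs_nonneg y1
          have := abs_nonneg y2
          constructor <;> linarith [hy.1, hy.2]
        have h7 : |ζ.im| * |y| ≤ |ζ.im| * (|y1| + |y2|) :=
          mul_le_mul_of_nonneg_left h6 (abs_nonneg _)
        linarith)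
    refine h1.trans ?_
    rw [abs_of_pos hlen]
    have h2 : Real.exp (ζ.re * x1 + |ζ.im| * (|y1| + |y2|)) * (y2 - y1) =
        Real.exp (ζ.re * x1 + |ζ.im| * (|y1| + |y2|) + Real.log (y2 - y1)) := by
      rw [Real.exp_add _ (Real.log (y2 - y1)), Real.exp_log hlen]
    rw [h2]
    apply Real.exp_le_exp.2
    linarith
  -- conclusion
  have hq1 : Real.exp (ζ.re * a1 + -(ζ.im * y1)) = Real.exp (ζ.re * A) * Real.exp (el b ζ y1) := by
    rw [← Real.exp_add]
    congr 1
    unfold el
    rw [ha1]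
    ring
  have hq2 : Real.exp (ζ.re * a2 + -(ζ.im * y2)) = Real.exp (ζ.re * A) * Real.exp (el b ζ y2) := by
    rw [← Real.exp_add]
    congr 1
    unfold el
    rw [ha2]
    ring
  rw [hq1] at l1
  rw [hq2] at l2
  have hkey : 2 * Real.pi * I * Complex.exp (ζ * p) =
      ((∫ x in a1..X, h (x + y1 * I)) + I * (∫ y in y1..y2, h (X + y * I)) -
      (∫ x in a2..X, h (x + y2 * I))) + (∫ x in x1..a1, h (x + y1 * I)) -
      (∫ x in x1..a2, h (x + y2 * I)) - I * (∫ y in y1..y2, h (x1 + y * I)) := by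
    rw [← hR2, ← s1, ← s2]
    ring
  have hnp : ‖Complex.exp (ζ * p)‖ = Real.exp (el b ζ y0) * Real.exp (-(ζ.re * (A' + N))) := by
    rw [Complex.norm_exp, ← Real.exp_add]
    congr 1
    rw [Complex.mul_re, hpre, hpim]
    unfold el
    ring
  have hnorm : ‖2 * Real.pi * I * Complex.exp (ζ * p)‖ ≤
      C0 * Real.exp (ζ.re * (A + 1)) * (Real.exp (el b ζ y1) + Real.exp (el b ζ y2)) +
      Real.exp (ζ.re * A) * Real.exp (el b ζ y1) / ζ.re +
      Real.exp (ζ.re * A) * Real.exp (el b ζ y2) / ζ.re + Real.exp (el b ζ y1) := by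
    rw [hkey]
    refine (norm_sub_le _ _).trans (add_le_add ((norm_sub_le _ _).trans (add_le_add
      ((norm_add_le _ _).trans (add_le_add hIb l1)) l2)) ?_)
    rw [norm_mul, Complex.norm_I, one_mul]
    exact l3
  have hlow : Real.exp (el b ζ y0) * Real.exp (-(ζ.re * (A' + N))) ≤
      ‖2 * Real.pi * I * Complex.exp (ζ * p)‖ := by
    rw [norm_mul, hnp, norm_mul, norm_mul, Complex.norm_I, mul_one, Complex.norm_ofNat,
      Complex.norm_real, Real.norm_eq_abs, abs_of_pos Real.pi_pos]
    have h1 : 1 ≤ 2 * Real.pi := by linarith [Real.pi_gt_three]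
    have h2 : 0 ≤ Real.exp (el b ζ y0) * Real.exp (-(ζ.re * (A' + N))) := by positivity
    nlinarith
  have hfin : Real.exp (el b ζ y0) ≤ 2 * C * Real.exp (max (el b ζ y1) (el b ζ y2)) := by
    have h1 : Real.exp (el b ζ y1) ≤ Real.exp (max (el b ζ y1) (el b ζ y2)) :=
      Real.exp_le_exp.2 (le_max_left _ _)
    have h2 : Real.exp (el b ζ y2) ≤ Real.exp (max (el b ζ y1) (el b ζ y2)) :=
      Real.exp_le_exp.2 (le_max_right _ _)
    have h3 := hlow.trans hnorm
    have h4 : Real.exp (-(ζ.re * (A' + N))) * Real.exp (ζ.re * (A' + N)) = 1 := by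
      rw [← Real.exp_add]; simp
    set m := Real.exp (max (el b ζ y1) (el b ζ y2)) with hm
    have hm0 : 0 < m := Real.exp_pos _
    have hk1 : 0 ≤ C0 * Real.exp (ζ.re * (A + 1)) := by positivity
    have hk2 : 0 ≤ Real.exp (ζ.re * A) / ζ.re := by positivity
    have h5 : C0 * Real.exp (ζ.re * (A + 1)) * (Real.exp (el b ζ y1) + Real.exp (el b ζ y2)) +
      Real.exp (ζ.re * A) * Real.exp (el b ζ y1) / ζ.re +
      Real.exp (ζ.re * A) * Real.exp (el b ζ y2) / ζ.re + Real.exp (el b ζ y1) ≤
      2 * (C0 * Real.exp (ζ.re * (A + 1)) + Real.exp (ζ.re * A) / ζ.re + 1) * m := by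
      have e1 : C0 * Real.exp (ζ.re * (A + 1)) * (Real.exp (el b ζ y1) + Real.exp (el b ζ y2)) ≤
        C0 * Real.exp (ζ.re * (A + 1)) * (m + m) :=
        mul_le_mul_of_nonneg_left (add_le_add h1 h2) hk1
      have e2 : Real.exp (ζ.re * A) * Real.exp (el b ζ y1) / ζ.re ≤
        Real.exp (ζ.re * A) / ζ.re * m := by
        rw [mul_div_right_comm]
        exact mul_le_mul_of_nonneg_left h1 hk2
      have e3 : Real.exp (ζ.re * A) * Real.exp (el b ζ y2) / ζ.re ≤
        Real.exp (ζ.re * A) / ζ.re * m := by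
        rw [mul_div_right_comm]
        exact mul_le_mul_of_nonneg_left h2 hk2
      linarith
    have h6 := h3.trans h5
    have h7 := mul_le_mul_of_nonneg_right h6 (Real.exp_pos (ζ.re * (A' + N))).le
    have h8 : Real.exp (el b ζ y0) * Real.exp (-(ζ.re * (A' + N))) * Real.exp (ζ.re * (A' + N)) =
      Real.exp (el b ζ y0) := by
      rw [mul_assoc, h4, mul_one]
    rw [h8] at h7
    rw [hC]
    linarith
  have hlog := Real.log_le_log (Real.exp_pos _) hfin
  rw [Real.log_exp, Real.log_mul (by positivity) (Real.exp_pos _).ne', Real.log_exp] at hlog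
  linarith

end Pool.Agent.T6.H4.SG
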