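import Pool.Agent.T6.H4.SG.Stm
import Pool.Agent.Helper203.DS.Julia

/-! # Module WOLFF: Wolff's lemma -/

set_option autoImplicit false

open Set Metric Filter Topology

noncomputable section

namespace Pool.Agent.T6.H4.SG

namespace WOLFFx

theorem re_half {ζ : ℂ} (h : ‖ζ‖ < 1) : 1 / 2 ≤ (1 / (1 - ζ)).re := by
  have hne : 1 - ζ ≠ 0 := by
    intro h0
    have : ζ = 1 := (sub_eq_zero.1 h0).symm
    rw [this, norm_one] at h
    exact lt_irrefl _ h
  have h1 : Complex.normSq ζ < 1 := by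
    rw [Complex.normSq_eq_norm_sq]
    nlinarith [norm_nonneg ζ]
  have h2 : 0 < Complex.normSq (1 - ζ) := Complex.normSq_pos.2 hne
  rw [one_div (1 - ζ), Complex.inv_re, le_div_iff₀ h2]
  rw [Complex.normSq_apply] at h1 ⊢
  simp only [Complex.sub_re, Complex.sub_im, Complex.one_re, Complex.one_im]
  nlinarith

theorem exists_fix {P : ℂ → ℂ} (hc : ContinuousOn P (closedBall 0 1))
    (hd : DifferentiableOn ℂ P (ball 0 1)) (hm : MapsTo P (closedBall 0 1) (closedBall 0 1))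
    {r : ℝ} (h0 : 0 < r) (h1 : r < 1) : ∃ p : ℂ, ‖p‖ < 1 ∧ (r : ℂ) * P p = p := by
  by_contra hcon
  push Not at hcon
  have hP : ∀ z ∈ closedBall (0 : ℂ) 1, ‖(r : ℂ) * P z‖ ≤ r := by
    intro z hz
    have h2 := hm hz
    rw [mem_closedBall_zero_iff] at h2
    rw [norm_mul, Complex.norm_real, Real.norm_of_nonneg h0.le]
    nlinarith
  have hne : ∀ z ∈ closedBall (0 : ℂ) 1, z - (r : ℂ) * P z ≠ 0 := by
    intro z hz h
    rw [sub_eq_zero] at h
    rcases (mem_closedBall_zero_iff.1 hz).lt_or_eq with h2 | h2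
    · exact hcon z h2 h.symm
    · have h3 := hP z hz
      rw [← h, h2] at h3
      linarith
  have hcl : closure (ball (0 : ℂ) 1) = closedBall 0 1 := closure_ball 0 one_ne_zero
  have hDC : DiffContOnCl ℂ (fun z => Complex.exp (-(z / (z - (r : ℂ) * P z)))) (ball 0 1) := by
    constructor
    · apply DifferentiableOn.cexp
      apply DifferentiableOn.neg
      exact differentiableOn_id.div (differentiableOn_id.sub (hd.const_mul _))
        (fun z hz => hne z (ball_subset_closedBall hz))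
    · rw [hcl]
      apply ContinuousOn.cexp
      apply ContinuousOn.neg
      exact continuousOn_id.div (continuousOn_id.sub (continuousOn_const.mul hc)) hne
  have hb : ∀ z ∈ frontier (ball (0 : ℂ) 1),
      ‖Complex.exp (-(z / (z - (r : ℂ) * P z)))‖ ≤ Real.exp (-(1 / 2)) := by
    intro z hz
    rw [frontier_ball 0 one_ne_zero, mem_sphere_zero_iff_norm] at hz
    have hz0 : z ≠ 0 := by
      rw [← norm_ne_zero_iff, hz]
      exact one_ne_zero
    have hzc : z ∈ closedBall (0 : ℂ) 1 := by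
      rw [mem_closedBall_zero_iff, hz]
    rw [Complex.norm_exp, Real.exp_le_exp, Complex.neg_re, neg_le_neg_iff]
    have h2 : z / (z - (r : ℂ) * P z) = 1 / (1 - (r : ℂ) * P z / z) := by
      have h3 := hne z hzc
      field_simp
    rw [h2]
    apply re_half
    rw [norm_div, hz, div_one]
    exact (hP z hzc).trans_lt h1
  have h2 := Complex.norm_le_of_forall_mem_frontier_norm_le isBounded_ball hDC hb
    (subset_closure (mem_ball_self one_pos))
  rw [zero_div, neg_zero, Complex.exp_zero, norm_one] at h2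
  have h3 : Real.exp (-(1 / 2)) < 1 := by
    rw [Real.exp_lt_one_iff]
    norm_num
  linarith

theorem norm_conj_sub {a : ℂ} (ha : ‖a‖ = 1) (w : ℂ) :
    ‖1 - (starRingEnd ℂ) a * w‖ = ‖a - w‖ := by
  have h1 : a * (starRingEnd ℂ) a = 1 := by
    rw [Complex.mul_conj, Complex.normSq_eq_norm_sq, ha]
    simp
  have h2 : a - w = a * (1 - (starRingEnd ℂ) a * w) := by
    linear_combination w * h1
  rw [h2, norm_mul, ha, one_mul]

end WOLFFx

open WOLFFx in
theorem t_WOLFF : S_WOLFF := by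
  intro P a hc hd hm ha hfix z hz
  have hzn : ‖z‖ < 1 := mem_ball_zero_iff.1 hz
  have hr : ∀ k : ℕ, 0 < 1 - 1 / ((k : ℝ) + 2) ∧ 1 - 1 / ((k : ℝ) + 2) < 1 := by
    intro k
    have h1 : (0 : ℝ) ≤ k := Nat.cast_nonneg k
    have h2 : 0 < 1 / ((k : ℝ) + 2) := by positivity
    have h3 : 1 / ((k : ℝ) + 2) < 1 := by
      rw [div_lt_one (by positivity)]
      linarith
    constructor <;> linarith
  have hex : ∀ k : ℕ, ∃ p : ℂ, ‖p‖ < 1 ∧ ((1 - 1 / ((k : ℝ) + 2) : ℝ) : ℂ) * P p = p :=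
    fun k => exists_fix hc hd hm (hr k).1 (hr k).2
  choose p hp1 hp2 using hex
  have hrlim : Tendsto (fun k : ℕ => 1 - 1 / ((k : ℝ) + 2)) atTop (𝓝 1) := by
    have h1 : Tendsto (fun k : ℕ => 1 / ((k : ℝ) + 2)) atTop (𝓝 0) := by
      apply Tendsto.div_atTop tendsto_const_nhds
      exact tendsto_atTop_add_const_right _ _ tendsto_natCast_atTop_atTop
    have h2 := h1.const_sub 1
    rwa [sub_zero] at h2
  obtain ⟨p0, hp0, ψ, hψ, hlim⟩ := (isCompact_closedBall (0 : ℂ) 1).tendsto_subseq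
    (x := p) (fun k => mem_closedBall_zero_iff.2 (hp1 k).le)
  have hrψ : Tendsto (fun k => 1 - 1 / ((ψ k : ℝ) + 2)) atTop (𝓝 1) :=
    hrlim.comp hψ.tendsto_atTop
  have hPlim : Tendsto (fun k => P (p (ψ k))) atTop (𝓝 (P p0)) := by
    have h1 : Tendsto (fun k => p (ψ k)) atTop (𝓝[closedBall 0 1] p0) :=
      tendsto_nhdsWithin_iff.2 ⟨hlim, Eventually.of_forall fun k =>
        mem_closedBall_zero_iff.2 (hp1 _).le⟩
    exact (hc p0 hp0).tendsto.comp h1
  have hrc : Tendsto (fun k => ((1 - 1 / ((ψ k : ℝ) + 2) : ℝ) : ℂ)) atTop (𝓝 1) := by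
    have h1 := (Complex.continuous_ofReal.tendsto 1).comp hrψ
    rw [Complex.ofReal_one] at h1
    exact h1
  have hp0a : p0 = a := by
    apply hfix p0 hp0
    have h1 := hrc.mul hPlim
    rw [one_mul] at h1
    refine tendsto_nhds_unique h1 ?_
    refine hlim.congr fun k => ?_
    exact (hp2 (ψ k)).symm
  rw [hp0a] at hlim
  have hfz : Tendsto (fun k => ((1 - 1 / ((ψ k : ℝ) + 2) : ℝ) : ℂ) * P z) atTop (𝓝 (P z)) := by
    have := hrc.mul_const (P z)
    rwa [one_mul] at this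
  have hineq : ∀ k, (1 - ‖z‖ ^ 2) *
      ‖1 - (starRingEnd ℂ) (p (ψ k)) * (((1 - 1 / ((ψ k : ℝ) + 2) : ℝ) : ℂ) * P z)‖ ^ 2 ≤
      (1 - ‖((1 - 1 / ((ψ k : ℝ) + 2) : ℝ) : ℂ) * P z‖ ^ 2) *
        ‖1 - (starRingEnd ℂ) (p (ψ k)) * z‖ ^ 2 := by
    intro k
    obtain ⟨r, hrdef⟩ : ∃ r : ℝ, r = 1 - 1 / ((ψ k : ℝ) + 2) := ⟨_, rfl⟩
    have hr1 := hr (ψ k)
    rw [← hrdef] at hr1 ⊢
    have hfp := hp2 (ψ k)
    rw [← hrdef] at hfp
    have h1 := Pool.Agent.Helper203.DS.schwarz_pick (fun w => (r : ℂ) * P w) (hd.const_mul _)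
      (fun w hw => by
        have h2 := hm (mem_closedBall_zero_iff.2 hw.le)
        rw [mem_closedBall_zero_iff] at h2
        rw [norm_mul, Complex.norm_real, Real.norm_of_nonneg hr1.1.le]
        nlinarith [hr1.1, hr1.2]) z (p (ψ k)) hzn (hp1 _)
    simp only [hfp] at h1
    have h3 : 0 < 1 - ‖p (ψ k)‖ ^ 2 := by
      have := hp1 (ψ k)
      nlinarith [norm_nonneg (p (ψ k))]
    refine le_of_mul_le_mul_right ?_ h3
    linarith
  have hL : Tendsto (fun k => (1 - ‖z‖ ^ 2) *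
      ‖1 - (starRingEnd ℂ) (p (ψ k)) * (((1 - 1 / ((ψ k : ℝ) + 2) : ℝ) : ℂ) * P z)‖ ^ 2) atTop
      (𝓝 ((1 - ‖z‖ ^ 2) * ‖1 - (starRingEnd ℂ) a * P z‖ ^ 2)) := by
    have hcj : Tendsto (fun k => (starRingEnd ℂ) (p (ψ k))) atTop (𝓝 ((starRingEnd ℂ) a)) :=
      (Complex.continuous_conj.tendsto a).comp hlim
    exact (((hcj.mul hfz).const_sub 1).norm.pow 2).const_mul _
  have hR : Tendsto (fun k => (1 - ‖((1 - 1 / ((ψ k : ℝ) + 2) : ℝ) : ℂ) * P z‖ ^ 2) *
        ‖1 - (starRingEnd ℂ) (p (ψ k)) * z‖ ^ 2) atTop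
      (𝓝 ((1 - ‖P z‖ ^ 2) * ‖1 - (starRingEnd ℂ) a * z‖ ^ 2)) := by
    have hcj : Tendsto (fun k => (starRingEnd ℂ) (p (ψ k))) atTop (𝓝 ((starRingEnd ℂ) a)) :=
      (Complex.continuous_conj.tendsto a).comp hlim
    exact ((hfz.norm.pow 2).const_sub 1).mul (((hcj.mul_const z).const_sub 1).norm.pow 2)
  have hfin := le_of_tendsto_of_tendsto' hL hR hineq
  rwa [norm_conj_sub ha, norm_conj_sub ha] at hfin

end Pool.Agent.T6.H4.SG
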