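import Pool.Agent.T6.H4.SG.Lin
import Pool.Agent.T6.H4.SG.PICK
import Pool.Agent.T6.H4.SG.HAR
import Pool.Agent.T6.H4.SG.RIG
import Pool.Agent.T6.H4.SG.SEQ
import Pool.Agent.T6.H4.SG.ANN
import Pool.Agent.T6.H4.SG.ONE
import Pool.Agent.T6.H4.SG.SEP
import Pool.Agent.T6.H4.SG.TH1
import Pool.Agent.T6.H4.SG.LOC
import Pool.Agent.T6.H4.SG.KG
import Pool.Agent.T6.H4.SG.CNV
import Pool.Agent.T6.H4.SG.ABEL
import Pool.Agent.T6.H4.SG.FAT1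
import Pool.Agent.T6.H4.SG.FAT2
import Pool.Agent.T6.H4.SG.TRA
import Pool.Agent.T6.H4.SG.GEO
import Pool.Agent.T6.H4.SG.RECT
import Pool.Agent.T6.H4.SG.FUN
import Pool.Agent.T6.H4.SG.TY1
import Pool.Agent.T6.H4.SG.TY2
import Pool.Agent.T6.H4.SG.COARSE
import Pool.Agent.T6.H4.SG.LP
import Pool.Agent.T6.H4.SG.CHAR
import Pool.Agent.T6.H4.SG.WOLFF
import Pool.Agent.T6.H4.SG.SIT
import Pool.Agent.T6.H4.SG.SYS
import Pool.Agent.T6.H4.SG.RU1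
import Pool.Agent.T6.H4.SG.RU2
import Pool.Agent.T6.H4.SG.OPS

/-! # All modules together (MP_ff3f8e_an) -/

open Set Metric Filter Topology Pool.Agent.Helper203.DS

noncomputable section

namespace Pool.Agent.T6.H4.SG

theorem mods : Mods where
  th1 := t_TH1 t_SEQ (t_ONE t_ANN) (t_SEP (t_RIG t_PICK) (t_HAR t_PICK)) (t_HAR t_PICK)
  abel := t_ABEL (t_CNV (t_LOC t_PICK (t_HAR t_PICK)) t_PICK (t_HAR t_PICK))
    (t_LOC t_PICK (t_HAR t_PICK)) t_KG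
  fat1 := t_FAT1 (t_LOC t_PICK (t_HAR t_PICK)) t_KG
  fat2 := t_FAT2
  tra := t_TRA
  lp := t_LP t_GEO (t_TY1 (t_FUN t_RECT)) (t_TY2 t_RECT) t_COARSE
  char := t_CHAR
  sit := t_SIT
  sys := t_SYS t_WOLFF
  ru1 := t_RU1
  ru2 := t_RU2
  ops := t_OPS

theorem main (T : Op) (hT : ∀ f g : DA, T (f * g) = T f * T g) :
    ∀ l ∈ spectrum ℂ T, ∀ m ∈ spectrum ℂ T, l * m ∈ spectrum ℂ T := full mods T hT

end Pool.Agent.T6.H4.SG
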