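import Pool.Agent.T6.H4.SG.Fin

/-! # Automatic continuity and the plain form of the spectrum (MP_ff3f8e_an) -/

open Set Metric Filter Topology Pool.Agent.Helper203.DS

noncomputable section

namespace Pool.Agent.T6.H4.SG

/-- a multiplicative linear map of the disc algebra does not increase the norm -/
theorem lin_norm_le (T : DA →ₗ[ℂ] DA) (hT : ∀ f g : DA, T (f * g) = T f * T g) (f : DA) :
    ‖T f‖ ≤ ‖f‖ := by
  refine norm_le_of (norm_nonneg _) fun z => ?_
  have h1 : (T 1).1 z = (T 1).1 z * (T 1).1 z := by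
    have h := hT 1 1
    rw [mul_one] at h
    conv_lhs => rw [h]
    rfl
  have h3 : (T 1).1 z * ((T 1).1 z - 1) = 0 := by rw [mul_sub, ← h1]; ring
  rcases mul_eq_zero.1 h3 with h4 | h4
  · have h5 : (T f).1 z = (T f).1 z * (T 1).1 z := by
      have h := hT f 1
      rw [mul_one] at h
      conv_lhs => rw [h]
      rfl
    rw [h5, h4, mul_zero, norm_zero]
    exact norm_nonneg _
  · obtain ⟨y, hy⟩ := char_eval (fun g => (T g).1 z)
      (fun g k => by simp only [map_add, add_apply])
      (fun c g => by simp only [map_smul, smul_apply])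
      (fun g k => by simp only [hT, mul_apply])
      (sub_eq_zero.1 h4)
    have h6 : (T f).1 z = f.1 y := hy f
    rw [h6]
    exact norm_apply_le f y

/-- plain form of membership in the spectrum -/
theorem mem_spec_iff (T : Op) (l : ℂ) : l ∈ spectrum ℂ T ↔
    ¬ ∃ S : Op, (∀ f : DA, S (T f - l • f) = f) ∧ ∀ f : DA, T (S f) - l • S f = f := by
  rw [spectrum.mem_iff, not_iff_not]
  constructor
  · rintro ⟨u, hu⟩
    refine ⟨-((u⁻¹ : Opˣ) : Op), fun f => ?_, fun f => ?_⟩
    · have h1 : (((u⁻¹ : Opˣ) : Op) * (u : Op)) f = f := by rw [Units.inv_mul]; rfl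
      have h2 : (u : Op) f = -(T f - l • f) := by
        rw [hu, _root_.sub_apply]
        have : (algebraMap ℂ Op l) f = l • f := by
          rw [Algebra.algebraMap_eq_smul_one]; rfl
        rw [this, neg_sub]
      have h3 : ((u⁻¹ : Opˣ) : Op) ((u : Op) f) = f := h1
      rw [h2, map_neg] at h3
      exact h3
    · have h1 : ((u : Op) * ((u⁻¹ : Opˣ) : Op)) f = f := by rw [Units.mul_inv]; rfl
      have h3 : (u : Op) (((u⁻¹ : Opˣ) : Op) f) = f := h1
      have h2 : ∀ g : DA, (u : Op) g = -(T g - l • g) := by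
        intro g
        rw [hu, _root_.sub_apply]
        have : (algebraMap ℂ Op l) g = l • g := by
          rw [Algebra.algebraMap_eq_smul_one]; rfl
        rw [this, neg_sub]
      rw [h2] at h3
      have h4 : (-((u⁻¹ : Opˣ) : Op)) f = -(((u⁻¹ : Opˣ) : Op) f) := rfl
      rw [h4, map_neg, smul_neg, ← neg_sub_neg, neg_neg]
      rw [neg_sub] at h3
      rw [← h3]
      have h5 : ((u⁻¹ : Opˣ) : Op) (l • ((u⁻¹ : Opˣ) : Op) f - T (((u⁻¹ : Opˣ) : Op) f)) =
        ((u⁻¹ : Opˣ) : Op) f := by rw [h3]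
      rw [h5]
      abel
  · rintro ⟨S, h1, h2⟩
    have e1 : (-S) * (algebraMap ℂ Op l - T) = 1 := by
      ext1 f
      show -(S ((algebraMap ℂ Op l - T) f)) = f
      rw [_root_.sub_apply]
      have : (algebraMap ℂ Op l) f = l • f := by
        rw [Algebra.algebraMap_eq_smul_one]; rfl
      rw [this, ← map_neg, neg_sub, h1]
    have e2 : (algebraMap ℂ Op l - T) * (-S) = 1 := by
      ext1 f
      show (algebraMap ℂ Op l - T) (-(S f)) = f
      rw [_root_.sub_apply]
      have : (algebraMap ℂ Op l) (-(S f)) = -(l • S f) := by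
        rw [Algebra.algebraMap_eq_smul_one, map_neg]; rfl
      rw [this, map_neg, sub_neg_eq_add, add_comm, ← sub_eq_add_neg, h2]
    exact ⟨⟨algebraMap ℂ Op l - T, -S, e2, e1⟩, rfl⟩

end Pool.Agent.T6.H4.SG
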