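import Pool.Agent.T6.H4.SG.OPS

/-! # Module RU1: lower bounds from the resolvent (MP_ff3f8e_an) -/

open Set Metric Filter Topology Pool.Agent.Helper203.DS

noncomputable section

namespace Pool.Agent.T6.H4.SG.RU1x

open Pool.Agent.T6.H4.SG.OPSx

/-- The pull back of a function, vanishing at infinity, to the disc. -/
def gc (a : ℂ) (P : Pt → Pt) (k : ℕ) (q : ℂ → ℂ) (z : Pt) : ℂ := by
  classical
  exact if ((P^[k] z : Pt) : ℂ) = a then 0 else q (Cay a ((P^[k] z : Pt) : ℂ))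

theorem gc_a {a : ℂ} {P : Pt → Pt} {k : ℕ} {q : ℂ → ℂ} {z : Pt}
    (h : ((P^[k] z : Pt) : ℂ) = a) : gc a P k q z = 0 := by
  unfold gc
  rw [if_pos h]

theorem gc_ne {a : ℂ} {P : Pt → Pt} {k : ℕ} {q : ℂ → ℂ} {z : Pt}
    (h : ((P^[k] z : Pt) : ℂ) ≠ a) : gc a P k q z = q (Cay a ((P^[k] z : Pt) : ℂ)) := by
  unfold gc
  rw [if_neg h]

theorem cay_big {a : ℂ} (ha : ‖a‖ = 1) (R : ℝ) : ∃ δ : ℝ, 0 < δ ∧ ∀ p : ℂ, p ≠ a →
    ‖a - p‖ < δ → R ≤ ‖Cay a p‖ := by
  set R1 : ℝ := max R 1 with hR1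
  have hR1pos : 0 < R1 := lt_of_lt_of_le one_pos (le_max_right _ _)
  refine ⟨min 1 (1 / R1), lt_min one_pos (by positivity), fun p hp hz => ?_⟩
  have hne : a - p ≠ 0 := sub_ne_zero.2 (Ne.symm hp)
  unfold Cay
  rw [norm_div]
  have hz1 := lt_of_lt_of_le hz (min_le_left _ _)
  have hz2 := lt_of_lt_of_le hz (min_le_right _ _)
  have h2 : 1 ≤ ‖a + p‖ := by
    have h3 : (2 : ℂ) * a = (a + p) + (a - p) := by ring
    have h4 : ‖(2 : ℂ) * a‖ = 2 := by rw [norm_mul, ha]; norm_num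
    have h5 := norm_add_le (a + p) (a - p)
    rw [← h3, h4] at h5
    linarith
  have hpos : 0 < ‖a - p‖ := norm_pos_iff.2 hne
  calc R ≤ R1 := le_max_left _ _
    _ ≤ 1 / ‖a - p‖ := by
      rw [le_div_iff₀ hpos]
      rw [lt_div_iff₀ hR1pos] at hz2
      linarith
    _ ≤ _ := by gcongr

theorem exists_g {T : Op} {P : Pt → Pt} {a : ℂ} {N : ℕ} (hS : Sit T P a N) {n : ℕ} {q : ℂ → ℂ}
    (hq : Adm (KS a P N n) q) : ∃ g : DA, ∀ z : Pt, g.1 z = gc a P (N + n) q z := by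
  obtain ⟨⟨U, hU, hKU, hqU⟩, hvan⟩ := hq
  have hpc : Continuous (fun z : Pt => ((P^[N + n] z : Pt) : ℂ)) :=
    continuous_subtype_val.comp (hS.comp.cont.iterate _)
  have hcont : Continuous (gc a P (N + n) q) := by
    rw [continuous_iff_continuousAt]
    intro z0
    by_cases h0 : ((P^[N + n] z0 : Pt) : ℂ) = a
    · rw [ContinuousAt, gc_a h0, Metric.tendsto_nhds]
      intro ε hε
      obtain ⟨R, hR⟩ := hvan (ε / 2) (by positivity)
      obtain ⟨δ, hδ, hδR⟩ := cay_big hS.norm R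
      have hev : ∀ᶠ z : Pt in 𝓝 z0, dist (((P^[N + n] z : Pt) : ℂ)) a < δ := by
        have := hpc.continuousAt (x := z0)
        rw [ContinuousAt, h0, Metric.tendsto_nhds] at this
        exact this _ hδ
      filter_upwards [hev] with z hz
      by_cases h : ((P^[N + n] z : Pt) : ℂ) = a
      · rw [gc_a h, dist_self]; exact hε
      · rw [gc_ne h, dist_zero_right]
        rw [dist_comm, dist_eq_norm] at hz
        have := hR (Cay a ((P^[N + n] z : Pt) : ℂ)) ⟨z, h, rfl⟩ (hδR _ h hz)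
        linarith
    · have hev : ∀ᶠ z : Pt in 𝓝 z0, ((P^[N + n] z : Pt) : ℂ) ≠ a :=
        hpc.continuousAt.eventually_ne h0
      have hw : Cay a ((P^[N + n] z0 : Pt) : ℂ) ∈ KS a P N n := ⟨z0, h0, rfl⟩
      have hne : a - ((P^[N + n] z0 : Pt) : ℂ) ≠ 0 := sub_ne_zero.2 (Ne.symm h0)
      have c1 : ContinuousAt (fun z : Pt => Cay a ((P^[N + n] z : Pt) : ℂ)) z0 := by
        unfold Cay
        exact ((continuous_const.add hpc).continuousAt).div
          ((continuous_const.sub hpc).continuousAt) hne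
      have c2 : ContinuousAt q (Cay a ((P^[N + n] z0 : Pt) : ℂ)) :=
        (hqU.differentiableAt (hU.mem_nhds (hKU hw))).continuousAt
      have c4 : ContinuousAt (fun z : Pt => q (Cay a ((P^[N + n] z : Pt) : ℂ))) z0 :=
        ContinuousAt.comp (f := fun z : Pt => Cay a ((P^[N + n] z : Pt) : ℂ)) (g := q) c2 c1
      refine c4.congr ?_
      filter_upwards [hev] with z hz
      rw [gc_ne hz]
  have hp : DifferentiableOn ℂ (ext ((T ^ (N + n)) Z).1) (ball (0 : ℂ) 1) :=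
    differentiableOn_da _
  have hpe : ∀ z : Pt, ((T ^ (N + n)) Z).1 z = ((P^[N + n] z : Pt) : ℂ) := fun z => by
    rw [hS.comp.pow, Z_apply]
  have hext : ∀ z (hz : z ∈ ball (0 : ℂ) 1), ext ((T ^ (N + n)) Z).1 z =
      ((P^[N + n] ⟨z, ball_subset_closedBall hz⟩ : Pt) : ℂ) := fun z hz => by
    rw [ext_of_mem _ (ball_subset_closedBall hz), hpe]
  have hlt : ∀ z (hz : z ∈ ball (0 : ℂ) 1),
      ((P^[N + n] ⟨z, ball_subset_closedBall hz⟩ : Pt) : ℂ) ≠ a := fun z hz => by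
    apply ne_of hS.norm
    apply inn_iter hS
    simpa using hz
  have key : DifferentiableOn ℂ (fun z => q (Cay a (ext ((T ^ (N + n)) Z).1 z)))
      (ball (0 : ℂ) 1) := by
    intro z hz
    have hz' := hext z hz
    have hne := hlt z hz
    have hw : Cay a (ext ((T ^ (N + n)) Z).1 z) ∈ KS a P N n := by
      rw [hz']
      exact ⟨_, hne, rfl⟩
    have d0 : DifferentiableAt ℂ (ext ((T ^ (N + n)) Z).1) z :=
      hp.differentiableAt (isOpen_ball.mem_nhds hz)
    have d1 : DifferentiableAt ℂ (fun z => Cay a (ext ((T ^ (N + n)) Z).1 z)) z := by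
      unfold Cay
      refine (d0.const_add a).div (d0.const_sub a) ?_
      rw [hz']
      exact sub_ne_zero.2 (Ne.symm hne)
    have d2 : DifferentiableAt ℂ q (Cay a (ext ((T ^ (N + n)) Z).1 z)) :=
      hqU.differentiableAt (hU.mem_nhds (hKU hw))
    exact (DifferentiableAt.comp z d2 d1).differentiableWithinAt
  refine ⟨⟨⟨gc a P (N + n) q, hcont⟩, ?_⟩, fun z => rfl⟩
  show DifferentiableOn ℂ (ext (gc a P (N + n) q)) (ball (0 : ℂ) 1)
  refine key.congr ?_
  intro z hz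
  rw [ext_of_mem _ (ball_subset_closedBall hz), gc_ne (hlt z hz), hext z hz]

/-- The difference equation for the pull back. -/
theorem g_diff {T : Op} {P : Pt → Pt} {a : ℂ} {N : ℕ} (hS : Sit T P a N) {n : ℕ} {q : ℂ → ℂ}
    (z : Pt) : (((P^[N + n] z : Pt) : ℂ) = a → gc a P (N + n) q (P z) = 0) ∧
      (((P^[N + n] z : Pt) : ℂ) ≠ a → gc a P (N + n) q (P z) =
        q (FF a P (Cay a ((P^[N + n] z : Pt) : ℂ)))) := by
  have e0 : P^[N + n] (P z) = P (P^[N + n] z) := by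
    rw [← Function.iterate_succ_apply, Function.iterate_succ_apply']
  refine ⟨fun h => ?_, fun h => ?_⟩
  · rw [gc_a]
    rw [e0]
    exact hS.fix _ h
  · have hp := lt_of hS n z h
    rw [gc_ne]
    · rw [e0, ← FF_cay hS _ hp]
    · rw [e0]
      exact ne_of hS.norm (hS.inn _ hp)

end Pool.Agent.T6.H4.SG.RU1x

namespace Pool.Agent.T6.H4.SG

open OPSx RU1x

theorem t_RU1 : S_RU1 := by
  intro T P a N hS _hSys l hl
  rw [spectrum.notMem_iff] at hl
  obtain ⟨u, hu⟩ := hl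
  set B : Op := (u⁻¹ : Opˣ).1 with hB
  have hinv : B * (algebraMap ℂ Op l - T) = 1 := by
    rw [← hu, hB]
    exact u.inv_mul
  obtain ⟨c, hc⟩ : ∃ c : ℝ, c = ‖B‖ := ⟨_, rfl⟩
  have hc0 : 0 ≤ c := by
    rw [hc]
    exact norm_nonneg B
  refine ⟨1 / (2 * (c + 1)), 2 * c, by positivity, ?_⟩
  intro μ hμ n q M hq hM w hw
  have hμ' : ‖μ - l‖ < 1 / (2 * (c + 1)) := by
    rw [← dist_eq_norm]
    exact hμ
  obtain ⟨g, hg⟩ := exists_g hS hq
  have hM0 : 0 ≤ M := (norm_nonneg _).trans (hM w hw)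
  have hTg : ‖T g - μ • g‖ ≤ M := by
    refine norm_le_of hM0 fun z => ?_
    have e1 : (T g - μ • g).1 z = gc a P (N + n) q (P z) - μ * gc a P (N + n) q z := by
      rw [sub_apply, smul_apply, hS.comp.eq, hg, hg]
    rw [e1]
    by_cases h : ((P^[N + n] z : Pt) : ℂ) = a
    · rw [(g_diff hS z).1 h, gc_a h]
      simpa using hM0
    · rw [(g_diff hS z).2 h, gc_ne h]
      exact hM _ ⟨z, h, rfl⟩
  have hgn : ‖g‖ ≤ 2 * c * M := by
    have e2 : g = B ((algebraMap ℂ Op l - T) g) := by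
      have := congrArg (fun A : Op => A g) hinv
      simpa using this.symm
    have e3 : (algebraMap ℂ Op l - T) g = -((T g - μ • g) + (μ - l) • g) := by
      have : (algebraMap ℂ Op l - T) g = l • g - T g := rfl
      rw [this, sub_smul]
      abel
    have e4 : ‖g‖ ≤ c * ‖(algebraMap ℂ Op l - T) g‖ := by
      calc ‖g‖ = ‖B ((algebraMap ℂ Op l - T) g)‖ := by rw [← e2]
        _ ≤ _ := by
          rw [hc]
          exact B.le_opNorm _
    rw [e3, norm_neg] at e4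
    have e5 : ‖(T g - μ • g) + (μ - l) • g‖ ≤ M + ‖μ - l‖ * ‖g‖ := by
      refine (norm_add_le _ _).trans ?_
      rw [norm_smul]
      linarith
    have e6 : c * (‖μ - l‖ * ‖g‖) ≤ 1 / 2 * ‖g‖ := by
      have h1 : c * ‖μ - l‖ ≤ 1 / 2 := by
        have h2 : ‖μ - l‖ * (2 * (c + 1)) < 1 := by
          rwa [lt_div_iff₀ (by positivity)] at hμ'
        nlinarith [norm_nonneg (μ - l)]
      calc c * (‖μ - l‖ * ‖g‖) = (c * ‖μ - l‖) * ‖g‖ := by ring
        _ ≤ _ := mul_le_mul_of_nonneg_right h1 (norm_nonneg _)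
    have e7 := e4.trans (mul_le_mul_of_nonneg_left e5 hc0)
    rw [mul_add] at e7
    linarith
  obtain ⟨z, hz, rfl⟩ := hw
  have e8 : q (Cay a ((P^[N + n] z : Pt) : ℂ)) = g.1 z := by rw [hg, gc_ne hz]
  rw [e8]
  exact (norm_apply_le g z).trans hgn

end Pool.Agent.T6.H4.SG
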