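import Pool.Agent.T6.H4.SG.Defs

/-! # Statements of the modules, general part (MP_ff3f8e_an) -/

open Set Metric Filter Topology

noncomputable section

namespace Pool.Agent.T6.H4.SG

/-- Schwarz and Pick. -/
def S_PICK : Prop := ∀ h : ℂ → ℂ, DifferentiableOn ℂ h HH → (∀ w ∈ HH, 0 ≤ (h w).re) →
  ∀ w ∈ HH, ∀ u ∈ HH,
    ‖h w - h u‖ ^ 2 * (w.re * u.re) ≤ (h w).re * (h u).re * ‖w - u‖ ^ 2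

/-- Harnack type consequences. -/
def S_HAR : Prop := ∀ h : ℂ → ℂ, DifferentiableOn ℂ h HH → (∀ w ∈ HH, 0 ≤ (h w).re) →
  (∀ w ∈ HH, ∀ u ∈ HH,
    ‖h w‖ * (w.re * u.re) ≤ 2 * ‖w + (starRingEnd ℂ) u‖ ^ 2 * ‖h u‖) ∧
  (∀ w ∈ HH, ∀ u : ℂ, ‖u - w‖ ≤ 3 / 4 * w.re → ‖h u‖ ≤ 32 * ‖h w‖ ∧ ‖h w‖ ≤ 32 * ‖h u‖) ∧
  (∀ w ∈ HH, ∀ u v : ℂ, ‖u - w‖ ≤ 3 / 4 * w.re → ‖v - w‖ ≤ 3 / 4 * w.re →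
    ‖h u - h v‖ * w.re ≤ 128 * ‖h w‖ * ‖u - v‖)

/-- Rigidity of the displacement. -/
def S_RIG : Prop := ∀ F : ℂ → ℂ, DifferentiableOn ℂ F HH → (∀ w ∈ HH, w.re ≤ (F w).re) →
  ∀ w ∈ HH, ∀ (j : ℕ) (κ : ℝ), 1 ≤ j → 0 ≤ κ → (j : ℝ) * κ ≤ 1 / 2 →
    ‖F^[j] w - w‖ ≤ κ * w.re → ‖F w - w‖ ≤ 2 * κ * w.re

/-- Choice of a good scale for a monotone sequence. -/
def S_SEQ : Prop := ∀ (L C : ℝ) (B : ℕ), 0 < L → 0 < C → ∃ A : ℕ, ∀ r : ℕ → ℝ, Monotone r →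
  Tendsto r atTop atTop → ∀ n : ℕ, A ≤ n → ∃ N : ℕ, B ≤ N ∧ ∃ k : ℝ, 0 < k ∧
    r N ≤ 2 * r n - r 0 ∧
    ∀ t : ℕ, N ≤ t + B → t ≤ N + B → ((t : ℝ) - N) * L - C ≤ k * (r t - r N)

/-- A two constants lemma in an annulus. -/
def S_ANN : Prop := ∀ (l : ℂ) (r0 : ℝ), 0 < ‖l‖ → ‖l‖ < 1 → 0 < r0 → ∃ K1 : ℝ, 0 < K1 ∧
  ∀ (Cb : ℝ) (B J : ℕ) (s : ℤ → ℂ), 0 ≤ Cb → B ≤ J → ‖s 0‖ = 1 →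
    (∀ j : ℕ, j ≤ B → ‖s j‖ ≤ Real.exp Cb * ‖l‖ ^ j) →
    (∀ j : ℕ, j ≤ J → ‖s (-(j : ℤ))‖ ≤ Real.exp Cb) →
    (∀ μ ∈ ball l r0, ‖l‖ < ‖μ‖ → ‖μ‖ < 1 →
      ‖∑ j ∈ Finset.Icc (-(J : ℤ)) (B : ℤ), s j * μ ^ (-j)‖ ≤
        Real.exp Cb * ((‖l‖ / ‖μ‖) ^ B + ‖μ‖ ^ J)) →
    (B : ℝ) ≤ K1 * (1 + Cb)

/-- One sided test functions. -/
def S_ONE : Prop := ∀ (F : ℂ → ℂ) (K : ℕ → Set ℂ) (N : ℕ), Sys F K N →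
  ∀ (l : ℂ) (r0 C0 : ℝ), 0 < ‖l‖ → ‖l‖ < 1 → 0 < r0 → (∀ μ ∈ ball l r0, U1 F K μ C0) →
  ∃ K1 : ℝ, 0 < K1 ∧ ∀ (Cb : ℝ) (B N1 : ℕ) (q : ℂ → ℂ) (w : ℂ), 0 ≤ Cb → B ≤ N1 →
    Adm (K 0) q → (∀ v ∈ K 0, ‖q v‖ ≤ Real.exp Cb) → w ∈ K N1 → ‖q w‖ = 1 →
    (∀ j : ℕ, j ≤ B → ∀ v ∈ K (N1 + j), ‖q v‖ ≤ Real.exp Cb * ‖l‖ ^ j) →
    (B : ℝ) ≤ K1 * (1 + Cb)

/-- Separation: the scale dominates the displacement at a contact point. -/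
def S_SEP : Prop := ∀ (F : ℂ → ℂ) (K : ℕ → Set ℂ) (N : ℕ), Sys F K N →
  ∀ (l : ℂ) (C0 : ℝ), 0 < ‖l‖ → ‖l‖ < 1 → U1 F K l C0 →
  ∃ (Ns : ℕ) (M0 : ℝ), 0 < M0 ∧ ∀ (c : ℝ) (z0 : ℂ) (N1 : ℕ) (k : ℝ) (w : ℂ),
    0 < c → c ≤ 1 → z0.re < 0 → Ns ≤ N1 → 0 < k →
    (∀ t : ℕ, N1 ≤ t + Ns → t ≤ N1 + Ns → ((t : ℝ) - N1) * (-Real.log ‖l‖) - 1 ≤
      k * (Real.log (infDist z0 (K t)) - Real.log (infDist z0 (K N1)))) →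
    w ∈ K N1 → ‖w - z0‖ = infDist z0 (K N1) → c * w.re ≤ ‖F w - w‖ →
    c / M0 * w.re < infDist z0 (K N1) * (-Real.log ‖l‖) / k

/-- Theorem 1. -/
def S_TH1 : Prop := ∀ (F : ℂ → ℂ) (K : ℕ → Set ℂ) (N : ℕ), Sys F K N →
  ∀ (l : ℂ) (r0 C0 : ℝ), 0 < ‖l‖ → ‖l‖ < 1 → 0 < r0 → (∀ μ ∈ ball l r0, U1 F K μ C0) →
  Small F K

/-- Small displacement: iterates are nearly onto, and injective far out. -/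
def S_LOC : Prop := ∀ (F : ℂ → ℂ) (K : ℕ → Set ℂ) (N : ℕ), Sys F K N → Small F K →
  (∃ n, InjOn F (K n)) ∧ ∀ n0 : ℕ, ∃ n1 : ℕ, n0 ≤ n1 ∧ ∀ w ∈ K n1, closedBall w (w.re / 2) ⊆ K n0

/-- Koebe and growth theorems with crude constants. -/
def S_KG : Prop := ∀ (f : ℂ → ℂ) (t : ℂ) (r : ℝ), 0 < r → DifferentiableOn ℂ f (ball t r) →
  InjOn f (ball t r) →
  deriv f t ≠ 0 ∧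
  (∀ z ∈ ball t r, ‖z - t‖ * ‖deriv f t‖ ≤ 4 * ‖f z - f t‖) ∧
  (∀ z : ℂ, ‖z - t‖ ≤ r / 2 → ‖f z - f t‖ ≤ 60 * ‖z - t‖ * ‖deriv f t‖) ∧
  ball (f t) (r * ‖deriv f t‖ / 4) ⊆ f '' ball t r

/-- All orbits have asymptotically equal displacement. -/
def S_CNV : Prop := ∀ (F : ℂ → ℂ) (K : ℕ → Set ℂ) (N : ℕ), Sys F K N → Small F K →
  (∀ w ∈ HH, F w ≠ w) ∧ ∀ w ∈ HH, ∀ u ∈ HH,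
    Tendsto (fun j : ℕ => (F (F^[j] w) - F^[j] w) / (F (F^[j] u) - F^[j] u)) atTop (𝓝 1)

/-- Existence of the linearizing coordinate. -/
def S_ABEL : Prop := ∀ (F : ℂ → ℂ) (K : ℕ → Set ℂ) (N : ℕ), Sys F K N → Small F K →
  ∃ Φ : ℂ → ℂ, DifferentiableOn ℂ Φ HH ∧ (∀ w ∈ HH, Φ (F w) = Φ w + 1) ∧
    ∃ n, InjOn Φ (Nb K n)

/-- Fatness and properness. -/
def S_FAT1 : Prop := ∀ (F : ℂ → ℂ) (K : ℕ → Set ℂ) (N : ℕ), Sys F K N → Small F K →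
  ∀ (Φ : ℂ → ℂ) (n : ℕ), DifferentiableOn ℂ Φ HH → (∀ w ∈ HH, Φ (F w) = Φ w + 1) →
    InjOn Φ (Nb K n) →
    (∃ m : ℕ, 1 ≤ m ∧ ∀ z ∈ Φ '' K n, ∀ s ∈ closedBall (m : ℂ) 1, z + s ∈ Φ '' K n) ∧
    ∀ R : ℝ, ∃ R' : ℝ, ∀ w ∈ K n, R' ≤ ‖w‖ → R ≤ ‖Φ w‖

/-- The inverse of the linearizing coordinate. -/
def S_FAT2 : Prop := ∀ (F : ℂ → ℂ) (K : ℕ → Set ℂ) (N : ℕ), Sys F K N →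
  ∀ (Φ : ℂ → ℂ) (n m : ℕ), DifferentiableOn ℂ Φ HH → (∀ w ∈ HH, Φ (F w) = Φ w + 1) →
    InjOn Φ (Nb K n) → 1 ≤ m →
    (∀ z ∈ Φ '' K n, ∀ s ∈ closedBall (m : ℂ) 1, z + s ∈ Φ '' K n) →
    (∀ R : ℝ, ∃ R' : ℝ, ∀ w ∈ K n, R' ≤ ‖w‖ → R ≤ ‖Φ w‖) →
    ∃ (Ψ : ℂ → ℂ) (V : Set ℂ), Fat F K n m Φ Ψ V

/-- Transfer of the two resolvent properties. -/
def S_TRA : Prop := ∀ (F : ℂ → ℂ) (K : ℕ → Set ℂ) (N : ℕ), Sys F K N →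
  ∀ (n m : ℕ) (Φ Ψ : ℂ → ℂ) (V : Set ℂ), Fat F K n m Φ Ψ V → ∀ (l : ℂ) (C0 : ℝ),
    (U1 F K l C0 → U1E (Φ '' K n) l C0) ∧ (U2 F K N l C0 → U2E (Φ '' K n) l C0 (N + n))

/-- Left boundary function. -/
def S_GEO : Prop := ∀ (E : Set ℂ) (m : ℕ), ESet E m → ∃ (b : ℝ → ℝ) (A : ℝ), Lft E b A

/-- Cauchy formula for a rectangle. -/
def S_RECT : Prop := ∀ (f : ℂ → ℂ) (z : ℂ) (x1 x2 y1 y2 : ℝ), Differentiable ℂ f →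
  x1 < z.re → z.re < x2 → y1 < z.im → z.im < y2 →
  (∫ x in x1..x2, f (x + y1 * Complex.I) / (x + y1 * Complex.I - z)) -
    (∫ x in x1..x2, f (x + y2 * Complex.I) / (x + y2 * Complex.I - z)) +
    Complex.I * (∫ y in y1..y2, f (x2 + y * Complex.I) / (x2 + y * Complex.I - z)) -
    Complex.I * (∫ y in y1..y2, f (x1 + y * Complex.I) / (x1 + y * Complex.I - z)) =
  2 * Real.pi * Complex.I * f z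

/-- Cut off exponentials. -/
def S_FUN : Prop := ∀ (E : Set ℂ) (b : ℝ → ℝ) (A : ℝ) (ζ : ℂ), Lft E b A →
  (∀ z ∈ E, z + 1 ∈ E) → 0 < ζ.re → ∃ C1 : ℝ, 0 < C1 ∧ ∀ y1 y2 : ℝ, y1 < y2 →
  ∃ f : ℂ → ℂ, Adm E f ∧
    (∀ z ∈ E, ‖f (z + 1) - Complex.exp (-ζ) * f z‖ ≤
      C1 * (Real.exp (-el b ζ y1) / (1 + |z.im - y1|) +
        Real.exp (-el b ζ y2) / (1 + |z.im - y2|))) ∧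
    (∀ z ∈ E, y1 + 1 ≤ z.im → z.im ≤ y2 - 1 → ‖f z - Complex.exp (-(ζ * z))‖ ≤
      C1 * (Real.exp (-el b ζ y1) / (1 + |z.im - y1|) +
        Real.exp (-el b ζ y2) / (1 + |z.im - y2|)))

/-- No dips, no long flat stretches. -/
def S_TY1 : Prop := ∀ (E : Set ℂ) (b : ℝ → ℝ) (A : ℝ) (ζ : ℂ) (C0 : ℝ), Lft E b A →
  (∀ z ∈ E, z + 1 ∈ E) → 0 < ζ.re → U1E E (Complex.exp (-ζ)) C0 →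
  (∃ B0 : ℝ, ∀ y1 y0 y2 : ℝ, y1 ≤ y0 → y0 ≤ y2 →
    min (el b ζ y1) (el b ζ y2) - B0 ≤ el b ζ y0) ∧
  ∀ B2 : ℝ, ∃ Q0 : ℝ, ∀ α β : ℝ, α ≤ β →
    (∀ y ∈ Icc α β, |el b ζ y - el b ζ α| ≤ B2) → β - α ≤ Q0

/-- No bumps. -/
def S_TY2 : Prop := ∀ (E : Set ℂ) (b : ℝ → ℝ) (A : ℝ) (ζ : ℂ) (C0 : ℝ) (N : ℕ), Lft E b A →
  (∀ z ∈ E, z + 1 ∈ E) → 0 < ζ.re → U2E E (Complex.exp (-ζ)) C0 N →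
  ∃ B0 : ℝ, ∀ y1 y0 y2 : ℝ, y1 ≤ y0 → y0 ≤ y2 →
    el b ζ y0 ≤ max (el b ζ y1) (el b ζ y2) + B0

/-- Coarse monotonicity. -/
def S_COARSE : Prop := ∀ (g : ℝ → ℝ),
  (∃ B0 : ℝ, ∀ y1 y0 y2 : ℝ, y1 ≤ y0 → y0 ≤ y2 → min (g y1) (g y2) - B0 ≤ g y0) →
  (∃ B0 : ℝ, ∀ y1 y0 y2 : ℝ, y1 ≤ y0 → y0 ≤ y2 → g y0 ≤ max (g y1) (g y2) + B0) →
  (∀ B2 : ℝ, ∃ Q0 : ℝ, ∀ α β : ℝ, α ≤ β → (∀ y ∈ Icc α β, |g y - g α| ≤ B2) →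
    β - α ≤ Q0) →
  ∀ D : ℝ, ∃ Q : ℝ, 0 < Q ∧ ((∀ y, g (y + Q) ≤ g y - D) ∨ (∀ y, g y + D ≤ g (y + Q)))

/-- The geometric conclusion. -/
def S_LP : Prop := ∀ (E : Set ℂ) (m : ℕ) (ζ : ℂ) (C0 : ℝ) (N : ℕ), ESet E m → 0 < ζ.re →
  U1E E (Complex.exp (-ζ)) C0 → U2E E (Complex.exp (-ζ)) C0 N →
  ∃ s : ℂ, (∀ z ∈ E, z + s ∈ E) ∧ (ζ * s).re < 0

/-- Characters of operator semigroups. -/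
def S_CHAR : Prop := ∀ (A : Type) [NormedRing A] [NormedAlgebra ℂ A] [CompleteSpace A]
  [NormOneClass A] (T : A) (S : Set ℂ) (TT : ℂ → A) (n m : ℕ),
  (0 : ℂ) ∈ S → (1 : ℂ) ∈ S → (∀ s ∈ S, ∀ t ∈ S, s + t ∈ S) → closedBall (m : ℂ) 1 ⊆ S →
  (∀ s ∈ S, ‖TT s‖ ≤ 1) → (∀ s ∈ S, ∀ t ∈ S, TT s * TT t = T ^ n * TT (s + t)) →
  (∀ s ∈ S, TT s * T = TT (s + 1) ∧ T * TT s = TT (s + 1)) → TT 0 = T ^ n →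
  DifferentiableOn ℂ TT (ball (m : ℂ) 1) →
  ∀ l ∈ spectrum ℂ T, l ≠ 0 → ∃ ζ : ℂ, Complex.exp (-ζ) = l ∧ ∀ s ∈ S, 0 ≤ (ζ * s).re

/-- Wolff. -/
def S_WOLFF : Prop := ∀ (P : ℂ → ℂ) (a : ℂ), ContinuousOn P (closedBall 0 1) →
  DifferentiableOn ℂ P (ball 0 1) → MapsTo P (closedBall 0 1) (closedBall 0 1) → ‖a‖ = 1 →
  (∀ z ∈ closedBall (0 : ℂ) 1, P z = z → z = a) →
  ∀ z ∈ ball (0 : ℂ) 1, (1 - ‖z‖ ^ 2) * ‖a - P z‖ ^ 2 ≤ (1 - ‖P z‖ ^ 2) * ‖a - z‖ ^ 2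

end Pool.Agent.T6.H4.SG
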