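import Pool.Agent.T6.H4.SG.Stm
import Pool.Agent.Helper203.DS.Defs3
import Pool.Agent.Helper203.DS.CayL

/-! # Statements of the modules, part about the disc algebra (MP_ff3f8e_an) -/

open Set Metric Filter Topology Pool.Agent.Helper203.DS

noncomputable section

namespace Pool.Agent.T6.H4.SG

/-- Bounded linear operators on the disc algebra. -/
abbrev Op : Type := DA →L[ℂ] DA

/-- The shrinking hypothesis (the same as `TM.Shrink`). -/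
def Shr (T : Op) (a : ℂ) : Prop :=
  ‖a‖ = 1 ∧ T Z ≠ algebraMap ℂ DA a ∧
    Tendsto (fun n : ℕ => (T ^ n) Z) atTop (𝓝 (algebraMap ℂ DA a)) ∧
    ∃ N : ℕ, ∀ z : Pt, ((T ^ N) Z).1 z = a ∨ ‖((T ^ N) Z).1 z‖ < 1

/-- The symbol in the half plane. -/
def FF (a : ℂ) (P : Pt → Pt) (w : ℂ) : ℂ := Cay a (ext (fun z : Pt => ((P z : Pt) : ℂ)) (ic a w))

/-- The images of the closed disc in the half plane. -/
def KS (a : ℂ) (P : Pt → Pt) (N n : ℕ) : Set ℂ :=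
  {w | ∃ z : Pt, ((P^[N + n] z : Pt) : ℂ) ≠ a ∧ w = Cay a ((P^[N + n] z : Pt) : ℂ)}

/-- The situation: composition operator, iterates shrinking to the boundary point `a`. -/
structure Sit (T : Op) (P : Pt → Pt) (a : ℂ) (N : ℕ) : Prop where
  comp : IsComp T P
  norm : ‖a‖ = 1
  disc : ∀ z : Pt, ((P^[N] z : Pt) : ℂ) = a ∨ ‖((P^[N] z : Pt) : ℂ)‖ < 1
  inn : ∀ z : Pt, ‖(z : ℂ)‖ < 1 → ‖((P z : Pt) : ℂ)‖ < 1
  fix : ∀ z : Pt, (z : ℂ) = a → ((P z : Pt) : ℂ) = a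
  conv : ∀ ε : ℝ, 0 < ε → ∃ n0 : ℕ, ∀ n : ℕ, n0 ≤ n → ∀ z : Pt, ‖((P^[n] z : Pt) : ℂ) - a‖ < ε

/-- From the shrinking hypothesis to the situation. -/
def S_SIT : Prop := ∀ (T : Op) (P : Pt → Pt) (a : ℂ), IsComp T P → Shr T a →
  ∃ N : ℕ, Sit T P a N

/-- From the situation to the abstract system. -/
def S_SYS : Prop := ∀ (T : Op) (P : Pt → Pt) (a : ℂ) (N : ℕ), Sit T P a N →
  Sys (FF a P) (KS a P N) N

/-- Lower bounds from the resolvent. -/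
def S_RU1 : Prop := ∀ (T : Op) (P : Pt → Pt) (a : ℂ) (N : ℕ), Sit T P a N →
  Sys (FF a P) (KS a P N) N → ∀ l : ℂ, l ∉ spectrum ℂ T →
    ∃ r0 C0 : ℝ, 0 < r0 ∧ ∀ μ ∈ ball l r0, U1 (FF a P) (KS a P N) μ C0

/-- Solvability from the resolvent. -/
def S_RU2 : Prop := ∀ (T : Op) (P : Pt → Pt) (a : ℂ) (N : ℕ), Sit T P a N →
  Sys (FF a P) (KS a P N) N → ∀ l : ℂ, l ∉ spectrum ℂ T →
    ∃ C0 : ℝ, U2 (FF a P) (KS a P N) N l C0

/-- The operator semigroup. -/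
def S_OPS : Prop := ∀ (T : Op) (P : Pt → Pt) (a : ℂ) (N : ℕ), Sit T P a N →
  Sys (FF a P) (KS a P N) N → ∀ (n m : ℕ) (Φ Ψ : ℂ → ℂ) (V : Set ℂ),
    Fat (FF a P) (KS a P N) n m Φ Ψ V →
    ∃ TT : ℂ → Op,
      (∀ s : ℂ, (∀ z ∈ Φ '' KS a P N n, z + s ∈ Φ '' KS a P N n) → ‖TT s‖ ≤ 1) ∧
      (∀ s : ℂ, (∀ z ∈ Φ '' KS a P N n, z + s ∈ Φ '' KS a P N n) →
        ∀ t : ℂ, (∀ z ∈ Φ '' KS a P N n, z + t ∈ Φ '' KS a P N n) →
        TT s * TT t = T ^ (N + n) * TT (s + t)) ∧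
      (∀ s : ℂ, (∀ z ∈ Φ '' KS a P N n, z + s ∈ Φ '' KS a P N n) →
        TT s * T = TT (s + 1) ∧ T * TT s = TT (s + 1)) ∧
      TT 0 = T ^ (N + n) ∧
      DifferentiableOn ℂ TT (ball (m : ℂ) 1)

end Pool.Agent.T6.H4.SG
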